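import Mathlib

/-! The law of the iterates in total variation, part A: binomial averages. -/

set_option autoImplicit false

namespace Pool.Agent.W5h47.TV

open Finset

/-- the expectation of `F J`, `J` binomial with parameters `t` and `1/2` -/
noncomputable def bin : ℕ → (ℕ → ℝ) → ℝ
  | 0, F => F 0
  | t + 1, F => (bin t F + bin t (fun j => F (j + 1))) / 2

theorem bin_zero (F : ℕ → ℝ) : bin 0 F = F 0 := rfl

theorem bin_succ (t : ℕ) (F : ℕ → ℝ) : bin (t + 1) F = (bin t F + bin t (fun j => F (j + 1))) / 2 := rfl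

theorem bin_const (c : ℝ) : ∀ t : ℕ, bin t (fun _ => c) = c
  | 0 => rfl
  | t + 1 => by rw [bin_succ, bin_const c t]; ring

theorem bin_add : ∀ (t : ℕ) (F G : ℕ → ℝ), bin t (fun j => F j + G j) = bin t F + bin t G
  | 0, _, _ => rfl
  | t + 1, F, G => by
    rw [bin_succ, bin_succ, bin_succ, bin_add t F G, bin_add t (fun j => F (j + 1)) (fun j => G (j + 1))]
    ring

theorem bin_mul (c : ℝ) : ∀ (t : ℕ) (F : ℕ → ℝ), bin t (fun j => c * F j) = c * bin t F
  | 0, _ => rfl
  | t + 1, F => by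
    rw [bin_succ, bin_succ, bin_mul c t F, bin_mul c t (fun j => F (j + 1))]
    ring

theorem bin_sub (t : ℕ) (F G : ℕ → ℝ) : bin t (fun j => F j - G j) = bin t F - bin t G := by
  have h := bin_add t F (fun j => (-1) * G j)
  rw [bin_mul] at h
  have e : (fun j => F j - G j) = fun j => F j + (-1) * G j := by funext j; ring
  rw [e, h]; ring

theorem bin_mono : ∀ (t : ℕ) {F G : ℕ → ℝ}, (∀ j ≤ t, F j ≤ G j) → bin t F ≤ bin t G
  | 0, _, _, h => h 0 le_rfl
  | t + 1, F, G, h => by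
    rw [bin_succ, bin_succ]
    have h1 := bin_mono t (F := F) (G := G) (fun j hj => h j (by omega))
    have h2 := bin_mono t (F := fun j => F (j + 1)) (G := fun j => G (j + 1)) (fun j hj => h (j + 1) (by omega))
    linarith

theorem bin_congr (t : ℕ) {F G : ℕ → ℝ} (h : ∀ j ≤ t, F j = G j) : bin t F = bin t G :=
  le_antisymm (bin_mono t fun j hj => (h j hj).le) (bin_mono t fun j hj => (h j hj).ge)

theorem bin_abs (t : ℕ) {F G : ℕ → ℝ} (h : ∀ j ≤ t, |F j| ≤ G j) : |bin t F| ≤ bin t G := by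
  rw [abs_le]
  constructor
  · have h1 := bin_mono t (F := fun j => (-1) * G j) (G := F) (fun j hj => by
      have := (abs_le.1 (h j hj)).1
      linarith)
    rw [bin_mul] at h1
    linarith
  · exact bin_mono t fun j hj => (abs_le.1 (h j hj)).2

theorem bin_abs_const (t : ℕ) {F : ℕ → ℝ} {c : ℝ} (h : ∀ j ≤ t, |F j| ≤ c) : |bin t F| ≤ c := by
  have := bin_abs t (G := fun _ => c) h
  rwa [bin_const] at this

theorem bin_nonneg (t : ℕ) {F : ℕ → ℝ} (h : ∀ j ≤ t, 0 ≤ F j) : 0 ≤ bin t F := by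
  have := bin_mono t (F := fun _ => (0 : ℝ)) (G := F) h
  rwa [bin_const] at this

theorem bin_comp (t : ℕ) : ∀ (s : ℕ) (F : ℕ → ℝ), bin (s + t) F = bin s (fun i => bin t (fun j => F (i + j)))
  | 0, F => by rw [bin_zero, zero_add]; simp only [zero_add]
  | s + 1, F => by
    rw [show s + 1 + t = (s + t) + 1 by ring, bin_succ, bin_succ, bin_comp t s F,
      bin_comp t s (fun j => F (j + 1))]
    congr 4
    funext i
    congr 1
    funext j
    congr 1
    ring

theorem bin_sum {ι : Type*} (S : Finset ι) (f : ι → ℕ → ℝ) : ∀ (t : ℕ),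
    bin t (fun j => ∑ i ∈ S, f i j) = ∑ i ∈ S, bin t (f i) := by
  classical
  intro t
  induction S using Finset.induction_on with
  | empty =>
    simp only [sum_empty]
    exact bin_const 0 t
  | insert a S ha ih =>
    simp only [sum_insert ha]
    rw [bin_add, ih]

theorem bin_pow (x : ℝ) : ∀ t : ℕ, bin t (fun j => x ^ j) = ((1 + x) / 2) ^ t
  | 0 => by simp [bin_zero]
  | t + 1 => by
    rw [bin_succ, bin_pow x t]
    have e : (fun j => x ^ (j + 1)) = fun j => x * x ^ j := by funext j; ring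
    rw [e, bin_mul, bin_pow x t, pow_succ]
    ring

/-- the moment identity -/
theorem bin_moment : ∀ (n : ℕ) (F : ℕ → ℝ),
    bin (n + 1) (fun j => (2 * j - (n + 1)) * F j) = (n + 1) / 2 * (bin n (fun j => F (j + 1)) - bin n F)
  | 0, F => by
    rw [bin_succ, bin_zero, bin_zero, bin_zero, bin_zero]
    push_cast
    ring
  | n + 1, F => by
    have h1 := bin_moment n F
    have h2 := bin_moment n (fun j => F (j + 1))
    have e1 : (fun j : ℕ => (2 * (j : ℝ) - (((n + 1 : ℕ) : ℝ) + 1)) * F j)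
        = fun j : ℕ => (2 * (j : ℝ) - (n + 1)) * F j - F j := by
      funext j; push_cast; ring
    have e2 : (fun j : ℕ => (2 * ((j + 1 : ℕ) : ℝ) - (((n + 1 : ℕ) : ℝ) + 1)) * F (j + 1))
        = fun j : ℕ => (2 * (j : ℝ) - (n + 1)) * F (j + 1) + F (j + 1) := by
      funext j; push_cast; ring
    rw [bin_succ]
    rw [e1, e2, bin_sub, bin_add, h1, h2]
    have h3 := bin_succ n F
    have h4 := bin_succ n (fun j => F (j + 1))
    push_cast
    rw [h3, h4]
    ring

theorem bin_var (n : ℕ) : bin (n + 1) (fun j => (2 * (j : ℝ) - (n + 1)) ^ 2) = n + 1 := by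
  have h := bin_moment n (fun j => 2 * (j : ℝ) - (n + 1))
  have e : (fun j : ℕ => (2 * (j : ℝ) - (n + 1)) ^ 2)
      = fun j : ℕ => (2 * (j : ℝ) - (n + 1)) * (2 * (j : ℝ) - (n + 1)) := by funext j; ring
  rw [e, h]
  have e2 : (fun j : ℕ => 2 * (((j + 1 : ℕ) : ℝ)) - ((n : ℝ) + 1))
      = fun j : ℕ => (2 * (j : ℝ) - (n + 1)) + 2 := by funext j; push_cast; ring
  rw [e2, bin_add, bin_const]
  ring

/-- THE SHIFT LEMMA -/
theorem bin_shift (n : ℕ) {F : ℕ → ℝ} (hF : ∀ j, |F j| ≤ 1) :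
    |bin n (fun j => F (j + 1)) - bin n F| ≤ 2 / Real.sqrt (n + 1) := by
  have h0 : (0 : ℝ) < n + 1 := by positivity
  have hs : 0 < Real.sqrt (n + 1) := Real.sqrt_pos.2 h0
  have hss : Real.sqrt (n + 1) * Real.sqrt (n + 1) = n + 1 := Real.mul_self_sqrt h0.le
  have h1 := bin_moment n F
  have h2 : |bin (n + 1) (fun j => (2 * (j : ℝ) - (n + 1)) * F j)| ≤ Real.sqrt (n + 1) := by
    have h3 : ∀ j ≤ n + 1, |(2 * (j : ℝ) - (n + 1)) * F j|
        ≤ (1 / (2 * Real.sqrt (n + 1))) * (2 * (j : ℝ) - (n + 1)) ^ 2 + Real.sqrt (n + 1) / 2 := by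
      intro j _
      rw [abs_mul]
      set a := 2 * (j : ℝ) - (n + 1)
      have h4 : |a| * |F j| ≤ |a| := mul_le_of_le_one_right (abs_nonneg _) (hF j)
      refine h4.trans ?_
      have h5 : a ^ 2 = |a| ^ 2 := (sq_abs a).symm
      rw [h5, one_div, inv_mul_eq_div, ← sub_nonneg]
      have e : |a| ^ 2 / (2 * Real.sqrt (n + 1)) + Real.sqrt (n + 1) / 2 - |a|
          = (|a| - Real.sqrt (n + 1)) ^ 2 / (2 * Real.sqrt (n + 1)) := by
        field_simp
        ring
      rw [e]
      positivity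
    refine (bin_abs (n + 1) h3).trans (le_of_eq ?_)
    rw [bin_add, bin_mul, bin_const, bin_var]
    have h6 : ∀ r x : ℝ, 0 < r → r * r = x → 1 / (2 * r) * x + r / 2 = r := by
      intro r x hr hx
      rw [← hx]
      field_simp
      ring
    exact h6 _ _ hs hss
  rw [h1, abs_mul, abs_of_pos (by positivity : (0 : ℝ) < (n + 1) / 2)] at h2
  rw [le_div_iff₀ hs]
  nlinarith

theorem bin_shift_le (n : ℕ) : ∀ (a : ℕ) {F : ℕ → ℝ}, (∀ j, |F j| ≤ 1) →
    |bin n (fun j => F (j + a)) - bin n F| ≤ a * (2 / Real.sqrt (n + 1))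
  | 0, F, _ => by simp
  | a + 1, F, hF => by
    have h1 := bin_shift_le n a hF
    have h2 := bin_shift n (F := fun j => F (j + a)) (fun j => hF _)
    have e : (fun j => F (j + (a + 1))) = fun j => (fun j => F (j + a)) (j + 1) := by
      funext j; dsimp only; congr 1; ring
    rw [e]
    have h3 : bin n (fun j => (fun j => F (j + a)) (j + 1)) - bin n F
        = (bin n (fun j => (fun j => F (j + a)) (j + 1)) - bin n (fun j => F (j + a)))
          + (bin n (fun j => F (j + a)) - bin n F) := by ring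
    rw [h3]
    refine (abs_add_le _ _).trans ((add_le_add h2 h1).trans (le_of_eq ?_))
    push_cast; ring

/-- comparison of `t` and `n + t` steps -/
theorem bin_far (n s a : ℕ) (ha : a ≤ s) {F : ℕ → ℝ} (hF : ∀ j, |F j| ≤ 1) :
    |bin n (fun j => F (j + a)) - bin (s + n) F| ≤ 2 * (s * (2 / Real.sqrt (n + 1))) := by
  have hq : 0 ≤ 2 / Real.sqrt ((n : ℝ) + 1) := by positivity
  have h1 := bin_shift_le n a hF
  rw [bin_comp n s F]
  have h2 : |bin s (fun i => bin n (fun j => F (i + j)) - bin n F)| ≤ s * (2 / Real.sqrt (n + 1)) := by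
    apply bin_abs_const
    intro i hi
    have h3 := bin_shift_le n i hF
    have e : (fun j => F (i + j)) = fun j => F (j + i) := by funext j; rw [add_comm]
    rw [e]
    refine h3.trans ?_
    apply mul_le_mul_of_nonneg_right _ hq
    exact_mod_cast hi
  have e3 : bin s (fun i => bin n (fun j => F (i + j)) - bin n F)
      = bin s (fun i => bin n (fun j => F (i + j))) - bin n F := by
    rw [bin_sub s (fun i => bin n (fun j => F (i + j))) (fun _ => bin n F), bin_const]
  rw [e3] at h2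
  have h4 : (a : ℝ) * (2 / Real.sqrt (n + 1)) ≤ s * (2 / Real.sqrt (n + 1)) := by
    apply mul_le_mul_of_nonneg_right _ hq
    exact_mod_cast ha
  have a1 := abs_le.1 h1
  have a2 := abs_le.1 h2
  rw [abs_le]
  constructor <;> linarith [a1.1, a1.2, a2.1, a2.2]

theorem bin_choose : ∀ (t : ℕ) (F : ℕ → ℝ),
    bin t F = ∑ J ∈ range (t + 1), (t.choose J : ℝ) / 2 ^ t * F J
  | 0, F => by simp [bin_zero]
  | t + 1, F => by
    rw [bin_succ, bin_choose t F, bin_choose t (fun j => F (j + 1))]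
    have h1 : ∑ J ∈ range (t + 1 + 1), ((t + 1).choose J : ℝ) / 2 ^ (t + 1) * F J
        = ∑ J ∈ range (t + 1), ((t + 1).choose (J + 1) : ℝ) / 2 ^ (t + 1) * F (J + 1)
          + ((t + 1).choose 0 : ℝ) / 2 ^ (t + 1) * F 0 := sum_range_succ' _ _
    have h2 : ∑ J ∈ range (t + 1), (t.choose J : ℝ) / 2 ^ t * F J
        = ∑ J ∈ range (t + 1), (t.choose (J + 1) : ℝ) / 2 ^ t * F (J + 1)
          + (t.choose 0 : ℝ) / 2 ^ t * F 0 := by
      rw [sum_range_succ' (fun J => (t.choose J : ℝ) / 2 ^ t * F J),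
        sum_range_succ (fun J => (t.choose (J + 1) : ℝ) / 2 ^ t * F (J + 1)), Nat.choose_succ_self]
      simp
    rw [h1, h2]
    simp only [Nat.choose_zero_right, Nat.choose_succ_succ, Nat.cast_add, Nat.cast_one, pow_succ]
    rw [add_right_comm, ← sum_add_distrib, add_div, sum_div]
    congr 1
    · apply sum_congr rfl
      intro J _
      field_simp
      ring
    · field_simp

/-- few odd terms: exponentially small -/
theorem bin_tail {c₀ : ℝ} (hc : c₀ < 1 / 2) : ∃ ρ : ℝ, 0 < ρ ∧ ρ < 1 ∧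
    ∀ (t : ℕ), bin t (fun j => if (j : ℝ) < c₀ * t then 1 else 0) ≤ ρ ^ t := by
  obtain ⟨x, hx0, hx1, hxc⟩ : ∃ x : ℝ, 0 < x ∧ x < 1 ∧ 2 * c₀ < x := by
    refine ⟨max (1 / 2) (1 / 2 + c₀), by positivity, ?_, ?_⟩
    · rw [max_lt_iff]; constructor <;> linarith
    · rcases lt_or_ge c₀ (1 / 4) with h' | h'
      · exact lt_of_lt_of_le (by linarith) (le_max_left _ _)
      · exact lt_of_lt_of_le (by linarith) (le_max_right _ _)
  set ρ : ℝ := (1 + x) / 2 * x ^ (-c₀) with hρ
  have hρ0 : 0 < ρ := by rw [hρ]; positivity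
  have hlog : Real.log ρ < 0 := by
    rw [hρ, Real.log_mul (by positivity) (by positivity), Real.log_rpow hx0]
    have h1 : Real.log ((1 + x) / 2) ≤ (1 + x) / 2 - 1 := Real.log_le_sub_one_of_pos (by positivity)
    rcases le_or_gt 0 c₀ with h0 | h0
    · have h2 : Real.log (x⁻¹) ≤ x⁻¹ - 1 := Real.log_le_sub_one_of_pos (by positivity)
      rw [Real.log_inv] at h2
      have h3 : -c₀ * Real.log x ≤ c₀ * (x⁻¹ - 1) := by nlinarith
      have h4 : c₀ * (x⁻¹ - 1) < (1 - x) / 2 := by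
        have : c₀ * (x⁻¹ - 1) = (c₀ / x) * (1 - x) := by field_simp
        rw [this]
        have h5 : c₀ / x < 1 / 2 := by rw [div_lt_iff₀ hx0]; linarith
        nlinarith
      linarith
    · have h2 : Real.log x < 0 := Real.log_neg hx0 hx1
      have h3 : -c₀ * Real.log x < 0 := by nlinarith
      linarith
  refine ⟨ρ, hρ0, ?_, fun t => ?_⟩
  · by_contra h
    have := Real.log_nonneg (not_lt.1 h)
    linarith
  have hxt : 0 < x ^ (c₀ * t) := Real.rpow_pos_of_pos hx0 _
  have h1 : bin t (fun j => if (j : ℝ) < c₀ * t then 1 else 0) ≤ bin t (fun j => (x ^ (c₀ * t))⁻¹ * x ^ j) := by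
    apply bin_mono
    intro j _
    split_ifs with h
    · rw [inv_mul_eq_div, one_le_div hxt, ← Real.rpow_natCast x j]
      exact Real.rpow_le_rpow_of_exponent_ge hx0 hx1.le h.le
    · positivity
  refine h1.trans (le_of_eq ?_)
  rw [bin_mul, bin_pow, hρ, mul_pow, ← Real.rpow_natCast (x ^ (-c₀)) t, ← Real.rpow_mul hx0.le,
    show -c₀ * (t : ℝ) = -(c₀ * t) by ring, Real.rpow_neg hx0.le]
  ring

end Pool.Agent.W5h47.TV
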