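import Pool.Agent.W5h47.SL.B

/-! The law of the iterates in total variation, part B: one stage, graded by the number of odd terms. -/

set_option autoImplicit false

namespace Pool.Agent.W5h47.TV

open Pool.Agent.H320R2.PD Finset
open Pool.Agent.H499R2.CO (Tz)
open Pool.Agent.H499R2.ND (mem_win ap mem_ap ap_card_le crt dev sum_periodic_le cnt_congr)
open Pool.Agent.R344.SP
open Pool.Agent.W5h47.SL

/-- the partition of a set of odd integers by the words of the first `t` steps, graded -/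
theorem partitionG {d : ℤ} (hd : d % 2 = 1) {c t : ℕ} (hc : t ≤ c) (S : Finset ℤ)
    (hS : ∀ M ∈ S, M % 2 = 1) (Ψ : ℕ → ℤ → ℝ) :
    ∑ M ∈ S, Ψ (od d t M) ((Tz d)^[t] M)
      = ∑ j ∈ range (t + 1), ∑ w ∈ FWT c j t,
          ∑ M ∈ S.filter (fun M => (2 : ℤ) ^ t ∣ 3 ^ j * M + d * Wo w),
            Ψ j ((3 ^ j * M + d * Wo w) / 2 ^ t) := by
  rw [← sum_fiberwise_of_maps_to (s := S) (t := range (t + 1)) (g := fun M => od d t M)]
  · apply sum_congr rfl
    intro j hj
    rw [← sum_fiberwise_of_maps_to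
      (s := S.filter (fun M => od d t M = j))
      (t := FWT c j t) (g := fun M => wd d M t)]
    · apply sum_congr rfl
      intro w hw
      obtain ⟨h1, h2, h3⟩ := FWT_props hw
      have hset : ((S.filter (fun M => od d t M = j)).filter (fun M => wd d M t = w))
          = S.filter (fun M => (2 : ℤ) ^ t ∣ 3 ^ j * M + d * Wo w) := by
        ext M
        simp only [mem_filter]
        constructor
        · rintro ⟨⟨h4, _⟩, h5⟩
          refine ⟨h4, ?_⟩
          have := wd_id (d := d) hd t (hS M h4)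
          rw [h5, h1] at this
          rw [this]
          exact dvd_mul_right _ _
        · rintro ⟨h4, h5⟩
          have h6 : wd d M t = w := wd_unique hd (hS M h4) t w h2 h3 (by rw [h1]; exact h5)
          have h7 : od d t M = j := by rw [← wd_length, h6, h1]
          exact ⟨⟨h4, h7⟩, h6⟩
      rw [hset]
      apply sum_congr rfl
      intro M hM
      rw [mem_filter] at hM
      have h6 : wd d M t = w := wd_unique hd (hS M hM.1) t w h2 h3 (by rw [h1]; exact hM.2)
      have h7 : od d t M = j := by rw [← wd_length, h6, h1]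
      have := wd_id (d := d) hd t (hS M hM.1)
      rw [h6, h1] at this
      rw [this, Int.mul_ediv_cancel_left _ (by positivity), h7]
    · intro M hM
      rw [mem_filter] at hM
      have := wd_mem (d := d) (hS M hM.1) hc
      rw [hM.2] at this
      exact this
  · intro M _
    rw [mem_range]
    have := od_le d t M
    omega

theorem odd_mainG {d : ℤ} (hd : d % 2 = 1) (hd3 : IsCoprime d 3) {A : ℝ} (hA : 0 ≤ A) {c t : ℕ}
    (m n : ℕ) (ht : 1 ≤ t) (hc : t ≤ c) {Ψ : ℕ → ℤ → ℝ} (hΨ : ∀ j x, |Ψ j x| ≤ 1) {δ : ℝ} (hδ : 0 ≤ δ)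
    {u : ℤ} (hu : IsCoprime u 3) (v : ℤ)
    (h : ∀ j, ∀ b : ℤ, |∑ x ∈ cl (A * 3 ^ j / 2 ^ t) (2 * (A * 3 ^ j / 2 ^ t)) m 1 b, Ψ j x|
      ≤ δ * (A * 3 ^ j / 2 ^ t) / 3 ^ m) :
    |∑ M ∈ Oc A n u v, Ψ (od d t M) ((Tz d)^[t] M)|
      ≤ δ * A / 3 ^ n + (A / 3 ^ n + 2 ^ t) * DfC c m n t + (2 * |(d : ℝ)| + 3) * 2 ^ t := by
  have h2t : (0 : ℝ) < 2 ^ t := by positivity
  rw [partitionG hd hc (Oc A n u v) (fun M hM => (mem_Oc.1 hM).1.2) Ψ]
  set N : ℕ → ℝ := fun j => ((FWT c j t).card : ℝ) with hN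
  have hNn : ∀ j, 0 ≤ N j := fun j => by rw [hN]; positivity
  set dv : ℕ → ℝ := fun j => dev (FWT c j t) wwt (fun w => (Wo w : ℤ)) (j + n) m with hdv
  have hdvn : ∀ j, 0 ≤ dv j := fun j => dev_nonneg _ _ _ _ _
  have hA3 : 0 ≤ A / 3 ^ n := by positivity
  have hone : ∀ j ∈ range (t + 1),
      |∑ w ∈ FWT c j t, ∑ M ∈ (Oc A n u v).filter (fun M => (2 : ℤ) ^ t ∣ 3 ^ j * M + d * Wo w),
            Ψ j ((3 ^ j * M + d * Wo w) / 2 ^ t)|
      ≤ δ * A / 3 ^ n * (N j / 2 ^ t)
        + (if m ≤ j then (A / 3 ^ n + 2 ^ t) * dv j else A / 3 ^ n * (N j / 2 ^ t))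
        + (2 * |(d : ℝ)| + 3) * N j := by
    intro j _
    have h6 : 0 ≤ N j := hNn j
    split_ifs with hmj
    · have h5 := one_j (c := c) hd hd3 hA m n j ht (by omega) (hΨ j) hu v (h j)
      refine h5.trans ?_
      change δ * A / 3 ^ n * (N j / 2 ^ t) + (A / 3 ^ n + 2 ^ t) * dv j + 2 * (|(d : ℝ)| + 1) * N j ≤ _
      nlinarith
    · have h5 := one_j_triv (c := c) (A := A) hd hA n j ht (hΨ j) hu v
      have h7 : 0 ≤ δ * A / 3 ^ n * (N j / 2 ^ t) := by positivity
      refine h5.trans ?_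
      change A / 3 ^ n * (N j / 2 ^ t) + (2 * |(d : ℝ)| + 3) * N j ≤ _
      linarith
  refine (abs_sum_le_sum_abs _ _).trans ((sum_le_sum hone).trans ?_)
  rw [sum_add_distrib, sum_add_distrib, ← mul_sum, ← mul_sum]
  have hNs : ∑ j ∈ range (t + 1), N j ≤ 2 ^ t := by
    have := words_card (c := c) ht
    have h' : ((∑ j ∈ range (t + 1), (FWT c j t).card : ℕ) : ℝ) ≤ ((2 ^ t : ℕ) : ℝ) := by
      exact_mod_cast this
    push_cast at h'
    exact h'
  have h1 : δ * A / 3 ^ n * ∑ j ∈ range (t + 1), N j / 2 ^ t ≤ δ * A / 3 ^ n := by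
    rw [← sum_div]
    have : (∑ j ∈ range (t + 1), N j) / 2 ^ t ≤ 1 := by
      rw [div_le_one h2t]; exact hNs
    have h0 : 0 ≤ δ * A / 3 ^ n := by positivity
    nlinarith
  have h2 : (2 * |(d : ℝ)| + 3) * ∑ j ∈ range (t + 1), N j ≤ (2 * |(d : ℝ)| + 3) * 2 ^ t :=
    mul_le_mul_of_nonneg_left hNs (by positivity)
  have h3 : ∑ j ∈ range (t + 1),
      (if m ≤ j then (A / 3 ^ n + 2 ^ t) * dv j else A / 3 ^ n * (N j / 2 ^ t))
      ≤ (A / 3 ^ n + 2 ^ t) * DfC c m n t := by
    calc ∑ j ∈ range (t + 1),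
          (if m ≤ j then (A / 3 ^ n + 2 ^ t) * dv j else A / 3 ^ n * (N j / 2 ^ t))
        = ∑ j ∈ (range (t + 1)).filter (fun j => m ≤ j), (A / 3 ^ n + 2 ^ t) * dv j
          + ∑ j ∈ (range (t + 1)).filter (fun j => ¬ m ≤ j), A / 3 ^ n * (N j / 2 ^ t) := by
          rw [sum_ite]
      _ ≤ ∑ j ∈ Ico m (t + 1), (A / 3 ^ n + 2 ^ t) * dv j
          + ∑ j ∈ range m, (A / 3 ^ n + 2 ^ t) * (N j / 2 ^ t) := by
          apply add_le_add
          · apply sum_le_sum_of_subset_of_nonneg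
            · intro j hj
              rw [mem_filter, mem_range] at hj
              rw [mem_Ico]; omega
            · intro j _ _
              have := hdvn j
              positivity
          · calc ∑ j ∈ (range (t + 1)).filter (fun j => ¬ m ≤ j), A / 3 ^ n * (N j / 2 ^ t)
                ≤ ∑ j ∈ (range (t + 1)).filter (fun j => ¬ m ≤ j),
                    (A / 3 ^ n + 2 ^ t) * (N j / 2 ^ t) := by
                  apply sum_le_sum
                  intro j _
                  have := hNn j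
                  apply mul_le_mul_of_nonneg_right _ (by positivity)
                  linarith
              _ ≤ _ := by
                  apply sum_le_sum_of_subset_of_nonneg
                  · intro j hj
                    rw [mem_filter, mem_range] at hj
                    rw [mem_range]; omega
                  · intro j _ _
                    have := hNn j
                    positivity
      _ = _ := by
          unfold DfC
          rw [← mul_sum, ← mul_sum, ← mul_add]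
          congr 2
          apply sum_congr rfl
          intro j _
          exact (sum_wwt_FWT c j t).symm
  linarith

/-- THE LAW OF THE `t`-TH ITERATE, graded, starting points in a class -/
theorem all_mainG {d : ℤ} (hd : d % 2 = 1) (hd3 : IsCoprime d 3) {c : ℕ}
    (m n : ℕ) {Ψ : ℕ → ℤ → ℝ} (hΨ : ∀ j x, |Ψ j x| ≤ 1) {δ : ℝ} (hδ : 0 ≤ δ) :
    ∀ (t : ℕ), t ≤ c → ∀ {A : ℝ}, 0 ≤ A → ∀ {u : ℤ}, IsCoprime u 3 → ∀ v : ℤ,
    (∀ j, ∀ b : ℤ, |∑ x ∈ cl (A * 3 ^ j / 2 ^ t) (2 * (A * 3 ^ j / 2 ^ t)) m 1 b, Ψ j x|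
      ≤ δ * (A * 3 ^ j / 2 ^ t) / 3 ^ m) →
    |∑ n ∈ cl A (2 * A) n u v, Ψ (od d t n) ((Tz d)^[t] n)|
      ≤ 2 * δ * A / 3 ^ n + (A / 3 ^ n + 2 ^ t) * DgC c m n t + (2 * |(d : ℝ)| + 3) * 2 ^ (t + 1) := by
  intro t
  induction t with
  | zero =>
    intro _ A hA u hu v _
    have h1 : |∑ n ∈ cl A (2 * A) n u v, Ψ (od d 0 n) ((Tz d)^[0] n)|
        ≤ A / 3 ^ n + 1 := by
      have h2 := cl_card_le (by linarith : A ≤ 2 * A) n hu v
      rw [show 2 * A - A = A by ring] at h2
      refine le_trans ?_ h2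
      refine (abs_sum_le_sum_abs _ _).trans ?_
      calc ∑ n ∈ cl A (2 * A) n u v, |Ψ (od d 0 n) ((Tz d)^[0] n)|
          ≤ ∑ _n ∈ cl A (2 * A) n u v, (1 : ℝ) := sum_le_sum fun n _ => hΨ _ _
        _ = _ := by simp
    have h2 : 0 ≤ 2 * δ * A / 3 ^ n := by positivity
    have h3 : 0 ≤ (2 * |(d : ℝ)| + 3) * 2 ^ (0 + 1) := by positivity
    have h4 : (A / 3 ^ n + 2 ^ 0) * DgC c m n 0 = A / 3 ^ n + 1 := by simp [DgC]
    rw [h4]
    exact h1.trans (le_add_of_le_of_nonneg (le_add_of_nonneg_left h2) h3)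
  | succ t ih =>
    intro hc A hA u hu v h
    have hodd := odd_mainG hd hd3 hA m n (by omega : 1 ≤ t + 1) hc hΨ hδ hu v h
    have hwin : ∀ j : ℕ, A / 2 * 3 ^ j / 2 ^ t = A * 3 ^ j / 2 ^ (t + 1) := by
      intro j; rw [pow_succ]; field_simp
    have hu2 : IsCoprime (u * 2) 3 := by
      have := cop_mul hu 1
      simpa using this
    have heven := ih (by omega) (A := A / 2) (by positivity) hu2 v (by
      intro j b
      rw [hwin]; exact h j b)
    have hsplit : ∑ n ∈ cl A (2 * A) n u v, Ψ (od d (t + 1) n) ((Tz d)^[t + 1] n)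
        = ∑ M ∈ Oc A n u v, Ψ (od d (t + 1) M) ((Tz d)^[t + 1] M)
          + ∑ n ∈ cl (A / 2) (2 * (A / 2)) n (u * 2) v, Ψ (od d t n) ((Tz d)^[t] n) := by
      rw [← sum_filter_add_sum_filter_not (cl A (2 * A) n u v) (fun n => n % 2 = 1)]
      congr 1
      · apply sum_congr _ (fun _ _ => rfl)
        ext n
        simp only [mem_filter, mem_Oc, mem_cl]
        tauto
      · apply sum_nbij' (fun n => n / 2) (fun n => 2 * n)
        · intro n hn
          rw [mem_filter, mem_cl] at hn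
          obtain ⟨⟨⟨h1, h2⟩, h5⟩, h4⟩ := hn
          obtain ⟨y, rfl⟩ : ∃ y, n = 2 * y := ⟨n / 2, by omega⟩
          rw [Int.mul_ediv_cancel_left _ (by norm_num), mem_cl]
          push_cast at h1 h2
          exact ⟨⟨by linarith, by linarith⟩, by rwa [mul_assoc]⟩
        · intro y hy
          rw [mem_cl] at hy
          obtain ⟨⟨h1, h2⟩, h5⟩ := hy
          rw [mem_filter, mem_cl]
          push_cast
          rw [mul_assoc] at h5
          exact ⟨⟨⟨by linarith, by linarith⟩, h5⟩, by omega⟩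
        · intro n hn
          rw [mem_filter] at hn
          have := hn.2
          omega
        · intro y _
          exact Int.mul_ediv_cancel_left _ (by norm_num)
        · intro n hn
          rw [mem_filter] at hn
          have h1 := hn.2
          have e1 : Tz d n = n / 2 := by unfold Tz; rw [if_pos (by omega)]
          have e2 : (n % 2).toNat = 0 := by
            have : n % 2 = 0 := by omega
            rw [this]; rfl
          rw [Function.iterate_succ_apply, e1, od_succ', e1, e2, add_zero]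
    rw [hsplit]
    have hDg : DgC c m n (t + 1) = DfC c m n (t + 1) + DgC c m n t / 2 := rfl
    calc |∑ M ∈ Oc A n u v, Ψ (od d (t + 1) M) ((Tz d)^[t + 1] M)
          + ∑ n ∈ cl (A / 2) (2 * (A / 2)) n (u * 2) v, Ψ (od d t n) ((Tz d)^[t] n)|
        ≤ (δ * A / 3 ^ n + (A / 3 ^ n + 2 ^ (t + 1)) * DfC c m n (t + 1)
            + (2 * |(d : ℝ)| + 3) * 2 ^ (t + 1))
          + (2 * δ * (A / 2) / 3 ^ n + (A / 2 / 3 ^ n + 2 ^ t) * DgC c m n t
            + (2 * |(d : ℝ)| + 3) * 2 ^ (t + 1)) :=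
          (abs_add_le _ _).trans (add_le_add hodd heven)
      _ = _ := by
          rw [hDg, pow_succ 2 (t + 1), pow_succ 2 t]
          ring

/-- the defect is small at most times, for all large `m` -/
theorem rareM {η θ : ℝ} (hη : 0 < η) (hθ : 0 < θ) : ∃ m₀ : ℕ, 1 ≤ m₀ ∧ ∀ m ≥ m₀, ∀ n : ℕ,
    Rare θ {t | η < DhC m n t} := by
  classical
  obtain ⟨C, hC, hs⟩ := DhC_sum
  obtain ⟨m₀, hm₀⟩ := exists_nat_ge (2 * C / (η * θ) + 1)
  have hm1' : 1 ≤ m₀ := by
    have : (1 : ℝ) ≤ m₀ := by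
      have : 0 ≤ 2 * C / (η * θ) := by positivity
      linarith
    exact_mod_cast this
  refine ⟨m₀, hm1', fun m hmm n => ?_⟩
  have hm : 2 * C / (η * θ) + 1 ≤ m := hm₀.trans (by exact_mod_cast hmm)
  have hm1 : 1 ≤ m := hm1'.trans hmm
  have hm0 : (0 : ℝ) < m := by exact_mod_cast hm1
  obtain ⟨K₁, hK₁⟩ := exists_nat_ge (2 * (C * n ^ 3 + 2 * m + 2) / (η * θ))
  refine ⟨K₁, fun K hK => ⟨(range (K + 1)).filter (fun t => η < DhC m n t), ?_, ?_⟩⟩
  · intro t ht htK
    rw [mem_filter, mem_range]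
    exact ⟨by omega, ht⟩
  · have h1 : η * (((range (K + 1)).filter (fun t => η < DhC m n t)).card : ℝ)
        ≤ C * K / m + C * n ^ 3 + 2 * m + 2 := by
      calc η * (((range (K + 1)).filter (fun t => η < DhC m n t)).card : ℝ)
          = ∑ _t ∈ (range (K + 1)).filter (fun t => η < DhC m n t), η := by
            rw [sum_const, nsmul_eq_mul]; ring
        _ ≤ ∑ t ∈ (range (K + 1)).filter (fun t => η < DhC m n t), DhC m n t := by
            apply sum_le_sum
            intro t ht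
            exact (mem_filter.1 ht).2.le
        _ ≤ ∑ t ∈ range (K + 1), DhC m n t :=
            sum_le_sum_of_subset_of_nonneg (filter_subset _ _) fun t _ _ => DhC_nonneg m n t
        _ ≤ _ := hs m n K hm1
    have hKR : (K₁ : ℝ) ≤ K := by exact_mod_cast hK
    have h2 : 2 * (C * n ^ 3 + 2 * m + 2) ≤ K * (η * θ) := by
      have h3 := hK₁.trans hKR
      rw [div_le_iff₀ (by positivity)] at h3
      exact h3
    have h4 : C / m ≤ η * θ / 2 := by
      rw [div_le_iff₀ hm0]
      have h5 : 2 * C / (η * θ) ≤ m := by linarith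
      rw [div_le_iff₀ (by positivity)] at h5
      nlinarith
    have h6 : C * K / m ≤ η * θ / 2 * K := by
      rw [show C * (K : ℝ) / m = C / m * K by ring]
      exact mul_le_mul_of_nonneg_right h4 (by positivity)
    have h7 : η * (((range (K + 1)).filter (fun t => η < DhC m n t)).card : ℝ) ≤ η * (θ * K) := by
      nlinarith
    exact le_of_mul_le_mul_left h7 hη

end Pool.Agent.W5h47.TV
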