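import Pool.Agent.W5h47.TV.A
import Pool.Agent.W5h47.TV.B
import Pool.Agent.W5h47.SL.E

/-! The law of the iterates in total variation, part C: periodic functions, the stationary density. -/

set_option autoImplicit false

namespace Pool.Agent.W5h47.TV

open Pool.Agent.H320R2.PD Finset
open Pool.Agent.H499R2.CO (Tz)
open Pool.Agent.H499R2.ND (mem_win ap mem_ap ap_card_le le_ap_card crt)
open Pool.Agent.R344.SP
open Pool.Agent.W5h47.SL

theorem od_add (d : ℤ) (t s : ℕ) (x : ℤ) : od d (t + s) x = od d t x + od d s ((Tz d)^[t] x) := by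
  unfold od
  rw [sum_range_add]
  congr 1
  apply sum_congr rfl
  intro k _
  rw [← Function.iterate_add_apply, add_comm k t]

theorem mn_push1 {d : ℤ} (hd : d % 2 = 1) {H : ℕ} (hH : 1 ≤ H) (hc3 : Nat.Coprime 3 H) {g₀ g₁ : ℤ → ℝ}
    (h1 : ∀ x z, g₁ (x + H * z) = g₁ x) :
    mn (fun x => if x % 2 = 0 then g₀ (Tz d x) else g₁ (Tz d x)) (2 * H) = (mn g₀ H + mn g₁ H) / 2 := by
  have hH0 : (0 : ℝ) < H := by exact_mod_cast hH
  unfold mn
  rw [Pool.Agent.H499R2.CO.sum_two]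
  have e0 : ∑ u ∈ range H, (fun x : ℤ => if x % 2 = 0 then g₀ (Tz d x) else g₁ (Tz d x)) ((2 * u : ℕ) : ℤ)
      = ∑ u ∈ range H, g₀ u := by
    apply sum_congr rfl
    intro u _
    dsimp only
    rw [if_pos (by push_cast; omega)]
    congr 1
    unfold Tz
    rw [if_pos (by push_cast; omega)]
    push_cast; omega
  have e1 : ∑ u ∈ range H, (fun x : ℤ => if x % 2 = 0 then g₀ (Tz d x) else g₁ (Tz d x)) ((2 * u + 1 : ℕ) : ℤ)
      = ∑ u ∈ range H, g₁ u := by
    have hq : IsCoprime (3 : ℤ) (H : ℤ) := by exact_mod_cast (Nat.isCoprime_iff_coprime.2 hc3)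
    rw [← cover_sum hH h1 hq ((3 + d) / 2)]
    apply sum_congr rfl
    intro u _
    dsimp only
    rw [if_neg (by push_cast; omega)]
    congr 1
    unfold Tz
    rw [if_neg (by push_cast; omega)]
    push_cast; omega
  rw [e0, e1]
  push_cast
  field_simp

theorem mn_push {d : ℤ} (hd : d % 2 = 1) {H : ℕ} (hH : 1 ≤ H) (hc3 : Nat.Coprime 3 H) : ∀ (t : ℕ)
    (f : ℕ → ℤ → ℝ), (∀ i x z, f i (x + H * z) = f i x) →
    mn (fun x => f (od d t x) ((Tz d)^[t] x)) (2 ^ t * H) = bin t (fun i => mn (f i) H)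
  | 0, f, _ => by
    rw [bin_zero, pow_zero, one_mul]
    rfl
  | t + 1, f, hf => by
    have hper : ∀ a x z, (fun y => f (od d t y + a) ((Tz d)^[t] y)) (x + (2 ^ t * H : ℕ) * z)
        = (fun y => f (od d t y + a) ((Tz d)^[t] y)) x := by
      intro a x z
      dsimp only
      have e : x + (2 ^ t * H : ℕ) * z = x + 2 ^ t * (H * z) := by push_cast; ring
      rw [e, od_shift_d hd, iter_shift_d hd]
      rw [show (Tz d)^[t] x + 3 ^ od d t x * (H * z) = (Tz d)^[t] x + H * (3 ^ od d t x * z) by ring, hf]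
    have h1 := mn_push1 (g₀ := fun y => f (od d t y + 0) ((Tz d)^[t] y))
      (g₁ := fun y => f (od d t y + 1) ((Tz d)^[t] y)) hd (Nat.mul_pos (Nat.two_pow_pos t) hH)
      (cop2' (j := t) hc3) (hper 1)
    simp only [add_zero] at h1
    have h2 := mn_push hd hH hc3 t f hf
    have h3 := mn_push hd hH hc3 t (fun i => f (i + 1)) (fun i => hf _)
    rw [bin_succ, ← h2, ← h3, ← h1, pow_succ]
    have e : 2 ^ t * 2 * H = 2 * (2 ^ t * H) := by ring
    rw [e]
    congr 1
    funext x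
    rw [od_succ', Function.iterate_succ_apply]
    rcases Int.emod_two_eq_zero_or_one x with h | h
    · rw [if_pos h, h]; simp
    · rw [if_neg (by omega), h]; simp

/-- a class mod `3^m` and a class mod `2^a` -/
theorem card_two (a m : ℕ) {A : ℝ} (hA : 0 ≤ A) (b r : ℤ) :
    |(((cl A (2 * A) m 1 b).filter (fun x => (2 : ℤ) ^ a ∣ x - r)).card : ℝ) - A / 3 ^ m / 2 ^ a| ≤ 1 := by
  obtain ⟨c, hc⟩ := crt a m (g := 1) odd_one (u := 1) isCoprime_one_left r b
  have e : (cl A (2 * A) m 1 b).filter (fun x => (2 : ℤ) ^ a ∣ x - r) = ap A (2 * A) (2 ^ a * 3 ^ m) c := by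
    ext x
    rw [mem_filter, mem_cl, mem_ap, ← hc x, one_mul]
    tauto
  rw [e]
  have h1 := ap_card_le (by linarith : A ≤ 2 * A) (q := 2 ^ a * 3 ^ m) (by positivity) c
  have h2 := le_ap_card A (2 * A) (q := 2 ^ a * 3 ^ m) (by positivity) c
  rw [show 2 * A - A = A by ring] at h1 h2
  push_cast at h1 h2
  have e2 : A / (2 ^ a * 3 ^ m) = A / 3 ^ m / 2 ^ a := by rw [div_div, mul_comm]
  rw [e2] at h1 h2
  rw [abs_le]
  constructor <;> linarith

/-- sums of periodic functions over a class mod `3^m` -/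
theorem cl_per {F : ℤ → ℝ} (hF1 : ∀ x, |F x| ≤ 1) (a : ℕ) (hper : ∀ x z, F (x + 2 ^ a * z) = F x) {A : ℝ}
    (hA : 0 ≤ A) (m : ℕ) (b : ℤ) :
    |∑ x ∈ cl A (2 * A) m 1 b, F x - A / 3 ^ m * mn F (2 ^ a)| ≤ 2 ^ a := by
  have h2z : (0 : ℤ) < 2 ^ a := by positivity
  have hmap : ∀ n ∈ cl A (2 * A) m 1 b, (n % 2 ^ a).toNat ∈ range (2 ^ a) := by
    intro n _
    have h1 := Int.emod_nonneg n h2z.ne'
    have h2 := Int.emod_lt_of_pos n h2z
    rw [mem_range]
    have h3 : (((n % 2 ^ a).toNat : ℕ) : ℤ) < ((2 ^ a : ℕ) : ℤ) := by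
      rw [Int.toNat_of_nonneg h1]; push_cast; exact h2
    exact_mod_cast h3
  have hfib : ∑ x ∈ cl A (2 * A) m 1 b, F x
      = ∑ r ∈ range (2 ^ a), (((cl A (2 * A) m 1 b).filter (fun x => (2 : ℤ) ^ a ∣ x - r)).card : ℝ) * F r := by
    rw [← sum_fiberwise_of_maps_to hmap]
    apply sum_congr rfl
    intro r hr
    rw [mem_range] at hr
    have hset : (cl A (2 * A) m 1 b).filter (fun n => (n % 2 ^ a).toNat = r)
        = (cl A (2 * A) m 1 b).filter (fun x => (2 : ℤ) ^ a ∣ x - r) := by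
      apply filter_congr
      intro x _
      have h1 := Int.emod_nonneg x h2z.ne'
      have hr' : (r : ℤ) < 2 ^ a := by exact_mod_cast hr
      constructor
      · intro h
        have h5 : (r : ℤ) = x % 2 ^ a := by rw [← h, Int.toNat_of_nonneg h1]
        rw [h5]; exact Int.dvd_self_sub_emod
      · intro h
        have h6 : x % 2 ^ a = (r : ℤ) % 2 ^ a := (Int.modEq_iff_dvd.2 h).symm
        rw [Int.emod_eq_of_lt (by positivity) hr'] at h6
        rw [h6, Int.toNat_natCast]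
    rw [hset]
    have h1 : ∀ x ∈ (cl A (2 * A) m 1 b).filter (fun x => (2 : ℤ) ^ a ∣ x - r), F x = F r := by
      intro x hx
      rw [mem_filter] at hx
      obtain ⟨z, hz⟩ := hx.2
      have : x = r + 2 ^ a * z := by linarith
      rw [this, hper]
    rw [sum_congr rfl h1, sum_const, nsmul_eq_mul]
  have hmn : A / 3 ^ m * mn F (2 ^ a) = ∑ r ∈ range (2 ^ a), A / 3 ^ m / 2 ^ a * F r := by
    unfold mn
    rw [← mul_sum]
    push_cast
    ring
  rw [hfib, hmn, ← sum_sub_distrib]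
  refine (abs_sum_le_sum_abs _ _).trans ?_
  calc ∑ r ∈ range (2 ^ a), |(((cl A (2 * A) m 1 b).filter (fun x => (2 : ℤ) ^ a ∣ x - r)).card : ℝ) * F r
        - A / 3 ^ m / 2 ^ a * F r| ≤ ∑ _r ∈ range (2 ^ a), (1 : ℝ) := by
        apply sum_le_sum
        intro r _
        rw [← sub_mul, abs_mul]
        have h1 := card_two a m hA b r
        have h2 := hF1 r
        calc _ ≤ (1 : ℝ) * 1 := mul_le_mul h1 h2 (abs_nonneg _) zero_le_one
          _ = 1 := one_mul 1
    _ = 2 ^ a := by simp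

end Pool.Agent.W5h47.TV
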