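import Pool.Agent.W5h47.TV.C

/-! The law of the iterates in total variation, part D: the stationary density modulo `3^m`. -/

set_option autoImplicit false

namespace Pool.Agent.W5h47.TV

open Pool.Agent.H320R2.PD Finset Filter Topology
open Pool.Agent.H499R2.CO (Tz)
open Pool.Agent.R344.SP
open Pool.Agent.W5h47.SL

/-- the indicator of the class of `r` modulo `3^m` -/
noncomputable def ind (m : ℕ) (r : ℤ) (y : ℤ) : ℝ := if (3 : ℤ) ^ m ∣ y - r then 1 else 0

/-- the proportion of the residues modulo `2^s` with at least `m` odd terms among the first `s` and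
with the `s`-th iterate in the class of `r` modulo `3^m` -/
noncomputable def hit (d : ℤ) (m : ℕ) (r : ℤ) (s : ℕ) : ℝ := mn (FD d (ind m r) m s) (2 ^ s)

theorem ind_nonneg (m : ℕ) (r y : ℤ) : 0 ≤ ind m r y := by unfold ind; split_ifs <;> norm_num

theorem ind_le (m : ℕ) (r y : ℤ) : ind m r y ≤ 1 := by unfold ind; split_ifs <;> norm_num

theorem ind_abs (m : ℕ) (r y : ℤ) : |ind m r y| ≤ 1 := by
  rw [abs_of_nonneg (ind_nonneg m r y)]; exact ind_le m r y

theorem ind_per (m : ℕ) (r x z : ℤ) : ind m r (x + 3 ^ m * z) = ind m r x := by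
  unfold ind
  have : (3 : ℤ) ^ m ∣ x + 3 ^ m * z - r ↔ (3 : ℤ) ^ m ∣ x - r := by
    rw [show x + 3 ^ m * z - r = (x - r) + 3 ^ m * z by ring]
    exact (Int.dvd_add_left (dvd_mul_right _ _))
  simp only [this]

/-- a function with period `3^m` is a combination of indicators -/
theorem eq_sum_ind {m : ℕ} {g : ℤ → ℝ} (hg : ∀ x z, g (x + 3 ^ m * z) = g x) (y : ℤ) :
    g y = ∑ r ∈ range (3 ^ m), g (r : ℕ) * ind m (r : ℕ) y := by
  have h3z : (0 : ℤ) < 3 ^ m := by positivity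
  have h1 := Int.emod_nonneg y h3z.ne'
  have h2 := Int.emod_lt_of_pos y h3z
  have hc : (((y % 3 ^ m).toNat : ℕ) : ℤ) = y % 3 ^ m := Int.toNat_of_nonneg h1
  rw [sum_eq_single (y % 3 ^ m).toNat]
  · rw [hc]
    have e1 : ind m (y % 3 ^ m) y = 1 := by
      unfold ind; rw [if_pos Int.dvd_self_sub_emod]
    rw [e1, mul_one]
    have e2 := hg (y % 3 ^ m) (y / 3 ^ m)
    rw [Int.emod_add_mul_ediv] at e2
    exact e2
  · intro r hr hne
    rw [mem_range] at hr
    have e1 : ind m (r : ℕ) y = 0 := by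
      unfold ind
      rw [if_neg]
      intro h
      apply hne
      have h6 : y % 3 ^ m = (r : ℤ) % 3 ^ m := (Int.modEq_iff_dvd.2 h).symm
      have hr' : (r : ℤ) < 3 ^ m := by exact_mod_cast hr
      rw [Int.emod_eq_of_lt (by positivity) hr'] at h6
      rw [h6, Int.toNat_natCast]
    rw [e1, mul_zero]
  · intro h
    exfalso
    apply h
    rw [mem_range]
    have : (((y % 3 ^ m).toNat : ℕ) : ℤ) < ((3 ^ m : ℕ) : ℤ) := by rw [hc]; push_cast; exact h2
    exact_mod_cast this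

theorem FD_per2 {d : ℤ} (hd : d % 2 = 1) {h : ℤ → ℝ} {m s : ℕ}
    (hh : ∀ x z, h (x + 3 ^ m * z) = h x) (x z : ℤ) :
    FD d h m s (x + 2 ^ s * z) = FD d h m s x := by
  have := FD_per (M := 1) (j := s) hd (h := h) (a := m) (fun x z => by push_cast; rw [mul_one]; exact hh x z) x z
  push_cast at this
  rwa [mul_one] at this

theorem mn_const (c : ℝ) {H : ℕ} (hH : 1 ≤ H) : mn (fun _ => c) H = c := by
  unfold mn
  have : (H : ℝ) ≠ 0 := by
    have : (0 : ℝ) < H := by exact_mod_cast hH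
    exact this.ne'
  rw [sum_const, card_range, nsmul_eq_mul]
  field_simp

theorem mn_abs_sub {F G h : ℤ → ℝ} (H : ℕ) (hle : ∀ x, |F x - G x| ≤ h x) : |mn F H - mn G H| ≤ mn h H := by
  unfold mn
  rw [← sub_div, ← sum_sub_distrib, abs_div, abs_of_nonneg (by positivity : (0 : ℝ) ≤ H)]
  apply div_le_div_of_nonneg_right _ (by positivity)
  exact (abs_sum_le_sum_abs _ _).trans (sum_le_sum fun i _ => hle _)

theorem low_per {d : ℤ} (hd : d % 2 = 1) (m s : ℕ) (x z : ℤ) :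
    (fun y => if od d s y < m then (1 : ℝ) else 0) (x + (2 ^ s : ℕ) * z)
      = (fun y => if od d s y < m then (1 : ℝ) else 0) x := by
  dsimp only
  push_cast
  rw [od_shift_d hd]

theorem cop2s (s : ℕ) : Nat.Coprime 3 (2 ^ s) := (by norm_num : Nat.Coprime 3 2).pow_right s

/-- the defects of the approximations of the stationary law -/
theorem FD_close {d : ℤ} (hd : d % 2 = 1) {h : ℤ → ℝ} (h1 : ∀ x, |h x| ≤ 1) {m : ℕ}
    (hh : ∀ x z, h (x + 3 ^ m * z) = h x) (n s : ℕ) :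
    |mn (FD d h m (n + s)) (2 ^ (n + s)) - mn (FD d h m s) (2 ^ s)| ≤ dlD d m s := by
  have hp1 := mn_push hd (H := 2 ^ s) Nat.one_le_two_pow (cop2s s) n (fun _ => FD d h m s)
    (fun _ x z => by push_cast; exact FD_per2 hd hh x z)
  rw [bin_const] at hp1
  have hp2 := mn_push hd (H := 2 ^ s) Nat.one_le_two_pow (cop2s s) n
    (fun _ => (fun y => if od d s y < m then (1 : ℝ) else 0)) (fun _ x z => low_per hd m s x z)
  rw [bin_const] at hp2
  rw [← hp1]
  change _ ≤ mn (fun y => if od d s y < m then (1 : ℝ) else 0) (2 ^ s)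
  rw [← hp2, ← pow_add]
  apply mn_abs_sub
  intro x
  unfold FD
  have hod := od_add d n s x
  rcases Nat.lt_or_ge (od d s ((Tz d)^[n] x)) m with hlt | hge
  · rw [if_pos hlt, if_neg (by omega : ¬ m ≤ od d s ((Tz d)^[n] x)), sub_zero]
    split_ifs
    · exact h1 _
    · simp
  · rw [if_neg (by omega : ¬ od d s ((Tz d)^[n] x) < m), if_pos hge, if_pos (by omega)]
    rw [← Function.iterate_add_apply, add_comm s n, sub_self, abs_zero]

theorem hit_close {d : ℤ} (hd : d % 2 = 1) (m : ℕ) (r : ℤ) (n s : ℕ) :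
    |hit d m r (n + s) - hit d m r s| ≤ dlD d m s :=
  FD_close hd (ind_abs m r) (ind_per m r) n s

theorem hit_cauchy {d : ℤ} (hd : d % 2 = 1) (m : ℕ) (r : ℤ) : CauchySeq (hit d m r) := by
  rw [Metric.cauchySeq_iff']
  intro ε hε
  obtain ⟨j₀, hj₀⟩ := Filter.eventually_atTop.1 ((dlD_tendsto hd m).eventually (gt_mem_nhds hε))
  refine ⟨j₀, fun n hn => ?_⟩
  obtain ⟨k, rfl⟩ : ∃ k, n = k + j₀ := ⟨n - j₀, by omega⟩
  rw [Real.dist_eq]
  exact lt_of_le_of_lt (hit_close hd m r k j₀) (hj₀ j₀ le_rfl)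

/-- the stationary probability of the class of `r` modulo `3^m` -/
noncomputable def den (d : ℤ) (m : ℕ) (r : ℤ) : ℝ := limUnder atTop (hit d m r)

theorem den_tendsto {d : ℤ} (hd : d % 2 = 1) (m : ℕ) (r : ℤ) :
    Tendsto (hit d m r) atTop (𝓝 (den d m r)) :=
  (hit_cauchy hd m r).tendsto_limUnder

theorem den_close {d : ℤ} (hd : d % 2 = 1) (m : ℕ) (r : ℤ) (s : ℕ) :
    |den d m r - hit d m r s| ≤ dlD d m s := by
  have h1 : Tendsto (fun n => |hit d m r (n + s) - hit d m r s|) atTop (𝓝 |den d m r - hit d m r s|) := by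
    have h2 : Tendsto (fun n => hit d m r (n + s)) atTop (𝓝 (den d m r)) :=
      (den_tendsto hd m r).comp (tendsto_add_atTop_nat s)
    exact (h2.sub_const _).abs
  exact le_of_tendsto' h1 fun n => hit_close hd m r n s

theorem hit_nonneg (d : ℤ) (m : ℕ) (r : ℤ) (s : ℕ) : 0 ≤ hit d m r s := by
  unfold hit mn
  apply div_nonneg _ (by positivity)
  apply sum_nonneg
  intro i _
  unfold FD
  split_ifs
  · exact ind_nonneg _ _ _
  · exact le_rfl

theorem den_nonneg {d : ℤ} (hd : d % 2 = 1) (m : ℕ) (r : ℤ) : 0 ≤ den d m r :=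
  ge_of_tendsto' (den_tendsto hd m r) fun s => hit_nonneg d m r s

theorem den_per (d : ℤ) (m : ℕ) (x z : ℤ) : den d m (x + 3 ^ m * z) = den d m x := by
  unfold den
  congr 1
  funext s
  unfold hit
  congr 2
  funext y
  unfold ind
  have : (3 : ℤ) ^ m ∣ y - (x + 3 ^ m * z) ↔ (3 : ℤ) ^ m ∣ y - x := by
    rw [show y - (x + 3 ^ m * z) = (y - x) + 3 ^ m * (-z) by ring]
    exact (Int.dvd_add_left (dvd_mul_right _ _))
  simp only [this]

/-- the approximate stationary mean of a function with period `3^m` -/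
theorem FD_sum (d : ℤ) {m : ℕ} {g : ℤ → ℝ} (hg : ∀ x z, g (x + 3 ^ m * z) = g x) (s : ℕ) :
    mn (FD d g m s) (2 ^ s) = ∑ r ∈ range (3 ^ m), hit d m (r : ℕ) s * g (r : ℕ) := by
  unfold hit mn
  have e : ∀ i : ℤ, FD d g m s i = ∑ r ∈ range (3 ^ m), FD d (ind m (r : ℕ)) m s i * g (r : ℕ) := by
    intro i
    unfold FD
    split_ifs
    · rw [eq_sum_ind hg]
      apply sum_congr rfl
      intro r _
      ring
    · simp
  simp only [e]
  rw [sum_comm, sum_div]
  apply sum_congr rfl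
  intro r _
  rw [← sum_mul]
  ring

theorem den_sum {d : ℤ} (hd : d % 2 = 1) (m : ℕ) : ∑ r ∈ range (3 ^ m), den d m (r : ℕ) = 1 := by
  have h1 : Tendsto (fun s => ∑ r ∈ range (3 ^ m), hit d m (r : ℕ) s) atTop
      (𝓝 (∑ r ∈ range (3 ^ m), den d m (r : ℕ))) :=
    tendsto_finsetSum _ fun r _ => den_tendsto hd m r
  have h2 : ∀ s, ∑ r ∈ range (3 ^ m), hit d m (r : ℕ) s = 1 - dlD d m s := by
    intro s
    have h3 := FD_sum d (m := m) (g := fun _ => 1) (fun _ _ => rfl) s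
    simp only [mul_one] at h3
    rw [← h3]
    unfold dlD mn
    have h4 : ∑ i ∈ range (2 ^ s), FD d (fun _ => (1 : ℝ)) m s (i : ℤ)
        = ∑ i ∈ range (2 ^ s), (1 - (if od d s (i : ℤ) < m then (1 : ℝ) else 0)) := by
      apply sum_congr rfl
      intro i _
      unfold FD
      rcases Nat.lt_or_ge (od d s (i : ℤ)) m with hlt | hge
      · rw [if_neg (by omega), if_pos hlt]; norm_num
      · rw [if_pos hge, if_neg (by omega)]; norm_num
    rw [h4, sum_sub_distrib, sum_const, card_range, nsmul_eq_mul, sub_div]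
    congr 1
    push_cast
    field_simp
  have h3 : Tendsto (fun s => ∑ r ∈ range (3 ^ m), hit d m (r : ℕ) s) atTop (𝓝 1) := by
    simp only [h2]
    have := (dlD_tendsto hd m).const_sub 1
    rwa [sub_zero] at this
  exact tendsto_nhds_unique h1 h3

theorem FD_den {d : ℤ} (hd : d % 2 = 1) {m : ℕ} {g : ℤ → ℝ} {c : ℝ} (hg1 : ∀ x, |g x| ≤ c)
    (hg : ∀ x z, g (x + 3 ^ m * z) = g x) (s : ℕ) :
    |mn (FD d g m s) (2 ^ s) - ∑ r ∈ range (3 ^ m), den d m (r : ℕ) * g (r : ℕ)| ≤ c * (3 ^ m * dlD d m s) := by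
  rw [FD_sum d hg s, ← sum_sub_distrib]
  refine (abs_sum_le_sum_abs _ _).trans ?_
  calc ∑ r ∈ range (3 ^ m), |hit d m (r : ℕ) s * g (r : ℕ) - den d m (r : ℕ) * g (r : ℕ)|
      ≤ ∑ _r ∈ range (3 ^ m), dlD d m s * c := by
        apply sum_le_sum
        intro r _
        rw [← sub_mul, abs_mul, abs_sub_comm]
        exact mul_le_mul (den_close hd m r s) (hg1 _) (abs_nonneg _) (dlD_nonneg d m s)
    _ = _ := by rw [sum_const, card_range, nsmul_eq_mul]; push_cast; ring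

/-- the function which controls `g (od t x) (T^t x)` -/
noncomputable def gf (d : ℤ) (g : ℕ → ℤ → ℝ) (m s : ℕ) (i : ℕ) (z : ℤ) : ℝ :=
  if m ≤ od d s z then g (i + od d s z) ((Tz d)^[s] z) else 0

theorem gf_per {d : ℤ} (hd : d % 2 = 1) {g : ℕ → ℤ → ℝ} {m : ℕ} (hg : ∀ j x z, g j (x + 3 ^ m * z) = g j x)
    (s i : ℕ) (x z : ℤ) : gf d g m s i (x + 2 ^ s * z) = gf d g m s i x := by
  unfold gf
  rw [od_shift_d hd, iter_shift_d hd]
  split_ifs with h2
  · obtain ⟨e, he⟩ := Nat.exists_eq_add_of_le h2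
    rw [he, pow_add, show (Tz d)^[s] x + 3 ^ m * 3 ^ e * z = (Tz d)^[s] x + 3 ^ m * (3 ^ e * z) by ring, hg]
  · rfl

/-- the mean of a graded function with period `3^m` along the `t`-th iterates -/
theorem gf_mean {d : ℤ} (hd : d % 2 = 1) {g : ℕ → ℤ → ℝ} {m : ℕ} (hg1 : ∀ j x, |g j x| ≤ 1)
    (hg : ∀ j x z, g j (x + 3 ^ m * z) = g j x) (n s : ℕ) :
    |mn (fun x => gf d g m s (od d n x) ((Tz d)^[n] x)) (2 ^ (n + s))
      - bin (s + n) (fun j => ∑ r ∈ range (3 ^ m), den d m (r : ℕ) * g j (r : ℕ))|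
      ≤ 2 * (s * (2 / Real.sqrt (n + 1))) + 3 ^ m * dlD d m s := by
  have hp := mn_push hd (H := 2 ^ s) Nat.one_le_two_pow (cop2s s) n (gf d g m s)
    (fun i x z => by push_cast; exact gf_per hd hg s i x z)
  rw [← pow_add] at hp
  rw [hp]
  set W : ℝ := 2 * (s * (2 / Real.sqrt (n + 1))) with hW
  have hW0 : 0 ≤ W := by rw [hW]; positivity
  -- each starting residue
  have h1 : ∀ z : ℕ, |bin n (fun i => gf d g m s i z) - bin (s + n) (fun j => FD d (g j) m s z)| ≤ W := by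
    intro z
    unfold gf FD
    by_cases h : m ≤ od d s (z : ℤ)
    · simp only [if_pos h]
      exact bin_far n s (od d s z) (od_le d s z) (F := fun j => g j ((Tz d)^[s] z)) (fun j => hg1 j _)
    · simp only [if_neg h]
      rw [bin_const, bin_const, sub_self, abs_zero]
      exact hW0
  have h2 : bin n (fun i => mn (gf d g m s i) (2 ^ s))
      = (∑ z ∈ range (2 ^ s), bin n (fun i => gf d g m s i z)) / ((2 ^ s : ℕ) : ℝ) := by
    unfold mn
    have e : (fun i => (∑ z ∈ range (2 ^ s), gf d g m s i (z : ℤ)) / ((2 ^ s : ℕ) : ℝ))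
        = fun i => (((2 ^ s : ℕ) : ℝ))⁻¹ * ∑ z ∈ range (2 ^ s), gf d g m s i (z : ℤ) := by
      funext i; rw [div_eq_inv_mul]
    rw [e, bin_mul, bin_sum, div_eq_inv_mul]
  have h3 : bin (s + n) (fun j => mn (FD d (g j) m s) (2 ^ s))
      = (∑ z ∈ range (2 ^ s), bin (s + n) (fun j => FD d (g j) m s z)) / ((2 ^ s : ℕ) : ℝ) := by
    unfold mn
    have e : (fun j => (∑ z ∈ range (2 ^ s), FD d (g j) m s (z : ℤ)) / ((2 ^ s : ℕ) : ℝ))
        = fun j => (((2 ^ s : ℕ) : ℝ))⁻¹ * ∑ z ∈ range (2 ^ s), FD d (g j) m s (z : ℤ) := by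
      funext i; rw [div_eq_inv_mul]
    rw [e, bin_mul, bin_sum (range (2 ^ s)) (fun z j => FD d (g j) m s (z : ℤ)), div_eq_inv_mul]
  have h4 : |bin n (fun i => mn (gf d g m s i) (2 ^ s)) - bin (s + n) (fun j => mn (FD d (g j) m s) (2 ^ s))|
      ≤ W := by
    rw [h2, h3, ← sub_div, ← sum_sub_distrib, abs_div, abs_of_nonneg (by positivity : (0 : ℝ) ≤ ((2 ^ s : ℕ) : ℝ)),
      div_le_iff₀ (by positivity)]
    refine (abs_sum_le_sum_abs _ _).trans ((sum_le_sum fun z _ => h1 z).trans (le_of_eq ?_))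
    rw [sum_const, card_range, nsmul_eq_mul]
    ring
  have h5 : |bin (s + n) (fun j => mn (FD d (g j) m s) (2 ^ s))
      - bin (s + n) (fun j => ∑ r ∈ range (3 ^ m), den d m (r : ℕ) * g j (r : ℕ))| ≤ 3 ^ m * dlD d m s := by
    rw [← bin_sub]
    apply bin_abs_const
    intro j _
    have := FD_den hd (hg1 j) (hg j) s
    rwa [one_mul] at this
  have a1 := abs_le.1 h4
  have a2 := abs_le.1 h5
  rw [abs_le]
  constructor <;> linarith [a1.1, a1.2, a2.1, a2.2]

end Pool.Agent.W5h47.TV
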