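import Pool.Agent.W5h47.TV.D

/-! The law of the iterates in total variation, part E: one stage. -/

set_option autoImplicit false

namespace Pool.Agent.W5h47.TV

open Pool.Agent.H320R2.PD Finset Filter Topology
open Pool.Agent.H499R2.CO (Tz)
open Pool.Agent.H499R2.ND (mem_win ap mem_ap ap_card_le le_ap_card crt)
open Pool.Agent.R344.SP
open Pool.Agent.W5h47.SL

/-- the stationary density modulo `3^m` -/
noncomputable def rho (d : ℤ) (m : ℕ) (y : ℤ) : ℝ := 3 ^ m * den d m y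

/-- the average over the window `[L,2L)` with the stationary density -/
noncomputable def av (d : ℤ) (m : ℕ) (L : ℝ) (g : ℤ → ℝ) : ℝ := (∑ y ∈ Wn L, rho d m y * g y) / L

/-- the law of `(od t x, T^t x)` -/
def Law (d : ℤ) (m t : ℕ) (η Y : ℝ) : Prop :=
  ∀ A, Y ≤ A → ∀ b : ℤ, ∀ G : ℕ → ℤ → ℝ, (∀ j x, |G j x| ≤ 1) →
    |∑ x ∈ cl A (2 * A) m 1 b, G (od d t x) ((Tz d)^[t] x)
      - A / 3 ^ m * bin t (fun j => av d m (A * 3 ^ j / 2 ^ t) (G j))| ≤ η * (A / 3 ^ m)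

/-- the average over a class in a window -/
noncomputable def ca (m : ℕ) (L : ℝ) (g : ℤ → ℝ) (x : ℤ) : ℝ := 3 ^ m / L * ∑ y ∈ cl L (2 * L) m 1 x, g y

theorem cl_congr (m : ℕ) (L L' : ℝ) {x y : ℤ} (h : (3 : ℤ) ^ m ∣ x - y) : cl L L' m 1 x = cl L L' m 1 y := by
  ext z
  rw [mem_cl, mem_cl]
  have : (3 : ℤ) ^ m ∣ 1 * z - x ↔ (3 : ℤ) ^ m ∣ 1 * z - y := by
    rw [show 1 * z - y = (1 * z - x) + (x - y) by ring]
    exact (Int.dvd_add_left h).symm
  rw [this]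

theorem ca_congr (m : ℕ) (L : ℝ) (g : ℤ → ℝ) {x y : ℤ} (h : (3 : ℤ) ^ m ∣ x - y) : ca m L g x = ca m L g y := by
  unfold ca
  rw [cl_congr m L (2 * L) h]

theorem ca_per (m : ℕ) (L : ℝ) (g : ℤ → ℝ) (x z : ℤ) : ca m L g (x + 3 ^ m * z) = ca m L g x :=
  ca_congr m L g ⟨z, by ring⟩

theorem cl_card {m : ℕ} {L : ℝ} (hL : 0 ≤ L) (b : ℤ) : |((cl L (2 * L) m 1 b).card : ℝ) - L / 3 ^ m| ≤ 1 := by
  have := card_two 0 m hL b 0
  have e : (cl L (2 * L) m 1 b).filter (fun x => (2 : ℤ) ^ 0 ∣ x - 0) = cl L (2 * L) m 1 b := by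
    apply filter_true_of_mem
    intro x _
    simp
  rw [e, pow_zero, div_one] at this
  exact this

theorem sum_abs_le_card {g : ℤ → ℝ} (hg : ∀ x, |g x| ≤ 1) (S : Finset ℤ) : |∑ x ∈ S, g x| ≤ S.card := by
  refine (abs_sum_le_sum_abs _ _).trans ?_
  calc ∑ x ∈ S, |g x| ≤ ∑ _x ∈ S, (1 : ℝ) := sum_le_sum fun x _ => hg x
    _ = S.card := by simp

theorem ca_abs {m : ℕ} {L : ℝ} (hL : (3 : ℝ) ^ m ≤ L) {g : ℤ → ℝ} (hg : ∀ x, |g x| ≤ 1) (x : ℤ) :
    |ca m L g x| ≤ 2 := by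
  have h3 : (0 : ℝ) < 3 ^ m := by positivity
  have hL0 : 0 < L := h3.trans_le hL
  unfold ca
  rw [abs_mul, abs_of_pos (by positivity)]
  have h1 := sum_abs_le_card hg (cl L (2 * L) m 1 x)
  have h2 := (abs_le.1 (cl_card (m := m) hL0.le x)).2
  calc 3 ^ m / L * |∑ y ∈ cl L (2 * L) m 1 x, g y| ≤ 3 ^ m / L * (L / 3 ^ m + 1) := by
        apply mul_le_mul_of_nonneg_left _ (by positivity)
        linarith
    _ = 1 + 3 ^ m / L := by field_simp
    _ ≤ 2 := by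
        have : 3 ^ m / L ≤ 1 := (div_le_one hL0).2 hL
        linarith

theorem ca_sum {m : ℕ} {L : ℝ} (hL : (3 : ℝ) ^ m ≤ L) {g : ℤ → ℝ} (hg : ∀ x, |g x| ≤ 1) (b : ℤ) :
    |∑ y ∈ cl L (2 * L) m 1 b, (g y - ca m L g y)| ≤ 2 := by
  have h3 : (0 : ℝ) < 3 ^ m := by positivity
  have hL0 : 0 < L := h3.trans_le hL
  set S := ∑ y ∈ cl L (2 * L) m 1 b, g y with hS
  set N : ℝ := ((cl L (2 * L) m 1 b).card : ℝ) with hN
  have hN0 : 0 ≤ N := by rw [hN]; positivity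
  have h1 : ∑ y ∈ cl L (2 * L) m 1 b, ca m L g y = N * (3 ^ m / L * S) := by
    have : ∀ y ∈ cl L (2 * L) m 1 b, ca m L g y = 3 ^ m / L * S := by
      intro y hy
      rw [mem_cl, one_mul] at hy
      rw [ca_congr m L g hy.2]
      rfl
    rw [sum_congr rfl this, sum_const, nsmul_eq_mul]
  rw [sum_sub_distrib, h1]
  have h2 : S - N * (3 ^ m / L * S) = S * (3 ^ m / L) * (L / 3 ^ m - N) := by
    field_simp
  rw [h2, abs_mul, abs_mul, abs_of_pos (by positivity : 0 < 3 ^ m / L)]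
  have h4 : |S| ≤ N := sum_abs_le_card hg _
  have h5 := cl_card (m := m) hL0.le b
  rw [abs_sub_comm] at h5
  have h6 := (abs_le.1 h5).1
  calc |S| * (3 ^ m / L) * |L / 3 ^ m - N| ≤ (L / 3 ^ m + 1) * (3 ^ m / L) * 1 := by
        apply mul_le_mul _ h5 (abs_nonneg _) (by positivity)
        apply mul_le_mul_of_nonneg_right _ (by positivity)
        linarith
    _ = 1 + 3 ^ m / L := by field_simp
    _ ≤ 2 := by
        have : 3 ^ m / L ≤ 1 := (div_le_one hL0).2 hL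
        linarith

/-- a window is the union of the classes -/
theorem Wn_classes (m : ℕ) (L : ℝ) (F : ℤ → ℝ) :
    ∑ y ∈ Wn L, F y = ∑ r ∈ range (3 ^ m), ∑ y ∈ cl L (2 * L) m 1 (r : ℕ), F y := by
  have h3z : (0 : ℤ) < 3 ^ m := by positivity
  have hmap : ∀ n ∈ Wn L, (n % 3 ^ m).toNat ∈ range (3 ^ m) := by
    intro n _
    have h1 := Int.emod_nonneg n h3z.ne'
    have h2 := Int.emod_lt_of_pos n h3z
    rw [mem_range]
    have h3 : (((n % 3 ^ m).toNat : ℕ) : ℤ) < ((3 ^ m : ℕ) : ℤ) := by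
      rw [Int.toNat_of_nonneg h1]; push_cast; exact h2
    exact_mod_cast h3
  rw [← sum_fiberwise_of_maps_to hmap]
  apply sum_congr rfl
  intro r hr
  rw [mem_range] at hr
  apply sum_congr _ (fun _ _ => rfl)
  ext x
  rw [mem_filter, mem_Wn, mem_cl, one_mul]
  have h1 := Int.emod_nonneg x h3z.ne'
  have hr' : (r : ℤ) < 3 ^ m := by exact_mod_cast hr
  have : (x % 3 ^ m).toNat = r ↔ (3 : ℤ) ^ m ∣ x - r := by
    constructor
    · intro h
      have h5 : (r : ℤ) = x % 3 ^ m := by rw [← h, Int.toNat_of_nonneg h1]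
      rw [h5]; exact Int.dvd_self_sub_emod
    · intro h
      have h6 : x % 3 ^ m = (r : ℤ) % 3 ^ m := (Int.modEq_iff_dvd.2 h).symm
      rw [Int.emod_eq_of_lt (by positivity) hr'] at h6
      rw [h6, Int.toNat_natCast]
  rw [this]

theorem den_congr (d : ℤ) (m : ℕ) {x y : ℤ} (h : (3 : ℤ) ^ m ∣ x - y) : den d m x = den d m y := by
  obtain ⟨z, hz⟩ := h
  have : x = y + 3 ^ m * z := by linarith
  rw [this, den_per]

theorem av_eq (d : ℤ) (m : ℕ) (L : ℝ) (g : ℤ → ℝ) :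
    av d m L g = ∑ r ∈ range (3 ^ m), den d m (r : ℕ) * ca m L g (r : ℕ) := by
  unfold av ca rho
  rw [Wn_classes m L, sum_div]
  apply sum_congr rfl
  intro r _
  have : ∀ y ∈ cl L (2 * L) m 1 (r : ℕ), 3 ^ m * den d m y * g y = 3 ^ m * den d m (r : ℕ) * g y := by
    intro y hy
    rw [mem_cl, one_mul] at hy
    rw [den_congr d m hy.2]
  rw [sum_congr rfl this, ← mul_sum]
  ring

/-- ONE GOOD STAGE -/
theorem good_law {d : ℤ} (hd : d % 2 = 1) (hd3 : IsCoprime d 3) (m : ℕ) {η : ℝ} (hη : 0 < η) :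
    ∃ t₀ : ℕ, ∀ t : ℕ, t₀ ≤ t → DhC m m t ≤ η / 12 → Law d m t η (4 ^ t) := by
  classical
  have h3m : (0 : ℝ) < 3 ^ m := by positivity
  have h3m1 : (1 : ℝ) ≤ 3 ^ m := one_le_pow₀ (by norm_num)
  set e : ℝ := η / 34 with he
  have he0 : 0 < e := by positivity
  obtain ⟨s, hs⟩ : ∃ s : ℕ, dlD d m s ≤ e / 3 ^ m := by
    have h1 := (dlD_tendsto hd m).eventually (gt_mem_nhds (show (0 : ℝ) < e / 3 ^ m by positivity))
    obtain ⟨s, hs⟩ := h1.exists
    exact ⟨s, hs.le⟩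
  have hs2 : 3 ^ m * dlD d m s ≤ e := by
    rw [le_div_iff₀ h3m] at hs
    linarith
  have hs1 : dlD d m s ≤ e := by
    have := dlD_nonneg d m s
    nlinarith
  obtain ⟨t₁, ht₁⟩ : ∃ t₁ : ℕ, ∀ n : ℕ, t₁ ≤ n → 2 * (s * (2 / Real.sqrt (n + 1))) ≤ e := by
    have h1 : Tendsto (fun n : ℕ => 2 * ((s : ℝ) * (2 / Real.sqrt ((n : ℝ) + 1)))) atTop (𝓝 0) := by
      have h2 : Tendsto (fun n : ℕ => Real.sqrt ((n : ℝ) + 1)) atTop atTop :=
        Real.tendsto_sqrt_atTop.comp (tendsto_atTop_add_const_right _ _ tendsto_natCast_atTop_atTop)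
      have h3 : Tendsto (fun n : ℕ => 2 / Real.sqrt ((n : ℝ) + 1)) atTop (𝓝 0) :=
        h2.const_div_atTop 2
      have h4 := (h3.const_mul (s : ℝ)).const_mul (2 : ℝ)
      simpa using h4
    obtain ⟨t₁, h⟩ := Filter.eventually_atTop.1 (h1.eventually (gt_mem_nhds he0))
    exact ⟨t₁, fun n hn => (h n hn).le⟩
  obtain ⟨t₂, ht₂⟩ : ∃ t₂ : ℕ, ∀ t ≥ t₂, (2 * |(d : ℝ)| + 3) * 2 * 3 ^ m / e + 3 ^ m + 3 ^ m / e ≤ 2 ^ t := by
    have h := tendsto_pow_atTop_atTop_of_one_lt (show (1 : ℝ) < 2 by norm_num)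
    have h1 := h.eventually_ge_atTop ((2 * |(d : ℝ)| + 3) * 2 * 3 ^ m / e + 3 ^ m + 3 ^ m / e)
    obtain ⟨t₂, ht₂⟩ := Filter.eventually_atTop.1 h1
    exact ⟨t₂, fun s hs => ht₂ s hs⟩
  refine ⟨s + t₁ + t₂, fun t ht hDh A hA b G hG => ?_⟩
  obtain ⟨n, rfl⟩ : ∃ n, t = n + s := ⟨t - s, by omega⟩
  have hn := ht₁ n (by omega)
  set t := n + s with ht'
  have h2t' := ht₂ t (by omega)
  have h2t : (0 : ℝ) < 2 ^ t := by positivity
  have p1 : 0 ≤ (2 * |(d : ℝ)| + 3) * 2 * 3 ^ m / e := by positivity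
  have p2 : 0 ≤ 3 ^ m / e := by positivity
  have hA0 : 0 < A := lt_of_lt_of_le (by positivity) hA
  have h22 : (4 : ℝ) ^ t = 2 ^ t * 2 ^ t := by rw [← mul_pow]; norm_num
  set L : ℕ → ℝ := fun j => A * 3 ^ j / 2 ^ t with hLdef
  have hL2 : ∀ j, 2 ^ t ≤ L j := by
    intro j
    rw [hLdef]; dsimp only
    rw [le_div_iff₀ h2t, ← h22]
    have : (1 : ℝ) ≤ 3 ^ j := one_le_pow₀ (by norm_num)
    nlinarith
  have hL0 : ∀ j, 0 < L j := fun j => h2t.trans_le (hL2 j)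
  have hL3 : ∀ j, (3 : ℝ) ^ m ≤ L j := fun j => le_trans (by linarith) (hL2 j)
  have hLe : ∀ j, 1 ≤ e * L j / 3 ^ m := by
    intro j
    rw [le_div_iff₀ h3m, one_mul]
    have h5 : 3 ^ m / e ≤ L j := le_trans (by linarith) (hL2 j)
    rw [div_le_iff₀ he0] at h5
    linarith
  set x0 : ℝ := A / 3 ^ m with hx0
  have hx0p : 0 < x0 := by positivity
  have h2A : 2 ^ t ≤ x0 := by
    rw [hx0, le_div_iff₀ h3m]
    have h5 : (3 : ℝ) ^ m ≤ 2 ^ t := by linarith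
    calc (2 : ℝ) ^ t * 3 ^ m ≤ 2 ^ t * 2 ^ t := mul_le_mul_of_nonneg_left h5 h2t.le
      _ ≤ A := by rw [← h22]; exact hA
  have hbig : (2 * |(d : ℝ)| + 3) * 2 ^ (t + 1) ≤ e * x0 := by
    have h5 : (2 * |(d : ℝ)| + 3) * 2 * 3 ^ m / e ≤ 2 ^ t := by linarith
    have h6 : (2 * |(d : ℝ)| + 3) * 2 * 3 ^ m / e * 2 ^ t ≤ A := by
      calc _ ≤ (2 : ℝ) ^ t * 2 ^ t := mul_le_mul_of_nonneg_right h5 h2t.le
        _ ≤ A := by rw [← h22]; exact hA
    have h7 : (2 * |(d : ℝ)| + 3) * 2 ^ (t + 1)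
        = e * ((2 * |(d : ℝ)| + 3) * 2 * 3 ^ m / e * 2 ^ t / 3 ^ m) := by
      rw [pow_succ]; field_simp
    rw [h7, hx0]
    apply mul_le_mul_of_nonneg_left _ he0.le
    exact div_le_div_of_nonneg_right h6 h3m.le
  have h2small : 2 * 2 ^ t ≤ e * x0 := by
    refine le_trans ?_ hbig
    rw [pow_succ]
    have := abs_nonneg (d : ℝ)
    nlinarith
  -- the class averages
  set g : ℕ → ℤ → ℝ := fun j => ca m (L j) (G j) with hg
  have hg2 : ∀ j x, |g j x| ≤ 2 := fun j x => ca_abs (hL3 j) (hG j) x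
  have hgper : ∀ j x z, g j (x + 3 ^ m * z) = g j x := fun j x z => ca_per m (L j) (G j) x z
  -- first part
  have hfirst : |∑ x ∈ cl A (2 * A) m 1 b, (G (od d t x) ((Tz d)^[t] x) - g (od d t x) ((Tz d)^[t] x))|
      ≤ 3 * (2 * e * x0 + 2 * x0 * DhC m m t + e * x0) := by
    have h1 := all_mainG (c := t) hd hd3 m m (Ψ := fun j y => (G j y - g j y) / 3) (δ := e) (fun j x => by
      rw [abs_div, abs_of_pos (by norm_num : (0 : ℝ) < 3), div_le_one (by norm_num)]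
      exact (abs_sub _ _).trans (by linarith [hG j x, hg2 j x])) he0.le t le_rfl hA0.le isCoprime_one_left b
      (by
        intro j b'
        rw [← sum_div, abs_div, abs_of_pos (by norm_num : (0 : ℝ) < 3), div_le_iff₀ (by norm_num)]
        have h2 := ca_sum (hL3 j) (hG j) b'
        have h3 := hLe j
        refine h2.trans ?_
        change 2 ≤ e * L j / 3 ^ m * 3
        linarith)
    rw [← sum_div, abs_div, abs_of_pos (by norm_num : (0 : ℝ) < 3), div_le_iff₀ (by norm_num)] at h1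
    refine h1.trans ?_
    have hD0 := DhC_nonneg m m t
    have e1 : (A / 3 ^ m + 2 ^ t) * DgC t m m t ≤ 2 * x0 * DhC m m t := by
      change (x0 + 2 ^ t) * DhC m m t ≤ _
      apply mul_le_mul_of_nonneg_right _ hD0
      linarith
    have e2 : 2 * e * A / 3 ^ m = 2 * e * x0 := by rw [hx0]; ring
    rw [e2]
    linarith
  -- second part
  set h : ℕ → ℤ → ℝ := fun j x => g j x / 2 with hh
  have hh1 : ∀ j x, |h j x| ≤ 1 := by
    intro j x
    rw [hh]; dsimp only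
    rw [abs_div, abs_two, div_le_one (by norm_num)]
    exact hg2 j x
  have hhper : ∀ j x z, h j (x + 3 ^ m * z) = h j x := by
    intro j x z
    rw [hh]; dsimp only
    rw [hgper]
  set F1 : ℤ → ℝ := fun x => gf d h m s (od d n x) ((Tz d)^[n] x) with hF1
  set F2 : ℤ → ℝ := fun x => if od d s ((Tz d)^[n] x) < m then 1 else 0 with hF2
  have hshift : ∀ x z : ℤ, (Tz d)^[n] (x + 2 ^ t * z) = (Tz d)^[n] x + 2 ^ s * (3 ^ od d n x * z) := by
    intro x z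
    rw [ht', pow_add, mul_assoc, iter_shift_d hd]
    ring
  have hF1per : ∀ x z, F1 (x + 2 ^ t * z) = F1 x := by
    intro x z
    rw [hF1]; dsimp only
    rw [hshift, gf_per hd hhper]
    congr 1
    rw [ht', pow_add, mul_assoc, od_shift_d hd]
  have hF2per : ∀ x z, F2 (x + 2 ^ t * z) = F2 x := by
    intro x z
    rw [hF2]; dsimp only
    rw [hshift, od_shift_d hd]
  have hF11 : ∀ x, |F1 x| ≤ 1 := by
    intro x
    rw [hF1]; dsimp only
    unfold gf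
    split_ifs
    · exact hh1 _ _
    · simp
  have hF21 : ∀ x, |F2 x| ≤ 1 := by
    intro x
    rw [hF2]; dsimp only
    split_ifs <;> simp
  have c1 := cl_per hF11 t hF1per hA0.le m b
  have c2 := cl_per hF21 t hF2per hA0.le m b
  have hmn2 : mn F2 (2 ^ t) = dlD d m s := by
    have hp2 := mn_push hd (H := 2 ^ s) Nat.one_le_two_pow (cop2s s) n
      (fun _ => (fun y => if od d s y < m then (1 : ℝ) else 0)) (fun _ x z => low_per hd m s x z)
    rw [bin_const, ← pow_add] at hp2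
    exact hp2
  have c3 := gf_mean hd hh1 hhper n s
  have hdiff : |∑ x ∈ cl A (2 * A) m 1 b, h (od d t x) ((Tz d)^[t] x) - ∑ x ∈ cl A (2 * A) m 1 b, F1 x|
      ≤ ∑ x ∈ cl A (2 * A) m 1 b, F2 x := by
    rw [← sum_sub_distrib]
    refine (abs_sum_le_sum_abs _ _).trans (sum_le_sum fun x _ => ?_)
    rw [hF1, hF2]; dsimp only
    have hod := od_add d n s x
    have hit : (Tz d)^[t] x = (Tz d)^[s] ((Tz d)^[n] x) := by
      rw [ht', add_comm n s, Function.iterate_add_apply]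
    unfold gf
    rcases Nat.lt_or_ge (od d s ((Tz d)^[n] x)) m with hlt | hge
    · rw [if_neg (by omega : ¬ m ≤ od d s ((Tz d)^[n] x)), if_pos hlt, sub_zero]
      exact hh1 _ _
    · rw [if_pos hge, if_neg (by omega : ¬ od d s ((Tz d)^[n] x) < m), hit, ht', hod, sub_self, abs_zero]
  rw [hmn2] at c2
  have hmainh : |∑ x ∈ cl A (2 * A) m 1 b, h (od d t x) ((Tz d)^[t] x)
      - x0 * bin (s + n) (fun j => ∑ r ∈ range (3 ^ m), den d m (r : ℕ) * h j (r : ℕ))|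
      ≤ x0 * (e + e + e) + e * x0 := by
    have c4 : |x0 * mn F1 (2 ^ t)
        - x0 * bin (s + n) (fun j => ∑ r ∈ range (3 ^ m), den d m (r : ℕ) * h j (r : ℕ))| ≤ x0 * (e + e) := by
      rw [← mul_sub, abs_mul, abs_of_pos hx0p]
      apply mul_le_mul_of_nonneg_left _ hx0p.le
      exact c3.trans (by linarith)
    have c5 : x0 * dlD d m s ≤ x0 * e := mul_le_mul_of_nonneg_left hs1 hx0p.le
    have a1 := abs_le.1 c1
    have a2 := abs_le.1 c2
    have a3 := abs_le.1 hdiff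
    have a4 := abs_le.1 c4
    rw [← hx0] at a1 a2
    rw [abs_le]
    constructor <;> linarith [a1.1, a1.2, a2.1, a2.2, a3.1, a3.2, a4.1, a4.2]
  have hbin : bin t (fun j => av d m (L j) (G j))
      = 2 * bin (s + n) (fun j => ∑ r ∈ range (3 ^ m), den d m (r : ℕ) * h j (r : ℕ)) := by
    rw [← bin_mul, ht', add_comm n s]
    apply bin_congr
    intro j _
    rw [av_eq, mul_sum]
    apply sum_congr rfl
    intro r _
    rw [hh]; dsimp only
    ring
  have hsumh : ∑ x ∈ cl A (2 * A) m 1 b, g (od d t x) ((Tz d)^[t] x)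
      = 2 * ∑ x ∈ cl A (2 * A) m 1 b, h (od d t x) ((Tz d)^[t] x) := by
    rw [mul_sum]
    apply sum_congr rfl
    intro x _
    rw [hh]; dsimp only
    ring
  rw [sum_sub_distrib, hsumh] at hfirst
  change |_ - x0 * bin t (fun j => av d m (L j) (G j))| ≤ η * x0
  rw [hbin]
  have hD : 2 * x0 * DhC m m t ≤ 2 * x0 * (η / 12) := mul_le_mul_of_nonneg_left hDh (by positivity)
  have heη : e = η / 34 := he
  have a1 := abs_le.1 hfirst
  have a2 := abs_le.1 hmainh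
  have hex : e * x0 = η * x0 / 34 := by rw [heη]; ring
  rw [abs_le]
  constructor <;> linarith [a1.1, a1.2, a2.1, a2.2]

end Pool.Agent.W5h47.TV
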