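import Pool.Agent.W5h47.TV.E

/-! The law of the iterates in total variation, part F: composition of stages. -/

set_option autoImplicit false

namespace Pool.Agent.W5h47.TV

open Pool.Agent.H320R2.PD Finset Filter Topology
open Pool.Agent.H499R2.CO (Tz)
open Pool.Agent.R344.SP
open Pool.Agent.W5h47.SL

theorem Law.mono {d : ℤ} {m t : ℕ} {η η' Y Y' : ℝ} (h : Law d m t η Y) (hη : η ≤ η') (hY : Y ≤ Y')
    (hY0 : 0 ≤ Y') : Law d m t η' Y' := by
  intro A hA b G hG
  refine (h A (hY.trans hA) b G hG).trans ?_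
  have h3 : (0 : ℝ) < 3 ^ m := by positivity
  have hA0 : 0 ≤ A := hY0.trans hA
  exact mul_le_mul_of_nonneg_right hη (by positivity)

theorem den_le_one {d : ℤ} (hd : d % 2 = 1) (m : ℕ) (y : ℤ) : den d m y ≤ 1 := by
  have h3z : (0 : ℤ) < 3 ^ m := by positivity
  have h1 := Int.emod_nonneg y h3z.ne'
  have h2 := Int.emod_lt_of_pos y h3z
  have hc : (((y % 3 ^ m).toNat : ℕ) : ℤ) = y % 3 ^ m := Int.toNat_of_nonneg h1
  have h3 : den d m y = den d m (((y % 3 ^ m).toNat : ℕ) : ℤ) := by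
    rw [hc]
    exact den_congr d m Int.dvd_self_sub_emod
  rw [h3, ← den_sum hd m]
  apply single_le_sum (f := fun r : ℕ => den d m (r : ℤ)) (fun i _ => den_nonneg hd m i)
  rw [mem_range]
  have : (((y % 3 ^ m).toNat : ℕ) : ℤ) < ((3 ^ m : ℕ) : ℤ) := by rw [hc]; push_cast; exact h2
  exact_mod_cast this

theorem rho_nonneg {d : ℤ} (hd : d % 2 = 1) (m : ℕ) (y : ℤ) : 0 ≤ rho d m y := by
  unfold rho
  exact mul_nonneg (by positivity) (den_nonneg hd m y)

theorem rho_le {d : ℤ} (hd : d % 2 = 1) (m : ℕ) (y : ℤ) : rho d m y ≤ 3 ^ m := by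
  unfold rho
  have := den_le_one hd m y
  exact mul_le_of_le_one_right (by positivity) this

theorem Wn_card2 {L : ℝ} (hL : 0 < L) : ((Wn L).card : ℝ) ≤ 2 * L := by
  rcases le_or_gt 1 L with h | h
  · exact (Wn_card hL.le).trans (by linarith)
  · have hsub : Wn L ⊆ {1} := by
      intro y hy
      rw [mem_Wn] at hy
      have h1 : (0 : ℝ) < y := hL.trans_le hy.1
      have h2 : (y : ℝ) < 2 := by linarith [hy.2]
      have h3 : 0 < y := by exact_mod_cast h1
      have h4 : y < 2 := by exact_mod_cast h2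
      rw [mem_singleton]; omega
    rcases le_or_gt L (1 / 2) with h5 | h5
    · have : Wn L = ∅ := by
        rw [eq_empty_iff_forall_notMem]
        intro y hy
        have h6 := hsub hy
        rw [mem_singleton] at h6
        rw [mem_Wn, h6] at hy
        push_cast at hy
        linarith [hy.2]
      rw [this]; simp; linarith
    · have : (Wn L).card ≤ 1 := (card_le_card hsub).trans (by simp)
      have : ((Wn L).card : ℝ) ≤ 1 := by exact_mod_cast this
      linarith

theorem av_abs {d : ℤ} (hd : d % 2 = 1) (m : ℕ) {L : ℝ} (hL : 0 < L) {g : ℤ → ℝ} (hg : ∀ x, |g x| ≤ 1) :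
    |av d m L g| ≤ 2 * 3 ^ m := by
  unfold av
  rw [abs_div, abs_of_pos hL, div_le_iff₀ hL]
  refine (abs_sum_le_sum_abs _ _).trans ?_
  calc ∑ y ∈ Wn L, |rho d m y * g y| ≤ ∑ _y ∈ Wn L, (3 : ℝ) ^ m := by
        apply sum_le_sum
        intro y _
        rw [abs_mul, abs_of_nonneg (rho_nonneg hd m y)]
        have := rho_le hd m y
        calc rho d m y * |g y| ≤ 3 ^ m * 1 := mul_le_mul this (hg y) (abs_nonneg _) (by positivity)
          _ = 3 ^ m := mul_one _
    _ = (Wn L).card * 3 ^ m := by rw [sum_const, nsmul_eq_mul]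
    _ ≤ 2 * L * 3 ^ m := mul_le_mul_of_nonneg_right (Wn_card2 hL) (by positivity)
    _ = _ := by ring

/-- COMPOSITION OF TWO STAGES: first `t'` steps, then `t` steps -/
theorem comp {d : ℤ} (hd : d % 2 = 1) {m : ℕ} {c₀ β ρ₀ : ℝ} (hβ : c₀ * Real.log 3 = Real.log 2 - β)
    (hρ : ∀ t : ℕ, bin t (fun j => if (j : ℝ) < c₀ * t then 1 else 0) ≤ ρ₀ ^ t) {t t' : ℕ}
    {η η' Y Y' : ℝ} (hY : 0 < Y) (hη : 0 ≤ η) (h : Law d m t η Y) (h' : Law d m t' η' Y') :
    Law d m (t' + t) (η + η' + 4 * 3 ^ m * ρ₀ ^ t') (max Y' (Y * Real.exp (β * t'))) := by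
  classical
  intro A hA b G hG
  have hA1 : Y' ≤ A := (le_max_left _ _).trans hA
  have hA2 : Y * Real.exp (β * t') ≤ A := (le_max_right _ _).trans hA
  have hA0 : 0 < A := lt_of_lt_of_le (by positivity) hA2
  have h3m : (0 : ℝ) < 3 ^ m := by positivity
  have hl3 : 0 < Real.log 3 := Real.log_pos (by norm_num)
  set G2 : ℕ → ℤ → ℝ := fun i y => G (i + od d t y) ((Tz d)^[t] y) with hG2
  have hG21 : ∀ i y, |G2 i y| ≤ 1 := fun i y => hG _ _
  have h1 := h' A hA1 b G2 hG21
  have e1 : ∑ x ∈ cl A (2 * A) m 1 b, G2 (od d t' x) ((Tz d)^[t'] x)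
      = ∑ x ∈ cl A (2 * A) m 1 b, G (od d (t' + t) x) ((Tz d)^[t' + t] x) := by
    apply sum_congr rfl
    intro x _
    rw [hG2]; dsimp only
    rw [od_add, add_comm t' t, Function.iterate_add_apply]
  rw [e1] at h1
  set L : ℕ → ℝ := fun i => A * 3 ^ i / 2 ^ t' with hL
  have hL0 : ∀ i, 0 < L i := fun i => by rw [hL]; positivity
  have h2 : ∀ i ≤ t', |av d m (L i) (G2 i) - bin t (fun j => av d m (L i * 3 ^ j / 2 ^ t) (G (i + j)))|
      ≤ η + 4 * 3 ^ m * (if (i : ℝ) < c₀ * t' then 1 else 0) := by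
    intro i _
    rcases lt_or_ge (L i) Y with hlt | hge
    · have hi : (i : ℝ) < c₀ * t' := by
        have h5 : Y * Real.exp (β * t') * 3 ^ i / 2 ^ t' < Y := by
          refine lt_of_le_of_lt ?_ hlt
          rw [hL]; dsimp only
          apply div_le_div_of_nonneg_right _ (by positivity)
          exact mul_le_mul_of_nonneg_right hA2 (by positivity)
        have h6 : Real.exp (β * t') * 3 ^ i / 2 ^ t' < 1 := by
          have : Y * Real.exp (β * t') * 3 ^ i / 2 ^ t' = Y * (Real.exp (β * t') * 3 ^ i / 2 ^ t') := by ring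
          rw [this] at h5
          exact lt_of_mul_lt_mul_left (by linarith) hY.le
        have h7 : Real.exp (β * t') * 3 ^ i / 2 ^ t' = Real.exp (β * t' + i * Real.log 3 - t' * Real.log 2) := by
          rw [Real.exp_sub, Real.exp_add, Real.exp_nat_mul, Real.exp_nat_mul, Real.exp_log (by norm_num),
            Real.exp_log (by norm_num)]
        rw [h7, Real.exp_lt_one_iff] at h6
        have h8 : (i : ℝ) * Real.log 3 < c₀ * t' * Real.log 3 := by
          have : c₀ * t' * Real.log 3 = (c₀ * Real.log 3) * t' := by ring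
          rw [this, hβ]
          linarith
        exact lt_of_mul_lt_mul_right h8 hl3.le
      rw [if_pos hi, mul_one]
      have a1 := av_abs hd m (hL0 i) (hG21 i)
      have a2 : |bin t (fun j => av d m (L i * 3 ^ j / 2 ^ t) (G (i + j)))| ≤ 2 * 3 ^ m := by
        apply bin_abs_const
        intro j _
        exact av_abs hd m (by have := hL0 i; positivity) (hG _)
      refine (abs_sub _ _).trans ?_
      linarith
    · have a3 : |av d m (L i) (G2 i) - bin t (fun j => av d m (L i * 3 ^ j / 2 ^ t) (G (i + j)))| ≤ η := by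
        set B := bin t (fun j => av d m (L i * 3 ^ j / 2 ^ t) (G (i + j))) with hB
        have hLi := hL0 i
        have a4 : ∀ r : ℤ, |ca m (L i) (G2 i) r - B| ≤ η := by
          intro r
          have a5 := h (L i) hge r (fun j => G (i + j)) (fun j x => hG _ _)
          rw [← hB] at a5
          have e2 : ca m (L i) (G2 i) r - B = 3 ^ m / L i * (∑ y ∈ cl (L i) (2 * L i) m 1 r, G2 i y
              - L i / 3 ^ m * B) := by
            unfold ca
            field_simp
          rw [e2, abs_mul, abs_of_pos (by positivity)]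
          calc 3 ^ m / L i * |∑ y ∈ cl (L i) (2 * L i) m 1 r, G2 i y - L i / 3 ^ m * B|
              ≤ 3 ^ m / L i * (η * (L i / 3 ^ m)) := mul_le_mul_of_nonneg_left a5 (by positivity)
            _ = η := by field_simp
        rw [av_eq]
        have e3 : ∑ r ∈ range (3 ^ m), den d m (r : ℕ) * ca m (L i) (G2 i) (r : ℕ) - B
            = ∑ r ∈ range (3 ^ m), den d m (r : ℕ) * (ca m (L i) (G2 i) (r : ℕ) - B) := by
          simp only [mul_sub]
          rw [sum_sub_distrib, ← sum_mul, den_sum hd, one_mul]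
        rw [e3]
        refine (abs_sum_le_sum_abs _ _).trans ?_
        calc ∑ r ∈ range (3 ^ m), |den d m (r : ℕ) * (ca m (L i) (G2 i) (r : ℕ) - B)|
            ≤ ∑ r ∈ range (3 ^ m), den d m (r : ℕ) * η := by
              apply sum_le_sum
              intro r _
              rw [abs_mul, abs_of_nonneg (den_nonneg hd m _)]
              exact mul_le_mul_of_nonneg_left (a4 _) (den_nonneg hd m _)
          _ = η := by rw [← sum_mul, den_sum hd, one_mul]
      refine a3.trans ?_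
      have : (0 : ℝ) ≤ 4 * 3 ^ m * (if (i : ℝ) < c₀ * t' then 1 else 0) := by
        split_ifs <;> positivity
      linarith
  have h3 : |bin t' (fun i => av d m (L i) (G2 i))
      - bin t' (fun i => bin t (fun j => av d m (L i * 3 ^ j / 2 ^ t) (G (i + j))))|
      ≤ η + 4 * 3 ^ m * ρ₀ ^ t' := by
    rw [← bin_sub]
    refine (bin_abs t' h2).trans ?_
    rw [bin_add, bin_const, bin_mul]
    have := mul_le_mul_of_nonneg_left (hρ t') (show (0 : ℝ) ≤ 4 * 3 ^ m by positivity)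
    linarith
  have h4 : bin t' (fun i => bin t (fun j => av d m (L i * 3 ^ j / 2 ^ t) (G (i + j))))
      = bin (t' + t) (fun J => av d m (A * 3 ^ J / 2 ^ (t' + t)) (G J)) := by
    rw [bin_comp]
    congr 1
    funext i
    congr 1
    funext j
    congr 1
    rw [hL]; dsimp only
    rw [pow_add, pow_add]
    field_simp
  rw [h4] at h3
  have hx0 : 0 < A / 3 ^ m := by positivity
  have h5 : |A / 3 ^ m * bin t' (fun i => av d m (L i) (G2 i))
      - A / 3 ^ m * bin (t' + t) (fun J => av d m (A * 3 ^ J / 2 ^ (t' + t)) (G J))|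
      ≤ A / 3 ^ m * (η + 4 * 3 ^ m * ρ₀ ^ t') := by
    rw [← mul_sub, abs_mul, abs_of_pos hx0]
    exact mul_le_mul_of_nonneg_left h3 hx0.le
  have b1 := abs_le.1 h1
  have b2 := abs_le.1 h5
  have e6 : (η + η' + 4 * 3 ^ m * ρ₀ ^ t') * (A / 3 ^ m)
      = η' * (A / 3 ^ m) + A / 3 ^ m * (η + 4 * 3 ^ m * ρ₀ ^ t') := by ring
  rw [e6, abs_le]
  constructor <;> linarith [b1.1, b1.2, b2.1, b2.2]

/-- EVERY LARGE TIME -/
theorem any_law {d : ℤ} (hd : d % 2 = 1) (hd3 : IsCoprime d 3) {β : ℝ}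
    (hβ : Real.log 2 - Real.log 3 / 2 < β) (hβ4 : β ≤ Real.log 4) {η : ℝ} (hη : 0 < η) :
    ∃ m₀ : ℕ, ∀ m ≥ m₀, ∃ t₁ : ℕ, ∀ t : ℕ, t₁ ≤ t → Law d m t (3 * η) (4 ^ t) := by
  have hl3 : 0 < Real.log 3 := Real.log_pos (by norm_num)
  set c₀ : ℝ := (Real.log 2 - β) / Real.log 3 with hc₀
  have hc₀lt : c₀ < 1 / 2 := by
    rw [hc₀, div_lt_iff₀ hl3]; linarith
  have hβc : c₀ * Real.log 3 = Real.log 2 - β := by rw [hc₀]; field_simp
  obtain ⟨ρ₀, hρ0, hρ1, hρ⟩ := bin_tail hc₀lt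
  obtain ⟨m₀, _, hm⟩ := rareM (η := η / 12) (θ := 1 / 8) (by positivity) (by norm_num)
  refine ⟨m₀, fun m hmm => ?_⟩
  obtain ⟨t₁, ht₁⟩ := two_good (hm m hmm m)
  obtain ⟨s₀, hs₀⟩ := good_law hd hd3 m hη
  have h3m : (0 : ℝ) < 3 ^ m := by positivity
  obtain ⟨s₁, hs₁⟩ : ∃ s₁ : ℕ, ∀ s ≥ s₁, 4 * 3 ^ m * ρ₀ ^ s ≤ η := by
    have h := tendsto_pow_atTop_nhds_zero_of_lt_one hρ0.le hρ1
    have h1 := (h.const_mul (4 * 3 ^ m)).eventually (gt_mem_nhds (show (4 * 3 ^ m) * (0 : ℝ) < η by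
      rw [mul_zero]; exact hη))
    obtain ⟨s₁, hs₁⟩ := Filter.eventually_atTop.1 h1
    exact ⟨s₁, fun s hs => (hs₁ s hs).le⟩
  refine ⟨max t₁ (8 * (s₀ + s₁)), fun t ht => ?_⟩
  obtain ⟨s, s', hss, h8, h8', hsU, hsU'⟩ := ht₁ t (le_trans (le_max_left _ _) ht)
  have hts : 8 * (s₀ + s₁) ≤ t := le_trans (le_max_right _ _) ht
  have hg : DhC m m s ≤ η / 12 := not_lt.1 hsU
  have hg' : DhC m m s' ≤ η / 12 := not_lt.1 hsU'
  have h1 := hs₀ s (by omega) hg
  have h2 := hs₀ s' (by omega) hg'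
  have h3 := comp hd hβc hρ (by positivity) hη.le h1 h2
  rw [show s' + s = t by omega] at h3
  refine h3.mono ?_ ?_ (by positivity)
  · have := hs₁ s' (by omega)
    linarith
  · have h4t : (4 : ℝ) ^ t = 4 ^ s * 4 ^ s' := by rw [← pow_add, hss]
    have hs4 : (1 : ℝ) ≤ 4 ^ s := one_le_pow₀ (by norm_num)
    have hexp' : Real.exp (β * s') ≤ 4 ^ s' := by
      calc Real.exp (β * s') ≤ Real.exp (s' * Real.log 4) := by
            apply Real.exp_le_exp.2
            rw [mul_comm]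
            exact mul_le_mul_of_nonneg_left hβ4 (by positivity)
        _ = 4 ^ s' := by rw [Real.exp_nat_mul, Real.exp_log (by norm_num)]
    rw [h4t]
    apply max_le
    · exact le_mul_of_one_le_left (by positivity) hs4
    · exact mul_le_mul_of_nonneg_left hexp' (by positivity)

/-- many stages -/
theorem chainL {d : ℤ} (hd : d % 2 = 1) {m : ℕ} {c₀ β ρ₀ : ℝ} (hβ : c₀ * Real.log 3 = Real.log 2 - β)
    (hβ0 : 0 ≤ β)
    (hρ : ∀ t : ℕ, bin t (fun j => if (j : ℝ) < c₀ * t then 1 else 0) ≤ ρ₀ ^ t) {η : ℝ} (hη : 0 < η)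
    {t₁ : ℕ} (hst : ∀ t : ℕ, t₁ ≤ t → Law d m t (3 * η) (4 ^ t) ∧ 4 * 3 ^ m * ρ₀ ^ t ≤ η)
    {T : ℕ} (hT : t₁ ≤ T) {Y : ℝ} (hY : 4 ^ (T + 1) ≤ Y) : ∀ (r k : ℕ), (r + 1) * T ≤ k →
    k ≤ (r + 1) * (T + 1) → Law d m k (4 * (r + 1) * η) (Y * Real.exp (β * k)) := by
  have hY0 : 0 < Y := lt_of_lt_of_le (by positivity) hY
  intro r
  induction r with
  | zero =>
    intro k hk1 hk2
    have h1 := (hst k (by omega)).1
    refine h1.mono ?_ ?_ (by positivity)
    · push_cast; linarith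
    · calc (4 : ℝ) ^ k ≤ 4 ^ (T + 1) := pow_le_pow_right₀ (by norm_num) (by omega)
        _ ≤ Y := hY
        _ ≤ Y * Real.exp (β * k) := le_mul_of_one_le_right hY0.le (Real.one_le_exp (by positivity))
  | succ r ih =>
    intro k hk1 hk2
    obtain ⟨t, ht1, ht2, htk, h1, h2⟩ : ∃ t, T ≤ t ∧ t ≤ T + 1 ∧ t ≤ k ∧ (r + 1) * T ≤ k - t ∧
        k - t ≤ (r + 1) * (T + 1) := by
      have e1 : (r + 1 + 1) * T = (r + 1) * T + T := by ring
      have e2 : (r + 1 + 1) * (T + 1) = (r + 1) * (T + 1) + (T + 1) := by ring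
      rcases Nat.lt_or_ge k ((r + 1) * T + T + 1) with h | h
      · refine ⟨T, le_rfl, by omega, by omega, by omega, ?_⟩
        have : (r + 1) * T ≤ (r + 1) * (T + 1) := Nat.mul_le_mul_left _ (by omega)
        omega
      · exact ⟨T + 1, by omega, le_rfl, by omega, by omega, by omega⟩
    have hih := ih (k - t) h1 h2
    obtain ⟨g1, g2⟩ := hst t (hT.trans ht1)
    have h3 := comp hd hβ hρ (by positivity) (by positivity) hih g1
    rw [Nat.add_sub_cancel' htk] at h3
    refine h3.mono ?_ ?_ (by positivity)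
    · push_cast; linarith
    · have e2 : Y * Real.exp (β * (k - t : ℕ)) * Real.exp (β * t) = Y * Real.exp (β * k) := by
        rw [mul_assoc, ← Real.exp_add, ← mul_add, Nat.cast_sub htk]
        congr 3
        ring
      rw [e2]
      apply max_le _ le_rfl
      calc (4 : ℝ) ^ t ≤ 4 ^ (T + 1) := pow_le_pow_right₀ (by norm_num) ht2
        _ ≤ Y := hY
        _ ≤ Y * Real.exp (β * k) := le_mul_of_one_le_right hY0.le (Real.one_le_exp (by positivity))

/-- the law in a window -/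
theorem Law.window {d : ℤ} {m t : ℕ} {η Y : ℝ} (h : Law d m t η Y) {A : ℝ} (hA : Y ≤ A)
    {G : ℕ → ℤ → ℝ} (hG : ∀ j x, |G j x| ≤ 1) :
    |∑ x ∈ Wn A, G (od d t x) ((Tz d)^[t] x) - A * bin t (fun j => av d m (A * 3 ^ j / 2 ^ t) (G j))|
      ≤ η * A := by
  have h3m : (0 : ℝ) < 3 ^ m := by positivity
  rw [Wn_classes m A (fun x => G (od d t x) ((Tz d)^[t] x))]
  set B := bin t (fun j => av d m (A * 3 ^ j / 2 ^ t) (G j)) with hB
  have e1 : A * B = ∑ _r ∈ range (3 ^ m), A / 3 ^ m * B := by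
    rw [sum_const, card_range, nsmul_eq_mul]
    push_cast
    field_simp
  rw [e1, ← sum_sub_distrib]
  refine (abs_sum_le_sum_abs _ _).trans ?_
  calc ∑ r ∈ range (3 ^ m), |∑ y ∈ cl A (2 * A) m 1 (r : ℕ), G (od d t y) ((Tz d)^[t] y) - A / 3 ^ m * B|
      ≤ ∑ _r ∈ range (3 ^ m), η * (A / 3 ^ m) := sum_le_sum fun r _ => h A hA r G hG
    _ = η * A := by
        rw [sum_const, card_range, nsmul_eq_mul]
        push_cast
        field_simp

end Pool.Agent.W5h47.TV
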