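import Pool.Agent.W5h47.TV.F

/-! The law of the iterates in total variation, part G: the main theorem. -/

set_option autoImplicit false

namespace Pool.Agent.W5h47.TV

open Pool.Agent.H320R2.PD Finset Filter Topology
open Pool.Agent.H499R2.CO (Tz)
open Pool.Agent.R344.SP
open Pool.Agent.W5h47.SL

theorem ico_split {L : ℝ} (hL : 0 < L) (f : ℤ → ℝ) :
    ∑ x ∈ Ico 1 ⌈L⌉, f x = ∑ x ∈ Ico 1 ⌈L / 2⌉, f x + ∑ x ∈ Wn (L / 2), f x := by
  have h5 : ⌈L / 2⌉ ≤ ⌈L⌉ := Int.ceil_le_ceil (by linarith)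
  have h6 : (1 : ℤ) ≤ ⌈L / 2⌉ := Int.one_le_ceil_iff.2 (by linarith)
  have hun : Ico 1 ⌈L⌉ = Ico 1 ⌈L / 2⌉ ∪ Wn (L / 2) := by
    unfold Wn
    rw [show 2 * (L / 2) = L by ring, Finset.Ico_union_Ico_eq_Ico h6 h5]
  have hdis : Disjoint (Ico 1 ⌈L / 2⌉) (Wn (L / 2)) := by
    rw [Finset.disjoint_left]
    intro x hx hx'
    unfold Wn at hx'
    rw [mem_Ico] at hx hx'
    omega
  rw [hun, sum_union hdis]

theorem ico_card {L : ℝ} (hL : 0 < L) : ((Ico (1 : ℤ) ⌈L⌉).card : ℝ) ≤ L := by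
  rw [Int.card_Ico]
  have h2 : (0 : ℤ) ≤ ⌈L⌉ - 1 := by
    have : (1 : ℤ) ≤ ⌈L⌉ := Int.one_le_ceil_iff.2 hL
    omega
  have h3 : (((⌈L⌉ - 1).toNat : ℤ) : ℝ) = ((⌈L⌉ - 1 : ℤ) : ℝ) := by rw [Int.toNat_of_nonneg h2]
  have h4 : (((⌈L⌉ - 1).toNat : ℕ) : ℝ) = ((⌈L⌉ - 1 : ℤ) : ℝ) := by exact_mod_cast h3
  rw [h4]
  push_cast
  linarith [Int.ceil_lt_add_one L]

/-- the model -/
noncomputable def Mod (d : ℤ) (m k : ℕ) (G : ℕ → ℤ → ℝ) (X : ℝ) : ℝ :=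
  bin k (fun J => 2 ^ k / 3 ^ J * ∑ y ∈ Ico 1 ⌈X * 3 ^ J / 2 ^ k⌉, rho d m y * G J y)

theorem Mod_abs {d : ℤ} (hd : d % 2 = 1) (m k : ℕ) {G : ℕ → ℤ → ℝ} (hG : ∀ j x, |G j x| ≤ 1) {X : ℝ}
    (hX : 0 < X) : |Mod d m k G X| ≤ 3 ^ m * X := by
  unfold Mod
  apply bin_abs_const
  intro J _
  have hL : 0 < X * 3 ^ J / 2 ^ k := by positivity
  rw [abs_mul, abs_of_pos (by positivity)]
  have h1 : |∑ y ∈ Ico 1 ⌈X * 3 ^ J / 2 ^ k⌉, rho d m y * G J y| ≤ X * 3 ^ J / 2 ^ k * 3 ^ m := by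
    refine (abs_sum_le_sum_abs _ _).trans ?_
    calc ∑ y ∈ Ico 1 ⌈X * 3 ^ J / 2 ^ k⌉, |rho d m y * G J y|
        ≤ ∑ _y ∈ Ico 1 ⌈X * 3 ^ J / 2 ^ k⌉, (3 : ℝ) ^ m := by
          apply sum_le_sum
          intro y _
          rw [abs_mul, abs_of_nonneg (rho_nonneg hd m y)]
          calc rho d m y * |G J y| ≤ 3 ^ m * 1 := mul_le_mul (rho_le hd m y) (hG _ _) (abs_nonneg _) (by positivity)
            _ = 3 ^ m := mul_one _
      _ = ((Ico 1 ⌈X * 3 ^ J / 2 ^ k⌉).card : ℝ) * 3 ^ m := by rw [sum_const, nsmul_eq_mul]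
      _ ≤ _ := mul_le_mul_of_nonneg_right (ico_card hL) (by positivity)
  calc 2 ^ k / 3 ^ J * |∑ y ∈ Ico 1 ⌈X * 3 ^ J / 2 ^ k⌉, rho d m y * G J y|
      ≤ 2 ^ k / 3 ^ J * (X * 3 ^ J / 2 ^ k * 3 ^ m) := mul_le_mul_of_nonneg_left h1 (by positivity)
    _ = 3 ^ m * X := by field_simp

theorem Mod_split (d : ℤ) (m k : ℕ) (G : ℕ → ℤ → ℝ) {X : ℝ} (hX : 0 < X) :
    Mod d m k G X = Mod d m k G (X / 2) + X / 2 * bin k (fun j => av d m (X / 2 * 3 ^ j / 2 ^ k) (G j)) := by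
  unfold Mod
  rw [← bin_mul, ← bin_add]
  congr 1
  funext J
  have hL : 0 < X * 3 ^ J / 2 ^ k := by positivity
  have e1 : X * 3 ^ J / 2 ^ k / 2 = X / 2 * 3 ^ J / 2 ^ k := by ring
  rw [ico_split hL, e1, mul_add]
  congr 1
  unfold av
  field_simp

theorem from_win2 {d : ℤ} (hd : d % 2 = 1) (m k : ℕ) {G : ℕ → ℤ → ℝ} (hG : ∀ j x, |G j x| ≤ 1) {D : ℝ}
    (hD : 0 ≤ D) : ∀ (I : ℕ) (X : ℝ), 0 < X →
    (∀ i < I, |∑ x ∈ Wn (X / 2 ^ (i + 1)), G (od d k x) ((Tz d)^[k] x)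
      - X / 2 ^ (i + 1) * bin k (fun j => av d m (X / 2 ^ (i + 1) * 3 ^ j / 2 ^ k) (G j))|
      ≤ D * (X / 2 ^ (i + 1))) →
    |∑ x ∈ Ico 1 ⌈X⌉, G (od d k x) ((Tz d)^[k] x) - Mod d m k G X| ≤ D * X + (1 + 3 ^ m) * X / 2 ^ I := by
  intro I
  induction I with
  | zero =>
    intro X hX _
    have h1 : |∑ x ∈ Ico 1 ⌈X⌉, G (od d k x) ((Tz d)^[k] x)| ≤ X := by
      refine (abs_sum_le_sum_abs _ _).trans ?_
      calc ∑ x ∈ Ico 1 ⌈X⌉, |G (od d k x) ((Tz d)^[k] x)| ≤ ∑ _x ∈ Ico 1 ⌈X⌉, (1 : ℝ) :=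
            sum_le_sum fun x _ => hG _ _
        _ = ((Ico 1 ⌈X⌉).card : ℝ) := by simp
        _ ≤ X := ico_card hX
    have h2 := Mod_abs hd m k hG hX
    have h3 : 0 ≤ D * X := by positivity
    rw [pow_zero, div_one]
    refine (abs_sub _ _).trans ?_
    linarith
  | succ I ih =>
    intro X hX h
    have h3 := ih (X / 2) (by positivity) (by
      intro i hi
      have h4 := h (i + 1) (by omega)
      have e : X / 2 ^ (i + 1 + 1) = X / 2 / 2 ^ (i + 1) := by rw [pow_succ 2 (i + 1)]; field_simp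
      rwa [e] at h4)
    have h4 := h 0 (by omega)
    rw [zero_add, pow_one] at h4
    rw [ico_split hX, Mod_split d m k G hX]
    have b1 := abs_le.1 h3
    have b2 := abs_le.1 h4
    have e2 : (1 + 3 ^ m) * X / 2 ^ (I + 1) = (1 + 3 ^ m) * (X / 2) / 2 ^ I := by
      rw [pow_succ 2 I]; field_simp
    rw [e2, abs_le]
    constructor <;> linarith [b1.1, b1.2, b2.1, b2.2]

/-- THE MAIN THEOREM, one sign -/
theorem coreTV {d : ℤ} (hd : d % 2 = 1) (hd3 : IsCoprime d 3) {κ : ℝ} (hκ0 : 0 < κ)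
    (hκ : κ * (Real.log 2 - Real.log 3 / 2) < 1) {ε : ℝ} (hε : 0 < ε) :
    ∃ m₀ : ℕ, ∀ m ≥ m₀, ∃ K₀ N₀ : ℕ, ∀ X : ℝ, (N₀ : ℝ) ≤ X → ∀ k : ℕ, K₀ ≤ k → (k : ℝ) ≤ κ * Real.log X →
      ∀ G : ℕ → ℤ → ℝ, (∀ j x, |G j x| ≤ 1) →
        |∑ x ∈ Ico 1 ⌈X⌉, G (od d k x) ((Tz d)^[k] x) - Mod d m k G X| ≤ ε * X := by
  have hl2 : 0 < Real.log 2 := Real.log_pos (by norm_num)
  have hl3 : 0 < Real.log 3 := Real.log_pos (by norm_num)
  have hl4 : 0 < Real.log 4 := Real.log_pos (by norm_num)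
  have hl42 : Real.log 4 = 2 * Real.log 2 := by
    rw [show (4 : ℝ) = 2 ^ 2 by norm_num, Real.log_pow]; push_cast; ring
  have hb0 : 0 < Real.log 2 - Real.log 3 / 2 := by
    have : Real.log 3 < 2 * Real.log 2 := by
      have h := Real.log_lt_log (by norm_num) (by norm_num : (3 : ℝ) < 2 ^ 2)
      rw [Real.log_pow] at h
      push_cast at h
      exact h
    linarith
  obtain ⟨β, hβ, hκβ, hβ4⟩ : ∃ β : ℝ, Real.log 2 - Real.log 3 / 2 < β ∧ κ * β < 1 ∧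
      β ≤ Real.log 4 := by
    refine ⟨min (((Real.log 2 - Real.log 3 / 2) + 1 / κ) / 2) (Real.log 4), ?_, ?_, min_le_right _ _⟩
    · apply lt_min
      · have : Real.log 2 - Real.log 3 / 2 < 1 / κ := by rw [lt_div_iff₀ hκ0]; linarith
        linarith
      · linarith
    · have h1 : κ * min (((Real.log 2 - Real.log 3 / 2) + 1 / κ) / 2) (Real.log 4)
          ≤ κ * (((Real.log 2 - Real.log 3 / 2) + 1 / κ) / 2) :=
        mul_le_mul_of_nonneg_left (min_le_left _ _) hκ0.le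
      have : κ * (((Real.log 2 - Real.log 3 / 2) + 1 / κ) / 2)
          = (κ * (Real.log 2 - Real.log 3 / 2) + 1) / 2 := by field_simp
      rw [this] at h1; linarith
  have hβ0 : 0 < β := hb0.trans hβ
  have h1κβ : 0 < 1 - κ * β := by linarith
  set c₀ : ℝ := (Real.log 2 - β) / Real.log 3 with hc₀
  have hc₀lt : c₀ < 1 / 2 := by
    rw [hc₀, div_lt_iff₀ hl3]; linarith
  have hβc : c₀ * Real.log 3 = Real.log 2 - β := by rw [hc₀]; field_simp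
  obtain ⟨ρ₀, hρ0, hρ1, hρ⟩ := bin_tail hc₀lt
  -- the number of blocks
  obtain ⟨r, hr⟩ := exists_nat_ge (2 * (κ * Real.log 4) / (1 - κ * β))
  have p1 : 0 ≤ 2 * (κ * Real.log 4) / (1 - κ * β) := by positivity
  set R : ℝ := (r : ℝ) + 1 with hR
  have hR0 : (0 : ℝ) < R := by rw [hR]; positivity
  have hrκ : κ * Real.log 4 / R ≤ (1 - κ * β) / 2 := by
    have h1 : 2 * (κ * Real.log 4) / (1 - κ * β) ≤ R := by linarith
    rw [div_le_iff₀ h1κβ] at h1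
    rw [div_le_iff₀ hR0]
    linarith
  set η : ℝ := ε / (8 * R) with hηdef
  have hη0 : 0 < η := by positivity
  obtain ⟨m₀, hm₀⟩ := any_law hd hd3 hβ hβ4 hη0
  refine ⟨m₀, fun m hm => ?_⟩
  obtain ⟨t₁, ht₁⟩ := hm₀ m hm
  have h3m : (0 : ℝ) < 3 ^ m := by positivity
  obtain ⟨s₁, hs₁⟩ : ∃ s₁ : ℕ, ∀ s ≥ s₁, 4 * 3 ^ m * ρ₀ ^ s ≤ η := by
    have h := tendsto_pow_atTop_nhds_zero_of_lt_one hρ0.le hρ1
    have h1 := (h.const_mul (4 * 3 ^ m)).eventually (gt_mem_nhds (show (4 * 3 ^ m) * (0 : ℝ) < η by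
      rw [mul_zero]; exact hη0))
    obtain ⟨s₁, hs₁⟩ := Filter.eventually_atTop.1 h1
    exact ⟨s₁, fun s hs => (hs₁ s hs).le⟩
  set t₂ := max t₁ s₁ with ht₂
  have hst : ∀ t : ℕ, t₂ ≤ t → Law d m t (3 * η) (4 ^ t) ∧ 4 * 3 ^ m * ρ₀ ^ t ≤ η := fun t ht =>
    ⟨ht₁ t ((le_max_left _ _).trans ht), hs₁ t ((le_max_right _ _).trans ht)⟩
  -- remainder
  obtain ⟨I, hI⟩ : ∃ I : ℕ, (1 + 3 ^ m) / 2 ^ I ≤ ε / 2 := by
    obtain ⟨I, hI⟩ := exists_pow_lt_of_lt_one (show (0 : ℝ) < ε / 2 / (1 + 3 ^ m) by positivity)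
      (show (1 / 2 : ℝ) < 1 by norm_num)
    refine ⟨I, ?_⟩
    rw [div_pow, one_pow, lt_div_iff₀ (by positivity)] at hI
    have : (1 + 3 ^ m) / 2 ^ I = 1 / 2 ^ I * (1 + (3 : ℝ) ^ m) := by ring
    rw [this]
    exact hI.le
  -- `X` large
  have h2I : (0 : ℝ) < 2 ^ I := by positivity
  set γ : ℝ := (1 - κ * β) / 2 with hγ
  have hγ0 : 0 < γ := by rw [hγ]; positivity
  obtain ⟨N₀, hN₀⟩ : ∃ N₀ : ℕ, ∀ X : ℝ, (N₀ : ℝ) ≤ X → 1 ≤ X ∧ 4 * 2 ^ I ≤ X ^ γ := by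
    have h1 := (tendsto_rpow_atTop hγ0).eventually_ge_atTop (4 * 2 ^ I)
    obtain ⟨x₀, hx₀⟩ := Filter.eventually_atTop.1 (h1.and (Filter.eventually_ge_atTop 1))
    obtain ⟨N₀, hN₀⟩ := exists_nat_ge x₀
    exact ⟨N₀, fun X hX => ⟨(hx₀ X (hN₀.trans hX)).2, (hx₀ X (hN₀.trans hX)).1⟩⟩
  refine ⟨(r + 1) * t₂, N₀, fun X hX k hkK hk G hG => ?_⟩
  obtain ⟨hX1, hX2⟩ := hN₀ X hX
  have hX0 : (0 : ℝ) < X := by linarith
  set T := k / (r + 1) with hT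
  have hTt : t₂ ≤ T := by
    rw [hT, Nat.le_div_iff_mul_le (by omega), mul_comm]; exact hkK
  have hTk : (r + 1) * T ≤ k := Nat.mul_div_le k (r + 1)
  have hTk2 : k ≤ (r + 1) * (T + 1) := (Nat.lt_mul_div_succ k (by omega)).le
  have hlaw := chainL hd hβc hβ0.le hρ hη0 hst hTt (Y := 4 ^ (T + 1)) le_rfl r k hTk hTk2
  have hwin : ∀ i < I, |∑ x ∈ Wn (X / 2 ^ (i + 1)), G (od d k x) ((Tz d)^[k] x)
      - X / 2 ^ (i + 1) * bin k (fun j => av d m (X / 2 ^ (i + 1) * 3 ^ j / 2 ^ k) (G j))|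
      ≤ ε / 2 * (X / 2 ^ (i + 1)) := by
    intro i hi
    set A : ℝ := X / 2 ^ (i + 1) with hA
    have hAX : X / 2 ^ I ≤ A := by
      rw [hA]
      have h1 : (2 : ℝ) ^ (i + 1) ≤ 2 ^ I := pow_le_pow_right₀ (by norm_num) (by omega)
      exact div_le_div_of_nonneg_left hX0.le (by positivity) h1
    have hA0 : 0 < A := lt_of_lt_of_le (by positivity) hAX
    have h3 : 4 ^ (T + 1) * Real.exp (β * k) ≤ A := by
      refine le_trans ?_ hAX
      rw [le_div_iff₀ h2I]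
      have hlogX : 0 ≤ Real.log X := Real.log_nonneg hX1
      have e1 : (4 : ℝ) ^ (T + 1) ≤ 4 * Real.exp (Real.log 4 / R * k) := by
        have h5 : (4 : ℝ) ^ T ≤ Real.exp (Real.log 4 / R * k) := by
          have h6 : (4 : ℝ) ^ T = Real.exp (T * Real.log 4) := by
            rw [Real.exp_nat_mul, Real.exp_log (by norm_num)]
          rw [h6]
          apply Real.exp_le_exp.2
          have h7 : (T : ℝ) ≤ k / R := by
            rw [le_div_iff₀ hR0, mul_comm, hR]; exact_mod_cast hTk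
          calc (T : ℝ) * Real.log 4 ≤ k / R * Real.log 4 := mul_le_mul_of_nonneg_right h7 hl4.le
            _ = _ := by ring
        rw [pow_succ]
        linarith
      have e2 : Real.exp (Real.log 4 / R * k) * Real.exp (β * k) ≤ X ^ (1 - γ) := by
        rw [← Real.exp_add, Real.rpow_def_of_pos hX0]
        apply Real.exp_le_exp.2
        have h5 : Real.log 4 / R * k + β * k = (Real.log 4 / R + β) * k := by ring
        rw [h5]
        calc (Real.log 4 / R + β) * k ≤ (Real.log 4 / R + β) * (κ * Real.log X) :=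
              mul_le_mul_of_nonneg_left hk (by positivity)
          _ = (κ * Real.log 4 / R + κ * β) * Real.log X := by ring
          _ ≤ (1 - γ) * Real.log X := by
              apply mul_le_mul_of_nonneg_right _ hlogX
              rw [hγ]; linarith
          _ = _ := by ring
      calc 4 ^ (T + 1) * Real.exp (β * k) * 2 ^ I
          ≤ 4 * Real.exp (Real.log 4 / R * k) * Real.exp (β * k) * 2 ^ I := by
            apply mul_le_mul_of_nonneg_right _ h2I.le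
            exact mul_le_mul_of_nonneg_right e1 (Real.exp_pos _).le
        _ = (4 * 2 ^ I) * (Real.exp (Real.log 4 / R * k) * Real.exp (β * k)) := by ring
        _ ≤ X ^ γ * X ^ (1 - γ) := by
            apply mul_le_mul hX2 e2 (by positivity) (by positivity)
        _ = X := by
            rw [← Real.rpow_add hX0]
            rw [show γ + (1 - γ) = 1 by ring, Real.rpow_one]
    refine (hlaw.window h3 hG).trans ?_
    apply mul_le_mul_of_nonneg_right _ hA0.le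
    rw [hηdef]
    apply le_of_eq
    rw [← hR]
    field_simp
    norm_num
  have hfin := from_win2 hd m k hG (by positivity : 0 ≤ ε / 2) I X hX0 hwin
  refine hfin.trans ?_
  have h2 : (1 + 3 ^ m) * X / 2 ^ I ≤ ε / 2 * X := by
    calc (1 + 3 ^ m) * X / 2 ^ I = (1 + 3 ^ m) / 2 ^ I * X := by ring
      _ ≤ _ := mul_le_mul_of_nonneg_right hI hX0.le
  linarith

end Pool.Agent.W5h47.TV
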