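import Pool.Agent.W5h47.TV.G

/-! The law of the iterates in total variation, part H: both signs, natural numbers, the density. -/

set_option autoImplicit false

namespace Pool.Agent.W5h47.TV

open Pool.Agent.H320R2.PD Finset Filter Topology
open Pool.Agent.H499R2.CO (Tz)
open Pool.Agent.R344.SP
open Pool.Agent.W5h47.SL

theorem od_sgn {d s : ℤ} (hd : d % 2 = 1) (hs : s = 1 ∨ s = -1) (k : ℕ) (x : ℤ) :
    od d k (s * x) = od (s * d) k x := by
  unfold od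
  apply sum_congr rfl
  intro i _
  rw [iter_sgn hd hs]
  rcases hs with rfl | rfl
  · simp
  · congr 1
    omega

theorem cop_sgn {d s : ℤ} (hd : d % 2 = 1) (hd3 : IsCoprime d 3) (hs : s = 1 ∨ s = -1) :
    (s * d) % 2 = 1 ∧ IsCoprime (s * d) 3 := by
  rcases hs with rfl | rfl
  · rw [one_mul]; exact ⟨hd, hd3⟩
  · rw [neg_one_mul]; exact ⟨by omega, hd3.neg_left⟩

theorem ind_sgn {s : ℤ} (hs : s = 1 ∨ s = -1) (m : ℕ) (r y : ℤ) : ind m r (s * y) = ind m (s * r) y := by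
  unfold ind
  rcases hs with rfl | rfl
  · simp
  · have : (3 : ℤ) ^ m ∣ -1 * y - r ↔ (3 : ℤ) ^ m ∣ y - -1 * r := by
      rw [show -1 * y - r = -(y - -1 * r) by ring, dvd_neg]
    simp only [this]

theorem hit_sgn {d s : ℤ} (hd : d % 2 = 1) (hs : s = 1 ∨ s = -1) (m : ℕ) (y : ℤ) (t : ℕ) :
    hit (s * d) m y t = hit d m (s * y) t := by
  have e1 : ∀ x, FD (s * d) (ind m y) m t x = FD d (ind m (s * y)) m t (s * x) := by
    intro x
    unfold FD
    rw [od_sgn hd hs, iter_sgn hd hs, ind_sgn hs, sgn_sq hs]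
  unfold hit
  rw [show FD (s * d) (ind m y) m t = fun x => FD d (ind m (s * y)) m t (s * x) from funext e1]
  refine mn_neg Nat.one_le_two_pow (fun x z => ?_) hs
  push_cast
  exact FD_per2 hd (ind_per m (s * y)) x z

theorem den_sgn {d s : ℤ} (hd : d % 2 = 1) (hs : s = 1 ∨ s = -1) (m : ℕ) (y : ℤ) :
    den (s * d) m y = den d m (s * y) := by
  unfold den
  congr 1
  funext t
  exact hit_sgn hd hs m y t

theorem rho_sgn {d s : ℤ} (hd : d % 2 = 1) (hs : s = 1 ∨ s = -1) (m : ℕ) (y : ℤ) :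
    rho (s * d) m y = rho d m (s * y) := by
  unfold rho
  rw [den_sgn hd hs]

/-- the model, natural numbers -/
noncomputable def ModN (d s : ℤ) (m k : ℕ) (G : ℕ → ℤ → ℝ) (N : ℕ) : ℝ :=
  ∑ J ∈ range (k + 1), (k.choose J : ℝ) / 3 ^ J *
    ∑ y ∈ Icc 1 (3 ^ J * N / 2 ^ k), rho d m (s * (y : ℕ)) * G J (s * (y : ℕ))

theorem ceil_aux (N k : ℕ) : ⌈(N : ℝ) + 1 / (2 * 3 ^ k)⌉ = (N : ℤ) + 1 := by
  rw [Int.ceil_eq_iff]
  have h3 : (1 : ℝ) ≤ 3 ^ k := one_le_pow₀ (by norm_num)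
  push_cast
  constructor
  · have : (0 : ℝ) < 1 / (2 * 3 ^ k) := by positivity
    linarith
  · have : (1 : ℝ) / (2 * 3 ^ k) ≤ 1 := by
      rw [div_le_one (by positivity)]; linarith
    linarith

theorem sum_Icc_aux (N J k : ℕ) (hJ : J ≤ k) (f : ℤ → ℝ) :
    ∑ y ∈ Ico 1 ⌈((N : ℝ) + 1 / (2 * 3 ^ k)) * 3 ^ J / 2 ^ k⌉, f y
      = ∑ y ∈ Icc 1 (3 ^ J * N / 2 ^ k), f (y : ℕ) := by
  have h2 : (0 : ℝ) < 2 ^ k := by positivity
  have h2n : 0 < 2 ^ k := by positivity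
  have h3 : (0 : ℝ) < 3 ^ J := by positivity
  have hθ : (3 : ℝ) ^ J / (2 * 3 ^ k) ≤ 1 / 2 := by
    rw [div_le_div_iff₀ (by positivity) (by norm_num)]
    have : (3 : ℝ) ^ J ≤ 3 ^ k := pow_le_pow_right₀ (by norm_num) hJ
    linarith
  have key : ∀ y : ℕ, ((y : ℤ) < ⌈((N : ℝ) + 1 / (2 * 3 ^ k)) * 3 ^ J / 2 ^ k⌉ ↔ y ≤ 3 ^ J * N / 2 ^ k) := by
    intro y
    rw [Int.lt_ceil, Nat.le_div_iff_mul_le h2n]
    push_cast
    rw [lt_div_iff₀ h2]
    constructor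
    · intro h
      have h4 : (y : ℝ) * 2 ^ k < 3 ^ J * N + 1 := by
        have e : ((N : ℝ) + 1 / (2 * 3 ^ k)) * 3 ^ J = 3 ^ J * N + 3 ^ J / (2 * 3 ^ k) := by ring
        rw [e] at h
        linarith
      have h5 : y * 2 ^ k < 3 ^ J * N + 1 := by exact_mod_cast h4
      omega
    · intro h
      have h5 : (y : ℝ) * 2 ^ k ≤ 3 ^ J * N := by exact_mod_cast h
      have e : ((N : ℝ) + 1 / (2 * 3 ^ k)) * 3 ^ J = 3 ^ J * N + 3 ^ J / (2 * 3 ^ k) := by ring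
      rw [e]
      have : (0 : ℝ) < 3 ^ J / (2 * 3 ^ k) := by positivity
      linarith
  symm
  apply sum_nbij' (fun n : ℕ => (n : ℤ)) (fun n : ℤ => n.toNat)
  · intro n hn
    rw [mem_Icc] at hn
    rw [mem_Ico]
    exact ⟨by omega, (key n).2 hn.2⟩
  · intro n hn
    rw [mem_Ico] at hn
    have hc : ((n.toNat : ℕ) : ℤ) = n := Int.toNat_of_nonneg (by omega)
    rw [mem_Icc]
    refine ⟨by omega, (key n.toNat).1 ?_⟩
    rw [hc]; exact hn.2
  · intro n _; exact Int.toNat_natCast n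
  · intro n hn
    rw [mem_Ico] at hn
    exact Int.toNat_of_nonneg (by omega)
  · intro n _; rfl

theorem Mod_eq {d s : ℤ} (hd : d % 2 = 1) (hs : s = 1 ∨ s = -1) (m k : ℕ) (G : ℕ → ℤ → ℝ) (N : ℕ) :
    Mod (s * d) m k (fun j y => G j (s * y)) ((N : ℝ) + 1 / (2 * 3 ^ k)) = ModN d s m k G N := by
  unfold Mod ModN
  rw [bin_choose]
  apply sum_congr rfl
  intro J hJ
  rw [mem_range] at hJ
  rw [sum_Icc_aux N J k (by omega) (fun y => rho (s * d) m y * G J (s * y))]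
  rw [← mul_assoc]
  congr 1
  · field_simp
  · apply sum_congr rfl
    intro y _
    rw [rho_sgn hd hs]

/-- the sum of `G` over the pairs (number of odd terms, iterate) of `s, 2 s, ..., N s` -/
noncomputable def Sg (d s : ℤ) (N k : ℕ) (G : ℕ → ℤ → ℝ) : ℝ :=
  ∑ n ∈ Icc 1 N, G (od d k (s * (n : ℕ))) ((Tz d)^[k] (s * (n : ℕ)))

theorem Sg_eq {d s : ℤ} (hd : d % 2 = 1) (hs : s = 1 ∨ s = -1) (N k : ℕ) (G : ℕ → ℤ → ℝ) :
    Sg d s N k G = ∑ x ∈ Ico 1 ((N : ℤ) + 1), (fun j y => G j (s * y)) (od (s * d) k x) ((Tz (s * d))^[k] x) := by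
  rw [← sum_Icc_Ico (fun x => (fun j y => G j (s * y)) (od (s * d) k x) ((Tz (s * d))^[k] x))]
  unfold Sg
  apply sum_congr rfl
  intro n _
  dsimp only
  rw [iter_sgn hd hs, od_sgn hd hs]

/-- THE LAW -/
theorem lawN {d : ℤ} (hd : d % 2 = 1) (hd3 : IsCoprime d 3) {κ : ℝ} (hκ : κ < 2 / Real.log (4 / 3))
    {ε : ℝ} (hε : 0 < ε) :
    ∃ m₀ : ℕ, ∀ m ≥ m₀, ∃ K₀ N₀ : ℕ, ∀ N ≥ N₀, ∀ k : ℕ, K₀ ≤ k → (k : ℝ) ≤ κ * Real.log N →
      ∀ s : ℤ, (s = 1 ∨ s = -1) → ∀ G : ℕ → ℤ → ℝ, (∀ j x, |G j x| ≤ 1) →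
        |Sg d s N k G - ModN d s m k G N| ≤ ε * N := by
  obtain ⟨κ', hκ0, hκκ, hκ1⟩ := kappa_bridge hκ
  have g1 := cop_sgn hd hd3 (s := 1) (Or.inl rfl)
  have g2 := cop_sgn hd hd3 (s := -1) (Or.inr rfl)
  obtain ⟨m₁, h1⟩ := coreTV g1.1 g1.2 hκ0 hκ1 (ε := ε / 2) (by positivity)
  obtain ⟨m₂, h2⟩ := coreTV g2.1 g2.2 hκ0 hκ1 (ε := ε / 2) (by positivity)
  refine ⟨max m₁ m₂, fun m hm => ?_⟩
  obtain ⟨K₁, N₁, h1⟩ := h1 m ((le_max_left _ _).trans hm)
  obtain ⟨K₂, N₂, h2⟩ := h2 m ((le_max_right _ _).trans hm)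
  refine ⟨max K₁ K₂, max (max N₁ N₂) 1, fun N hN k hkK hk s hs G hG => ?_⟩
  have hN1 : 1 ≤ N := le_trans (le_max_right _ _) hN
  have hNR : (1 : ℝ) ≤ N := by exact_mod_cast hN1
  have hN1' : (N₁ : ℝ) ≤ N := by
    exact_mod_cast (le_trans (le_trans (le_max_left _ _) (le_max_left _ _)) hN)
  have hN2' : (N₂ : ℝ) ≤ N := by
    exact_mod_cast (le_trans (le_trans (le_max_right _ _) (le_max_left _ _)) hN)
  set X : ℝ := (N : ℝ) + 1 / (2 * 3 ^ k) with hX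
  have hXN : (N : ℝ) ≤ X := by
    have : (0 : ℝ) < 1 / (2 * 3 ^ k) := by positivity
    linarith
  have hX2 : X ≤ 2 * N := by
    have h3 : (1 : ℝ) ≤ 3 ^ k := one_le_pow₀ (by norm_num)
    have : (1 : ℝ) / (2 * 3 ^ k) ≤ 1 := by
      rw [div_le_one (by positivity)]; linarith
    linarith
  have hk' : (k : ℝ) ≤ κ' * Real.log X := by
    refine hk.trans ?_
    have h5 : Real.log N ≤ Real.log X := Real.log_le_log (by linarith) hXN
    have h6 : 0 ≤ Real.log N := Real.log_nonneg hNR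
    calc κ * Real.log N ≤ κ' * Real.log N := mul_le_mul_of_nonneg_right hκκ h6
      _ ≤ κ' * Real.log X := mul_le_mul_of_nonneg_left h5 hκ0.le
  rw [Sg_eq hd hs, ← Mod_eq hd hs, ← ceil_aux N k]
  have hfin : ε / 2 * X ≤ ε * N := by
    calc ε / 2 * X ≤ ε / 2 * (2 * N) := mul_le_mul_of_nonneg_left hX2 (by positivity)
      _ = ε * N := by ring
  refine le_trans ?_ hfin
  rcases hs with rfl | rfl
  · exact h1 X (hN1'.trans hXN) k ((le_max_left _ _).trans hkK) hk'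
      (fun j y => G j (1 * y)) (fun j x => hG _ _)
  · exact h2 X (hN2'.trans hXN) k ((le_max_right _ _).trans hkK) hk'
      (fun j y => G j (-1 * y)) (fun j x => hG _ _)

/-! ### the density -/

theorem mn_mul {F : ℤ → ℝ} {H : ℕ} (hper : ∀ x z, F (x + H * z) = F x) : ∀ (K : ℕ), 1 ≤ K →
    mn F (H * K) = mn F H := by
  intro K hK
  have h1 : ∀ K : ℕ, ∑ i ∈ range (H * K), F (i : ℕ) = K * ∑ i ∈ range H, F (i : ℕ) := by
    intro K
    induction K with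
    | zero => simp
    | succ K ih =>
      rw [show H * (K + 1) = H * K + H by ring, sum_range_add, ih]
      have : ∀ i ∈ range H, F ((H * K + i : ℕ) : ℤ) = F (i : ℕ) := by
        intro i _
        rw [← hper i K]
        congr 1
        push_cast; ring
      rw [sum_congr rfl this]
      push_cast; ring
  unfold mn
  rw [h1]
  have hK0 : (K : ℝ) ≠ 0 := by
    have : (0 : ℝ) < K := by exact_mod_cast hK
    exact this.ne'
  push_cast
  rcases Nat.eq_zero_or_pos H with h | h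
  · rw [h]; simp
  · have hH0 : (H : ℝ) ≠ 0 := by
      have : (0 : ℝ) < H := by exact_mod_cast h
      exact this.ne'
    field_simp

/-- the density is the limit of the densities of the iterates -/
theorem rho_tendsto {d : ℤ} (hd : d % 2 = 1) (m : ℕ) (y : ℤ) :
    Tendsto (fun t : ℕ => (({x ∈ range (2 ^ t * 3 ^ m) | (3 : ℤ) ^ m ∣ (Tz d)^[t] (x : ℕ) - y}.card : ℕ) : ℝ)
      / 2 ^ t) atTop (𝓝 (rho d m y)) := by
  have h3m : (0 : ℝ) < 3 ^ m := by positivity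
  have e1 : ∀ t : ℕ, (({x ∈ range (2 ^ t * 3 ^ m) | (3 : ℤ) ^ m ∣ (Tz d)^[t] (x : ℕ) - y}.card : ℕ) : ℝ) / 2 ^ t
      = 3 ^ m * mn (fun x => ind m y ((Tz d)^[t] x)) (2 ^ t * 3 ^ m) := by
    intro t
    unfold mn ind
    rw [card_filter]
    push_cast
    field_simp
  have h1 : ∀ t : ℕ, |mn (fun x => ind m y ((Tz d)^[t] x)) (2 ^ t * 3 ^ m) - hit d m y t| ≤ dlD d m t := by
    intro t
    have e2 : hit d m y t = mn (FD d (ind m y) m t) (2 ^ t * 3 ^ m) := by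
      rw [mn_mul (fun x z => by push_cast; exact FD_per2 hd (ind_per m y) x z) _ (Nat.one_le_pow _ _ (by norm_num))]
      rfl
    have e3 : dlD d m t = mn (fun y => if od d t y < m then (1 : ℝ) else 0) (2 ^ t * 3 ^ m) := by
      rw [mn_mul (fun x z => low_per hd m t x z) _ (Nat.one_le_pow _ _ (by norm_num))]
      rfl
    rw [e2, e3]
    apply mn_abs_sub
    intro x
    unfold FD
    rcases Nat.lt_or_ge (od d t x) m with hlt | hge
    · rw [if_pos hlt, if_neg (by omega : ¬ m ≤ od d t x), sub_zero]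
      exact ind_abs _ _ _
    · rw [if_neg (by omega : ¬ od d t x < m), if_pos hge, sub_self, abs_zero]
  have h2 : Tendsto (fun t : ℕ => mn (fun x => ind m y ((Tz d)^[t] x)) (2 ^ t * 3 ^ m) - hit d m y t)
      atTop (𝓝 0) := squeeze_zero_norm h1 (dlD_tendsto hd m)
  have h3 := (h2.add (den_tendsto hd m y)).const_mul ((3 : ℝ) ^ m)
  rw [zero_add] at h3
  refine h3.congr fun t => ?_
  rw [e1]
  ring

end Pool.Agent.W5h47.TV
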