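import Pool.Agent.W5h47.TV.H

/-! The law of the iterates in total variation, part I: large moduli prime to three. -/

set_option autoImplicit false

namespace Pool.Agent.W5h47.TV

open Pool.Agent.H320R2.PD Finset Filter Topology
open Pool.Agent.H499R2.CO (Tz)
open Pool.Agent.H499R2.ND (mem_win ap mem_ap ap_card_le le_ap_card crt)
open Pool.Agent.R344.SP
open Pool.Agent.W5h47.SL

theorem mn_abs_le {F : ℤ → ℝ} (hF : ∀ x, |F x| ≤ 1) {H : ℕ} (hH : 1 ≤ H) : |mn F H| ≤ 1 := by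
  have hH0 : (0 : ℝ) < H := by exact_mod_cast hH
  unfold mn
  rw [abs_div, abs_of_pos hH0, div_le_one hH0]
  refine (abs_sum_le_sum_abs _ _).trans ?_
  calc ∑ i ∈ range H, |F i| ≤ ∑ _i ∈ range H, (1 : ℝ) := sum_le_sum fun i _ => hF _
    _ = H := by simp

/-- sums of periodic functions over a class mod `3^m` in any window -/
theorem cl_meanQ {F : ℤ → ℝ} (hF : ∀ x, |F x| ≤ 1) {H : ℕ} (hH : 1 ≤ H) (hc3 : Nat.Coprime 3 H)
    (hper : ∀ x z, F (x + H * z) = F x) {a b : ℝ} (hab : a ≤ b) (m : ℕ) (r : ℤ) :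
    |∑ x ∈ cl a b m 1 r, F x - (b - a) / 3 ^ m * mn F H| ≤ 4 * H + 5 := by
  have h3m : (0 : ℝ) < 3 ^ m := by positivity
  have hH0 : (0 : ℝ) < H := by exact_mod_cast hH
  have hmn : |mn F H| ≤ 1 := mn_abs_le hF hH
  set Φ : ℤ → ℝ := fun x => (F x - mn F H) / 2 with hΦ
  have hΦ1 : ∀ x, |Φ x| ≤ 1 := by
    intro x
    rw [hΦ]; dsimp only
    rw [abs_div, abs_two, div_le_one (by norm_num)]
    exact (abs_sub _ _).trans (by linarith [hF x])
  have hzero : ∀ x, ∑ i ∈ range H, Φ (x + 3 ^ m * i) = 0 := by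
    intro x
    rw [hΦ]; dsimp only
    rw [← sum_div, sum_sub_distrib, cover_sum hH hper (cop3 hc3), sum_const, card_range, nsmul_eq_mul, mn]
    field_simp
    simp
  have hi : ∀ i : ℕ, i ∈ range H → |∑ x ∈ cl a b m 1 r, Φ x - ∑ x ∈ cl a b m 1 r, Φ (x + 3 ^ m * i)|
      ≤ 2 * (H + 1) := by
    intro i hi
    rw [mem_range] at hi
    have hq : (3 : ℤ) ^ m ∣ 3 ^ m * i := dvd_mul_right _ _
    rw [cl_shift Φ a b m r _ hq]
    have h1 := shift_sum hΦ1 (a := a) (a' := a + ((3 ^ m * i : ℤ) : ℝ)) (b := b)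
      (b' := b + ((3 ^ m * i : ℤ) : ℝ)) (K := 3 ^ m * i)
      (by rw [sub_add_cancel_left, abs_neg]; push_cast; rw [abs_of_nonneg (by positivity)])
      (by rw [sub_add_cancel_left, abs_neg]; push_cast; rw [abs_of_nonneg (by positivity)]) m
      isCoprime_one_left r
    refine h1.trans ?_
    rw [mul_div_cancel_left₀ _ h3m.ne']
    have : (i : ℝ) ≤ H := by exact_mod_cast hi.le
    linarith
  have hsum : (H : ℝ) * ∑ x ∈ cl a b m 1 r, Φ x
      = ∑ i ∈ range H, (∑ x ∈ cl a b m 1 r, Φ x - ∑ x ∈ cl a b m 1 r, Φ (x + 3 ^ m * i)) := by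
    rw [sum_sub_distrib, sum_const, card_range, nsmul_eq_mul, sum_comm (s := range H)]
    have : ∑ x ∈ cl a b m 1 r, ∑ i ∈ range H, Φ (x + 3 ^ m * i) = 0 :=
      sum_eq_zero fun x _ => hzero x
    rw [this, sub_zero]
  have h2 : |(H : ℝ) * ∑ x ∈ cl a b m 1 r, Φ x| ≤ H * (2 * (H + 1)) := by
    rw [hsum]
    refine (abs_sum_le_sum_abs _ _).trans ((sum_le_sum hi).trans (le_of_eq ?_))
    rw [sum_const, card_range, nsmul_eq_mul]
  rw [abs_mul, abs_of_pos hH0] at h2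
  have h3 := le_of_mul_le_mul_left h2 hH0
  set N : ℝ := ((cl a b m 1 r).card : ℝ) with hN
  have h4 : ∑ x ∈ cl a b m 1 r, Φ x = (∑ x ∈ cl a b m 1 r, F x - N * mn F H) / 2 := by
    rw [hΦ]; dsimp only
    rw [← sum_div, sum_sub_distrib, sum_const, nsmul_eq_mul]
  rw [h4, abs_div, abs_two, div_le_iff₀ (by norm_num)] at h3
  have h5 : |N - (b - a) / 3 ^ m| ≤ 1 := by
    obtain ⟨c, _, hc⟩ := cl_ap m isCoprime_one_left r
    rw [hN, hc]
    have h6 := ap_card_le hab (q := 3 ^ m) (by positivity) c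
    have h7 := le_ap_card a b (q := 3 ^ m) (by positivity) c
    push_cast at h6 h7
    rw [abs_le]
    constructor <;> linarith
  have h6 : |N * mn F H - (b - a) / 3 ^ m * mn F H| ≤ 1 := by
    rw [← sub_mul, abs_mul]
    calc _ ≤ (1 : ℝ) * 1 := mul_le_mul h5 hmn (abs_nonneg _) zero_le_one
      _ = 1 := one_mul 1
  have b1 := abs_le.1 h3
  have b2 := abs_le.1 h6
  rw [abs_le]
  constructor <;> linarith [b1.1, b1.2, b2.1, b2.2]

theorem rho_sum {d : ℤ} (hd : d % 2 = 1) (m : ℕ) : ∑ r ∈ range (3 ^ m), rho d m (r : ℕ) = 3 ^ m := by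
  unfold rho
  rw [← mul_sum, den_sum hd, mul_one]

theorem ico_classes (m : ℕ) {L : ℝ} (hL : 1 ≤ L) (f : ℤ → ℝ) :
    ∑ y ∈ Ico 1 ⌈L⌉, f y = ∑ r ∈ range (3 ^ m), ∑ y ∈ cl 1 L m 1 (r : ℕ), f y := by
  have h3z : (0 : ℤ) < 3 ^ m := by positivity
  have hmap : ∀ n ∈ Ico 1 ⌈L⌉, (n % 3 ^ m).toNat ∈ range (3 ^ m) := by
    intro n _
    have h1 := Int.emod_nonneg n h3z.ne'
    have h2 := Int.emod_lt_of_pos n h3z
    rw [mem_range]
    have h3 : (((n % 3 ^ m).toNat : ℕ) : ℤ) < ((3 ^ m : ℕ) : ℤ) := by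
      rw [Int.toNat_of_nonneg h1]; push_cast; exact h2
    exact_mod_cast h3
  rw [← sum_fiberwise_of_maps_to hmap]
  apply sum_congr rfl
  intro r hr
  rw [mem_range] at hr
  apply sum_congr _ (fun _ _ => rfl)
  ext x
  rw [mem_filter, mem_Ico, mem_cl, one_mul]
  have h1 := Int.emod_nonneg x h3z.ne'
  have hr' : (r : ℤ) < 3 ^ m := by exact_mod_cast hr
  have h0 : (x % 3 ^ m).toNat = r ↔ (3 : ℤ) ^ m ∣ x - r := by
    constructor
    · intro h
      have h5 : (r : ℤ) = x % 3 ^ m := by rw [← h, Int.toNat_of_nonneg h1]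
      rw [h5]; exact Int.dvd_self_sub_emod
    · intro h
      have h6 : x % 3 ^ m = (r : ℤ) % 3 ^ m := (Int.modEq_iff_dvd.2 h).symm
      rw [Int.emod_eq_of_lt (by positivity) hr'] at h6
      rw [h6, Int.toNat_natCast]
  have h7 : (1 ≤ x ∧ x < ⌈L⌉) ↔ ((1 : ℝ) ≤ x ∧ (x : ℝ) < L) := by
    rw [Int.lt_ceil]
    constructor
    · rintro ⟨h8, h9⟩; exact ⟨by exact_mod_cast h8, h9⟩
    · rintro ⟨h8, h9⟩; exact ⟨by exact_mod_cast h8, h9⟩
  rw [h0, h7]

/-- sums of periodic functions with the stationary weight -/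
theorem rho_per {d : ℤ} (hd : d % 2 = 1) (m : ℕ) {F : ℤ → ℝ} (hF : ∀ x, |F x| ≤ 1) {H : ℕ} (hH : 1 ≤ H)
    (hc3 : Nat.Coprime 3 H) (hper : ∀ x z, F (x + H * z) = F x) {L : ℝ} (hL : 0 < L) :
    |∑ y ∈ Ico 1 ⌈L⌉, rho d m y * F y - L * mn F H| ≤ 3 ^ m * (4 * H + 6) := by
  have h3m : (1 : ℝ) ≤ 3 ^ m := one_le_pow₀ (by norm_num)
  have hH0 : (1 : ℝ) ≤ H := by exact_mod_cast hH
  have hmn : |mn F H| ≤ 1 := mn_abs_le hF hH
  rcases lt_or_ge L 1 with hlt | hge
  · have : ⌈L⌉ = 1 := by rw [Int.ceil_eq_iff]; push_cast; constructor <;> linarith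
    rw [this]
    simp only [lt_self_iff_false, not_false_eq_true, Finset.Ico_eq_empty, sum_empty, zero_sub, abs_neg, abs_mul,
      abs_of_pos hL]
    have h1 : L * |mn F H| ≤ 1 * 1 := mul_le_mul hlt.le hmn (abs_nonneg _) zero_le_one
    nlinarith
  · rw [ico_classes m hge (fun y => rho d m y * F y)]
    have e1 : ∀ r ∈ range (3 ^ m), ∑ y ∈ cl 1 L m 1 (r : ℕ), rho d m y * F y
        = rho d m (r : ℕ) * ∑ y ∈ cl 1 L m 1 (r : ℕ), F y := by
      intro r _
      rw [mul_sum]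
      apply sum_congr rfl
      intro y hy
      rw [mem_cl, one_mul] at hy
      unfold rho
      rw [den_congr d m hy.2]
    rw [sum_congr rfl e1]
    have e2 : (L - 1) * mn F H = ∑ r ∈ range (3 ^ m), rho d m (r : ℕ) * ((L - 1) / 3 ^ m * mn F H) := by
      rw [← sum_mul, rho_sum hd]
      field_simp
    have h1 : |∑ r ∈ range (3 ^ m), rho d m (r : ℕ) * ∑ y ∈ cl 1 L m 1 (r : ℕ), F y - (L - 1) * mn F H|
        ≤ 3 ^ m * (4 * H + 5) := by
      rw [e2, ← sum_sub_distrib]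
      refine (abs_sum_le_sum_abs _ _).trans ?_
      calc ∑ r ∈ range (3 ^ m), |rho d m (r : ℕ) * ∑ y ∈ cl 1 L m 1 (r : ℕ), F y
            - rho d m (r : ℕ) * ((L - 1) / 3 ^ m * mn F H)|
          ≤ ∑ r ∈ range (3 ^ m), rho d m (r : ℕ) * (4 * H + 5) := by
            apply sum_le_sum
            intro r _
            rw [← mul_sub, abs_mul, abs_of_nonneg (rho_nonneg hd m _)]
            exact mul_le_mul_of_nonneg_left (cl_meanQ hF hH hc3 hper hge m r) (rho_nonneg hd m _)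
        _ = _ := by rw [← sum_mul, rho_sum hd]
    have b1 := abs_le.1 h1
    have b2 := abs_le.1 hmn
    rw [abs_le]
    constructor <;> nlinarith [b1.1, b1.2, b2.1, b2.2]

/-- the model for periodic functions -/
theorem Mod_per {d : ℤ} (hd : d % 2 = 1) (m k : ℕ) {G : ℕ → ℤ → ℝ} (hG : ∀ j x, |G j x| ≤ 1) {H : ℕ}
    (hH : 1 ≤ H) (hc3 : Nat.Coprime 3 H) (hper : ∀ j x z, G j (x + H * z) = G j x) {X : ℝ} (hX : 0 < X)
    {c₀ β : ℝ} (hβ : c₀ * Real.log 3 = Real.log 2 - β) :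
    |Mod d m k G X - X * bin k (fun J => mn (G J) H)|
      ≤ Real.exp (β * k) * (3 ^ m * (4 * H + 6))
        + 2 * 3 ^ m * X * bin k (fun j => if (j : ℝ) < c₀ * k then 1 else 0) := by
  have hl3 : 0 < Real.log 3 := Real.log_pos (by norm_num)
  unfold Mod
  rw [← bin_mul, ← bin_sub]
  have hle : ∀ J ≤ k, |2 ^ k / 3 ^ J * ∑ y ∈ Ico 1 ⌈X * 3 ^ J / 2 ^ k⌉, rho d m y * G J y - X * mn (G J) H|
      ≤ Real.exp (β * k) * (3 ^ m * (4 * H + 6))
        + 2 * 3 ^ m * X * (if (J : ℝ) < c₀ * k then 1 else 0) := by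
    intro J _
    have hL : 0 < X * 3 ^ J / 2 ^ k := by positivity
    split_ifs with hJ
    · have h1 : |2 ^ k / 3 ^ J * ∑ y ∈ Ico 1 ⌈X * 3 ^ J / 2 ^ k⌉, rho d m y * G J y| ≤ 3 ^ m * X := by
        rw [abs_mul, abs_of_pos (by positivity : (0 : ℝ) < 2 ^ k / 3 ^ J)]
        have h1 : |∑ y ∈ Ico 1 ⌈X * 3 ^ J / 2 ^ k⌉, rho d m y * G J y| ≤ X * 3 ^ J / 2 ^ k * 3 ^ m := by
          refine (abs_sum_le_sum_abs _ _).trans ?_
          calc ∑ y ∈ Ico 1 ⌈X * 3 ^ J / 2 ^ k⌉, |rho d m y * G J y|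
              ≤ ∑ _y ∈ Ico 1 ⌈X * 3 ^ J / 2 ^ k⌉, (3 : ℝ) ^ m := by
                apply sum_le_sum
                intro y _
                rw [abs_mul, abs_of_nonneg (rho_nonneg hd m y)]
                calc rho d m y * |G J y| ≤ 3 ^ m * 1 :=
                      mul_le_mul (rho_le hd m y) (hG _ _) (abs_nonneg _) (by positivity)
                  _ = 3 ^ m := mul_one _
            _ = ((Ico 1 ⌈X * 3 ^ J / 2 ^ k⌉).card : ℝ) * 3 ^ m := by rw [sum_const, nsmul_eq_mul]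
            _ ≤ _ := mul_le_mul_of_nonneg_right (ico_card hL) (by positivity)
        calc 2 ^ k / 3 ^ J * |∑ y ∈ Ico 1 ⌈X * 3 ^ J / 2 ^ k⌉, rho d m y * G J y|
            ≤ 2 ^ k / 3 ^ J * (X * 3 ^ J / 2 ^ k * 3 ^ m) := mul_le_mul_of_nonneg_left h1 (by positivity)
          _ = 3 ^ m * X := by field_simp
      have h2 : |X * mn (G J) H| ≤ X := by
        rw [abs_mul, abs_of_pos hX]
        exact mul_le_of_le_one_right hX.le (mn_abs_le (hG J) hH)
      have h3 : X ≤ 3 ^ m * X := le_mul_of_one_le_left hX.le (one_le_pow₀ (by norm_num))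
      have h4 : 0 ≤ Real.exp (β * k) * (3 ^ m * (4 * H + 6)) := by positivity
      refine (abs_sub _ _).trans ?_
      linarith
    · rw [mul_zero, add_zero]
      have h1 := rho_per hd m (hG J) hH hc3 (hper J) hL
      have e1 : 2 ^ k / 3 ^ J * ∑ y ∈ Ico 1 ⌈X * 3 ^ J / 2 ^ k⌉, rho d m y * G J y - X * mn (G J) H
          = 2 ^ k / 3 ^ J * (∑ y ∈ Ico 1 ⌈X * 3 ^ J / 2 ^ k⌉, rho d m y * G J y
            - X * 3 ^ J / 2 ^ k * mn (G J) H) := by
        field_simp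
      rw [e1, abs_mul, abs_of_pos (by positivity : (0 : ℝ) < 2 ^ k / 3 ^ J)]
      apply mul_le_mul _ h1 (abs_nonneg _) (Real.exp_pos _).le
      have h7 : (2 : ℝ) ^ k / 3 ^ J = Real.exp (k * Real.log 2 - J * Real.log 3) := by
        rw [Real.exp_sub, Real.exp_nat_mul, Real.exp_nat_mul, Real.exp_log (by norm_num),
          Real.exp_log (by norm_num)]
      rw [h7]
      apply Real.exp_le_exp.2
      have h8 : c₀ * k * Real.log 3 ≤ J * Real.log 3 := mul_le_mul_of_nonneg_right (not_lt.1 hJ) hl3.le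
      have h9 : c₀ * k * Real.log 3 = (c₀ * Real.log 3) * k := by ring
      rw [h9, hβ] at h8
      linarith
  refine (bin_abs k hle).trans (le_of_eq ?_)
  rw [bin_add, bin_const, bin_mul]

/-- LARGE MODULI PRIME TO THREE, every time -/
theorem level {d : ℤ} (hd : d % 2 = 1) (hd3 : IsCoprime d 3) {δ ε : ℝ} (hδ : 0 < δ) (hε : 0 < ε) :
    ∃ N₀ : ℕ, ∀ N ≥ N₀, ∀ k H : ℕ, 1 ≤ H → Nat.Coprime 3 H →
      Real.log (4 / 3) / 2 * k + Real.log H ≤ (1 - δ) * Real.log N → ∀ s : ℤ, (s = 1 ∨ s = -1) →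
      ∀ G : ℕ → ℤ → ℝ, (∀ j x, |G j x| ≤ 1) → (∀ j x z, G j (x + H * z) = G j x) →
        |Sg d s N k G - N * bin k (fun J => mn (G J) H)| ≤ ε * N := by
  have hl2 : 0 < Real.log 2 := Real.log_pos (by norm_num)
  have hl3 : 0 < Real.log 3 := Real.log_pos (by norm_num)
  have hl43 : 0 < Real.log (4 / 3) := Real.log_pos (by norm_num)
  have h4 : Real.log (4 / 3) = 2 * (Real.log 2 - Real.log 3 / 2) := by
    rw [Real.log_div (by norm_num) (by norm_num), show (4 : ℝ) = 2 ^ 2 by norm_num, Real.log_pow]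
    push_cast; ring
  set b : ℝ := Real.log (4 / 3) / 2 with hb
  have hb0 : 0 < b := by positivity
  set δ' : ℝ := min δ (1 / 2) with hδ'
  have hδ'0 : 0 < δ' := lt_min hδ (by norm_num)
  have hδ'1 : δ' ≤ 1 / 2 := min_le_right _ _
  have hδ'2 : δ' ≤ δ := min_le_left _ _
  set κ : ℝ := (1 - δ') / b with hκ
  have hκ0 : 0 < κ := by rw [hκ]; apply div_pos _ hb0; linarith
  have hκ1 : κ < 2 / Real.log (4 / 3) := by
    have : 2 / Real.log (4 / 3) = 1 / b := by rw [hb]; field_simp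
    rw [this, hκ]
    apply div_lt_div_of_pos_right _ hb0
    linarith
  -- the drift
  set β : ℝ := b + δ' / (2 * κ) with hβdef
  have hβb : b < β := by
    have : 0 < δ' / (2 * κ) := by positivity
    linarith
  have hβ0 : 0 < β := by linarith
  set c₀ : ℝ := (Real.log 2 - β) / Real.log 3 with hc₀
  have hc₀lt : c₀ < 1 / 2 := by
    rw [hc₀, div_lt_iff₀ hl3]; linarith
  have hβc : c₀ * Real.log 3 = Real.log 2 - β := by rw [hc₀]; field_simp
  obtain ⟨ρ₀, hρ0, hρ1, hρ⟩ := bin_tail hc₀lt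
  obtain ⟨m, hm⟩ := lawN hd hd3 hκ1 (ε := ε / 8) (by positivity)
  obtain ⟨K₀, N₁, hlaw⟩ := hm m le_rfl
  have h3m : (0 : ℝ) < 3 ^ m := by positivity
  obtain ⟨K₁, hK₁⟩ : ∃ K₁ : ℕ, ∀ k ≥ K₁, 4 * 3 ^ m * ρ₀ ^ k ≤ ε / 8 := by
    have h := tendsto_pow_atTop_nhds_zero_of_lt_one hρ0.le hρ1
    have h1 := (h.const_mul (4 * 3 ^ m)).eventually (gt_mem_nhds (show (4 * 3 ^ m) * (0 : ℝ) < ε / 8 by
      rw [mul_zero]; positivity))
    obtain ⟨s₁, hs₁⟩ := Filter.eventually_atTop.1 h1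
    exact ⟨s₁, fun s hs => (hs₁ s hs).le⟩
  set K := max K₀ K₁ with hK
  obtain ⟨N₂, hN₂⟩ : ∃ N₂ : ℕ, ∀ N : ℕ, N₂ ≤ N → 1 ≤ N ∧
      (3 ^ m * 10 + 9 * 2 ^ K) * (8 / ε) ≤ (N : ℝ) ^ (δ' / 2) ∧ 8 / ε ≤ N := by
    have ht : Filter.Tendsto (fun N : ℕ => (N : ℝ) ^ (δ' / 2)) Filter.atTop Filter.atTop :=
      (tendsto_rpow_atTop (by positivity)).comp tendsto_natCast_atTop_atTop
    have h1 := ht.eventually_ge_atTop ((3 ^ m * 10 + 9 * 2 ^ K) * (8 / ε))
    have h2 : Filter.Tendsto (fun N : ℕ => (N : ℝ)) Filter.atTop Filter.atTop :=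
      tendsto_natCast_atTop_atTop
    have h3 := h2.eventually_ge_atTop (8 / ε)
    obtain ⟨N₀, hN₀⟩ := Filter.eventually_atTop.1 (((Filter.eventually_ge_atTop 1).and h3).and h1)
    exact ⟨N₀, fun N hN => ⟨(hN₀ N hN).1.1, (hN₀ N hN).2, (hN₀ N hN).1.2⟩⟩
  refine ⟨max N₁ N₂, fun N hN k H hH hc3 hkH s hs G hG hper => ?_⟩
  obtain ⟨hN1, hN2, hN3⟩ := hN₂ N (le_trans (le_max_right _ _) hN)
  have hNR : (1 : ℝ) ≤ N := by exact_mod_cast hN1
  have hN0 : (0 : ℝ) < N := by linarith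
  have hlogN : 0 ≤ Real.log N := Real.log_nonneg hNR
  have hHR : (1 : ℝ) ≤ H := by exact_mod_cast hH
  have hH0 : (0 : ℝ) < H := by linarith
  have hlogH : 0 ≤ Real.log H := Real.log_nonneg hHR
  have hkH' : b * k + Real.log H ≤ (1 - δ') * Real.log N := by
    refine hkH.trans ?_
    apply mul_le_mul_of_nonneg_right _ hlogN
    linarith
  have hkκ : (k : ℝ) ≤ κ * Real.log N := by
    rw [hκ, div_mul_eq_mul_div, le_div_iff₀ hb0]
    linarith
  have hfrac : (1 : ℝ) / (2 * 3 ^ k) ≤ 1 := by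
    have h3 : (1 : ℝ) ≤ 3 ^ k := one_le_pow₀ (by norm_num)
    rw [div_le_one (by positivity)]; linarith
  have hfrac0 : (0 : ℝ) < 1 / (2 * 3 ^ k) := by positivity
  rcases Nat.lt_or_ge k K with hlt | hge
  · -- small times
    have hd' := (cop_sgn hd hd3 hs).1
    set G' : ℕ → ℤ → ℝ := fun j y => G j (s * y) with hG'
    have hG'per : ∀ j x z, G' j (x + H * z) = G' j x := by
      intro j x z
      rw [hG']; dsimp only
      rw [show s * (x + H * z) = s * x + H * (s * z) by ring, hper]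
    set F : ℤ → ℝ := fun x => G' (od (s * d) k x) ((Tz (s * d))^[k] x) with hF
    have hFper : ∀ x z, F (x + (2 ^ k * H : ℕ) * z) = F x := by
      intro x z
      rw [hF]; dsimp only
      have e : x + (2 ^ k * H : ℕ) * z = x + 2 ^ k * (H * z) := by push_cast; ring
      rw [e, od_shift_d hd', iter_shift_d hd', show (Tz (s * d))^[k] x + 3 ^ od (s * d) k x * (H * z)
        = (Tz (s * d))^[k] x + H * (3 ^ od (s * d) k x * z) by ring, hG'per]
    have h1 := cl_meanQ (F := F) (fun x => hG _ _) (H := 2 ^ k * H) (Nat.mul_pos (Nat.two_pow_pos k) hH)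
      (cop2' (j := k) hc3) hFper (a := 1) (b := (N : ℝ) + 1) (by linarith) 0 0
    have e1 : cl 1 ((N : ℝ) + 1) 0 1 0 = Ico 1 ((N : ℤ) + 1) := by
      ext x
      rw [mem_cl, mem_Ico]
      constructor
      · rintro ⟨⟨h2, h3⟩, _⟩
        exact ⟨by exact_mod_cast h2, by exact_mod_cast h3⟩
      · rintro ⟨h2, h3⟩
        exact ⟨⟨by exact_mod_cast h2, by exact_mod_cast h3⟩, by simp⟩
    have e2 : mn F (2 ^ k * H) = bin k (fun J => mn (G J) H) := by
      rw [hF, mn_push hd' hH hc3 k G' hG'per]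
      apply bin_congr
      intro J _
      exact mn_neg hH (hper J) hs
    rw [e1, e2, pow_zero, div_one, add_sub_cancel_right] at h1
    rw [Sg_eq hd hs]
    refine h1.trans ?_
    push_cast
    have hHN : (H : ℝ) ≤ (N : ℝ) ^ (1 - δ') := by
      rw [Real.rpow_def_of_pos hN0, ← Real.exp_log hH0]
      apply Real.exp_le_exp.2
      have : 0 ≤ b * k := by positivity
      linarith
    have h2k : (2 : ℝ) ^ k ≤ 2 ^ K := pow_le_pow_right₀ (by norm_num) hlt.le
    have h5 : 4 * (2 ^ k * (H : ℝ)) + 5 ≤ 9 * 2 ^ K * H := by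
      have : (1 : ℝ) ≤ 2 ^ K := one_le_pow₀ (by norm_num)
      have h6 : 2 ^ k * (H : ℝ) ≤ 2 ^ K * H := mul_le_mul_of_nonneg_right h2k hH0.le
      nlinarith
    have h6 : 9 * 2 ^ K * (8 / ε) ≤ (N : ℝ) ^ δ' := by
      have h7 : 9 * 2 ^ K * (8 / ε) ≤ (N : ℝ) ^ (δ' / 2) := by
        refine le_trans ?_ hN2
        apply mul_le_mul_of_nonneg_right _ (by positivity)
        linarith
      refine h7.trans (Real.rpow_le_rpow_of_exponent_le hNR (by linarith))
    have h7 : 9 * 2 ^ K * (8 / ε) * (N : ℝ) ^ (1 - δ') ≤ N := by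
      calc 9 * 2 ^ K * (8 / ε) * (N : ℝ) ^ (1 - δ') ≤ (N : ℝ) ^ δ' * (N : ℝ) ^ (1 - δ') :=
            mul_le_mul_of_nonneg_right h6 (by positivity)
        _ = N := by
            rw [← Real.rpow_add hN0, show δ' + (1 - δ') = 1 by ring, Real.rpow_one]
    have h8 : 9 * 2 ^ K * H ≤ ε / 8 * N := by
      calc 9 * 2 ^ K * (H : ℝ) ≤ 9 * 2 ^ K * (N : ℝ) ^ (1 - δ') := mul_le_mul_of_nonneg_left hHN (by positivity)
        _ = ε / 8 * (9 * 2 ^ K * (8 / ε) * (N : ℝ) ^ (1 - δ')) := by field_simp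
        _ ≤ _ := mul_le_mul_of_nonneg_left h7 (by positivity)
    have : 0 < ε * N := by positivity
    linarith
  · -- large times
    have h1 := hlaw N (le_trans (le_max_left _ _) hN) k ((le_max_left _ _).trans hge) hkκ s hs G hG
    rw [← Mod_eq hd hs] at h1
    set X : ℝ := (N : ℝ) + 1 / (2 * 3 ^ k) with hX
    have hXN : (N : ℝ) ≤ X := by linarith
    have hXN1 : X ≤ N + 1 := by linarith
    have hX2 : X ≤ 2 * N := by linarith
    have hX0 : 0 < X := by linarith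
    set G' : ℕ → ℤ → ℝ := fun j y => G j (s * y) with hG'
    have hG'per : ∀ j x z, G' j (x + H * z) = G' j x := by
      intro j x z
      rw [hG']; dsimp only
      rw [show s * (x + H * z) = s * x + H * (s * z) by ring, hper]
    have h2 := Mod_per (cop_sgn hd hd3 hs).1 m k (G := G') (fun j x => hG _ _) hH hc3 hG'per hX0 hβc
    have e2 : bin k (fun J => mn (G' J) H) = bin k (fun J => mn (G J) H) := by
      apply bin_congr
      intro J _
      exact mn_neg hH (hper J) hs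
    rw [e2] at h2
    -- first error
    have hexp : Real.exp (β * k) * H ≤ (N : ℝ) ^ (1 - δ' / 2) := by
      rw [Real.rpow_def_of_pos hN0]
      conv_lhs => rw [← Real.exp_log hH0, ← Real.exp_add]
      apply Real.exp_le_exp.2
      have h5 : β * k = b * k + δ' / (2 * κ) * k := by rw [hβdef]; ring
      have h6 : δ' / (2 * κ) * k ≤ δ' / 2 * Real.log N := by
        calc δ' / (2 * κ) * k ≤ δ' / (2 * κ) * (κ * Real.log N) := mul_le_mul_of_nonneg_left hkκ (by positivity)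
          _ = _ := by field_simp
      rw [h5]
      linarith
    have herr1 : Real.exp (β * k) * (3 ^ m * (4 * H + 6)) ≤ ε / 8 * N := by
      have h5 : Real.exp (β * k) * (3 ^ m * (4 * H + 6)) ≤ 3 ^ m * 10 * (Real.exp (β * k) * H) := by
        have h6 : (4 * (H : ℝ) + 6) ≤ 10 * H := by linarith
        have h7 : 0 < Real.exp (β * k) := Real.exp_pos _
        calc Real.exp (β * k) * (3 ^ m * (4 * H + 6)) ≤ Real.exp (β * k) * (3 ^ m * (10 * H)) := by
              apply mul_le_mul_of_nonneg_left _ h7.le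
              exact mul_le_mul_of_nonneg_left h6 h3m.le
          _ = _ := by ring
      have h8 : 3 ^ m * 10 * (8 / ε) ≤ (N : ℝ) ^ (δ' / 2) := by
        refine le_trans ?_ hN2
        apply mul_le_mul_of_nonneg_right _ (by positivity)
        have : (0 : ℝ) ≤ 9 * 2 ^ K := by positivity
        linarith
      have h9 : 3 ^ m * 10 * (8 / ε) * (N : ℝ) ^ (1 - δ' / 2) ≤ N := by
        calc 3 ^ m * 10 * (8 / ε) * (N : ℝ) ^ (1 - δ' / 2) ≤ (N : ℝ) ^ (δ' / 2) * (N : ℝ) ^ (1 - δ' / 2) :=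
              mul_le_mul_of_nonneg_right h8 (by positivity)
          _ = N := by
              rw [← Real.rpow_add hN0, show δ' / 2 + (1 - δ' / 2) = 1 by ring, Real.rpow_one]
      calc Real.exp (β * k) * (3 ^ m * (4 * H + 6)) ≤ 3 ^ m * 10 * (Real.exp (β * k) * H) := h5
        _ ≤ 3 ^ m * 10 * (N : ℝ) ^ (1 - δ' / 2) := mul_le_mul_of_nonneg_left hexp (by positivity)
        _ = ε / 8 * (3 ^ m * 10 * (8 / ε) * (N : ℝ) ^ (1 - δ' / 2)) := by field_simp
        _ ≤ _ := mul_le_mul_of_nonneg_left h9 (by positivity)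
    have herr2 : 2 * 3 ^ m * X * bin k (fun j => if (j : ℝ) < c₀ * k then 1 else 0) ≤ ε / 8 * N := by
      have h5 := hρ k
      have h6 := hK₁ k ((le_max_right _ _).trans hge)
      have h7 : 0 ≤ bin k (fun j => if (j : ℝ) < c₀ * k then (1 : ℝ) else 0) :=
        bin_nonneg k fun j _ => by split_ifs <;> norm_num
      calc 2 * 3 ^ m * X * bin k (fun j => if (j : ℝ) < c₀ * k then 1 else 0)
          ≤ 2 * 3 ^ m * (2 * N) * ρ₀ ^ k := by
            apply mul_le_mul _ h5 h7 (by positivity)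
            exact mul_le_mul_of_nonneg_left hX2 (by positivity)
        _ = (4 * 3 ^ m * ρ₀ ^ k) * N := by ring
        _ ≤ _ := mul_le_mul_of_nonneg_right h6 hN0.le
    have hbin1 : |bin k (fun J => mn (G J) H)| ≤ 1 := bin_abs_const k fun j _ => mn_abs_le (hG j) hH
    have hXNb : |X * bin k (fun J => mn (G J) H) - N * bin k (fun J => mn (G J) H)| ≤ ε / 8 * N := by
      rw [← sub_mul, abs_mul]
      have h5 : |X - N| ≤ 1 := by rw [abs_le]; constructor <;> linarith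
      have h6 : (1 : ℝ) ≤ ε / 8 * N := by
        rw [div_le_iff₀ hε] at hN3
        linarith
      calc |X - N| * |bin k (fun J => mn (G J) H)| ≤ 1 * 1 := mul_le_mul h5 hbin1 (abs_nonneg _) zero_le_one
        _ ≤ _ := by linarith
    have b1 := abs_le.1 h1
    have b2 := abs_le.1 h2
    have b3 := abs_le.1 hXNb
    have hεN : 0 < ε * N := by positivity
    rw [abs_le]
    constructor <;> linarith [b1.1, b1.2, b2.1, b2.2, b3.1, b3.2]

end Pool.Agent.W5h47.TV
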