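import Pool.Agent.W5h47.TV.I

/-! The law of the iterates, part J: slowly varying functions and leading digits. -/

set_option autoImplicit false

namespace Pool.Agent.W5h47.TV

open Pool.Agent.H320R2.PD Finset Filter Topology
open Pool.Agent.H499R2.CO (Tz)
open Pool.Agent.R344.SP
open Pool.Agent.W5h47.SL

/-- slowly varying times periodic -/
theorem slow_per {d : ℤ} (hd : d % 2 = 1) (hd3 : IsCoprime d 3) {κ : ℝ} (hκ : κ < 2 / Real.log (4 / 3))
    {ε : ℝ} (hε : 0 < ε) {H : ℕ} (hH : 1 ≤ H) (hc3 : Nat.Coprime 3 H) {C : ℝ} (hC : 0 ≤ C) :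
    ∃ N₀ : ℕ, ∀ N ≥ N₀, ∀ k : ℕ, (k : ℝ) ≤ κ * Real.log N → ∀ s : ℤ, (s = 1 ∨ s = -1) →
      ∀ f g : ℤ → ℝ, (∀ x, |f x| ≤ 1) → (∀ x, |g x| ≤ 1) → (∀ x z, g (x + H * z) = g x) →
      (∀ x : ℤ, 0 < x → ∀ i : ℕ, |f (s * (x + i)) - f (s * x)| ≤ C * i / x) →
        |St d s N k (fun y => f y * g y) - mn g H * St d s N k f| ≤ ε * N := by
  obtain ⟨m, δ, hδ, h⟩ := core2 hd hd3 hκ (ε := ε / 2) (by positivity)
  have h3m : (0 : ℝ) < 3 ^ m := by positivity
  have hH0 : (0 : ℝ) < H := by exact_mod_cast hH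
  set B : ℝ := 2 * (H + 1) + 2 * (C * H) with hB
  have hB0 : 0 < B := by rw [hB]; positivity
  obtain ⟨N₀, hN₀⟩ := h (3 ^ m + B * 3 ^ m / δ)
  refine ⟨N₀, fun N hN k hk s hs f g hf hg hper hslow => ?_⟩
  have hmn : |mn g H| ≤ 1 := mn_abs_le hg hH
  set Ψ : ℤ → ℝ := fun y => f y * ((g y - mn g H) / 2) with hΨ
  have hg1 : ∀ y, |(g y - mn g H) / 2| ≤ 1 := by
    intro y
    rw [abs_div, abs_two, div_le_one (by norm_num)]
    exact (abs_sub _ _).trans (by linarith [hg y])
  have hΨ1 : ∀ y, |Ψ y| ≤ 1 := by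
    intro y
    rw [hΨ]; dsimp only
    rw [abs_mul]
    calc |f y| * |(g y - mn g H) / 2| ≤ 1 * 1 := mul_le_mul (hf y) (hg1 y) (abs_nonneg _) zero_le_one
      _ = 1 := one_mul 1
  have hP : Pm m δ (3 ^ m + B * 3 ^ m / δ) (fun x => Ψ (s * x)) := by
    intro L hL b
    have hL3 : (3 : ℝ) ^ m ≤ L := by
      have : 0 < B * 3 ^ m / δ := by positivity
      linarith
    have hL0 : 0 < L := h3m.trans_le hL3
    set φ : ℤ → ℝ := fun x => Ψ (s * x) with hφ
    have hφ1 : ∀ x, |φ x| ≤ 1 := fun x => hΨ1 _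
    have hi : ∀ i : ℕ, i ∈ range H → |∑ x ∈ cl L (2 * L) m 1 b, φ x - ∑ x ∈ cl L (2 * L) m 1 b, φ (x + 3 ^ m * i)|
        ≤ 2 * (H + 1) := by
      intro i hi
      rw [mem_range] at hi
      have hq : (3 : ℤ) ^ m ∣ 3 ^ m * i := dvd_mul_right _ _
      rw [cl_shift φ L (2 * L) m b _ hq]
      have h1 := shift_sum hφ1 (a := L) (a' := L + ((3 ^ m * i : ℤ) : ℝ)) (b := 2 * L)
        (b' := 2 * L + ((3 ^ m * i : ℤ) : ℝ)) (K := 3 ^ m * i)
        (by rw [sub_add_cancel_left, abs_neg]; push_cast; rw [abs_of_nonneg (by positivity)])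
        (by rw [sub_add_cancel_left, abs_neg]; push_cast; rw [abs_of_nonneg (by positivity)]) m
        isCoprime_one_left b
      refine h1.trans ?_
      rw [mul_div_cancel_left₀ _ h3m.ne']
      have : (i : ℝ) ≤ H := by exact_mod_cast hi.le
      linarith
    have hx : ∀ x ∈ cl L (2 * L) m 1 b, |∑ i ∈ range H, φ (x + 3 ^ m * i)| ≤ H * (C * (3 ^ m * H) / L) := by
      intro x hx
      rw [mem_cl] at hx
      have hxL : L ≤ (x : ℝ) := hx.1.1
      have hx0 : (0 : ℤ) < x := by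
        have : (0 : ℝ) < x := hL0.trans_le hxL
        exact_mod_cast this
      have hzero : ∑ i ∈ range H, f (s * x) * ((g (s * (x + 3 ^ m * i)) - mn g H) / 2) = 0 := by
        rw [← mul_sum, ← sum_div, sum_sub_distrib]
        have hcop : IsCoprime (s * 3 ^ m) (H : ℤ) := by
          apply IsCoprime.mul_left _ (cop3 hc3)
          rcases hs with rfl | rfl
          · exact isCoprime_one_left
          · exact isCoprime_one_left.neg_left
        have e1 := cover_sum hH hper hcop (s * x)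
        have e2 : ∑ i ∈ range H, g (s * (x + 3 ^ m * i)) = ∑ i ∈ range H, g (s * x + s * 3 ^ m * i) := by
          apply sum_congr rfl
          intro i _
          congr 1; ring
        rw [e2, e1, sum_const, card_range, nsmul_eq_mul, mn]
        field_simp
        simp
      have e3 : ∑ i ∈ range H, φ (x + 3 ^ m * i)
          = ∑ i ∈ range H, (f (s * (x + 3 ^ m * i)) - f (s * x)) * ((g (s * (x + 3 ^ m * i)) - mn g H) / 2) := by
        simp only [sub_mul]
        rw [sum_sub_distrib, hzero, sub_zero]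
      rw [e3]
      refine (abs_sum_le_sum_abs _ _).trans ?_
      calc ∑ i ∈ range H, |(f (s * (x + 3 ^ m * i)) - f (s * x)) * ((g (s * (x + 3 ^ m * i)) - mn g H) / 2)|
          ≤ ∑ _i ∈ range H, C * (3 ^ m * H) / L := by
            apply sum_le_sum
            intro i hi
            rw [mem_range] at hi
            have hiH : (i : ℝ) ≤ H := by exact_mod_cast hi.le
            rw [abs_mul]
            have h5 := hslow x hx0 (3 ^ m * i)
            push_cast at h5
            have h6 : C * (3 ^ m * i) / x ≤ C * (3 ^ m * H) / L := by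
              apply div_le_div₀ (by positivity) _ hL0 hxL
              exact mul_le_mul_of_nonneg_left (mul_le_mul_of_nonneg_left hiH h3m.le) hC
            calc |f (s * (x + 3 ^ m * i)) - f (s * x)| * |(g (s * (x + 3 ^ m * i)) - mn g H) / 2|
                ≤ C * (3 ^ m * H) / L * 1 := mul_le_mul (h5.trans h6) (hg1 _) (abs_nonneg _) (by positivity)
              _ = _ := mul_one _
        _ = _ := by rw [sum_const, card_range, nsmul_eq_mul]
    have hsum : (H : ℝ) * ∑ x ∈ cl L (2 * L) m 1 b, φ x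
        = ∑ i ∈ range H, (∑ x ∈ cl L (2 * L) m 1 b, φ x - ∑ x ∈ cl L (2 * L) m 1 b, φ (x + 3 ^ m * i))
          + ∑ x ∈ cl L (2 * L) m 1 b, ∑ i ∈ range H, φ (x + 3 ^ m * i) := by
      rw [sum_sub_distrib, sum_const, card_range, nsmul_eq_mul, sum_comm (s := range H)]
      ring
    have hcard : ((cl L (2 * L) m 1 b).card : ℝ) ≤ 2 * (L / 3 ^ m) := by
      have := (abs_le.1 (cl_card (m := m) hL0.le b)).2
      have h6 : 1 ≤ L / 3 ^ m := by rw [le_div_iff₀ h3m, one_mul]; exact hL3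
      linarith
    have h2 : |(H : ℝ) * ∑ x ∈ cl L (2 * L) m 1 b, φ x| ≤ H * B := by
      rw [hsum]
      refine (abs_add_le _ _).trans ?_
      have p1 : |∑ i ∈ range H, (∑ x ∈ cl L (2 * L) m 1 b, φ x - ∑ x ∈ cl L (2 * L) m 1 b, φ (x + 3 ^ m * i))|
          ≤ H * (2 * (H + 1)) := by
        refine (abs_sum_le_sum_abs _ _).trans ((sum_le_sum hi).trans (le_of_eq ?_))
        rw [sum_const, card_range, nsmul_eq_mul]
      have p2 : |∑ x ∈ cl L (2 * L) m 1 b, ∑ i ∈ range H, φ (x + 3 ^ m * i)| ≤ H * (2 * (C * H)) := by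
        refine (abs_sum_le_sum_abs _ _).trans ((sum_le_sum hx).trans ?_)
        rw [sum_const, nsmul_eq_mul]
        calc ((cl L (2 * L) m 1 b).card : ℝ) * (H * (C * (3 ^ m * H) / L))
            ≤ 2 * (L / 3 ^ m) * (H * (C * (3 ^ m * H) / L)) := mul_le_mul_of_nonneg_right hcard (by positivity)
          _ = _ := by field_simp
      rw [hB]
      linarith
    rw [abs_mul, abs_of_pos hH0] at h2
    have h3 := le_of_mul_le_mul_left h2 hH0
    refine h3.trans ?_
    have h7 : B * 3 ^ m / δ ≤ L := by linarith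
    rw [div_le_iff₀ hδ] at h7
    rw [le_div_iff₀ h3m]
    linarith
  have h8 := hN₀ N hN k hk s hs Ψ hΨ1 hP
  have e1 : St d s N k Ψ = (St d s N k (fun y => f y * g y) - mn g H * St d s N k f) / 2 := by
    unfold St
    rw [mul_sum, ← sum_sub_distrib, sum_div]
    apply sum_congr rfl
    intro n _
    rw [hΨ]; dsimp only
    ring
  rw [e1, abs_div, abs_two, div_le_iff₀ (by norm_num)] at h8
  linarith

/-- the iterates of large numbers are large -/
theorem few_small {d : ℤ} (hd : d % 2 = 1) (hd3 : IsCoprime d 3) {κ : ℝ} (hκ : κ < 2 / Real.log (4 / 3))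
    {ε : ℝ} (hε : 0 < ε) (Y : ℝ) :
    ∃ N₀ : ℕ, ∀ N ≥ N₀, ∀ k : ℕ, (k : ℝ) ≤ κ * Real.log N → ∀ s : ℤ, (s = 1 ∨ s = -1) →
      St d s N k (fun y => if ((s * y : ℤ) : ℝ) < Y then 1 else 0) ≤ ε * N := by
  obtain ⟨m, δ, hδ, h⟩ := core2 hd hd3 hκ hε
  obtain ⟨N₀, hN₀⟩ := h (max Y 0)
  refine ⟨N₀, fun N hN k hk s hs => ?_⟩
  refine (le_abs_self _).trans (hN₀ N hN k hk s hs _ (fun x => by split_ifs <;> simp) ?_)
  intro L hL b
  have hL0 : 0 ≤ L := (le_max_right _ _).trans hL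
  have : ∑ x ∈ cl L (2 * L) m 1 b, (fun x : ℤ => if ((s * (s * x) : ℤ) : ℝ) < Y then (1 : ℝ) else 0) x = 0 := by
    apply sum_eq_zero
    intro x hx
    rw [mem_cl] at hx
    rw [sgn_sq hs, if_neg]
    have h1 := (le_max_left Y 0).trans hL
    linarith [hx.1.1]
  rw [this, abs_zero]
  positivity

/-- the size of the iterates -/
theorem iter_size {d : ℤ} (hd : d % 2 = 1) (t : ℕ) (y : ℤ) :
    |(2 : ℝ) ^ t * ((Tz d)^[t] y : ℤ) - 3 ^ od d t y * y| ≤ |(d : ℝ)| * 4 ^ t := by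
  induction t with
  | zero => simp [od]
  | succ t ih =>
    set x := (Tz d)^[t] y with hx
    rw [Function.iterate_succ_apply', ← hx, od_succ, ← hx]
    have hd0 := abs_nonneg (d : ℝ)
    have h24 : (2 : ℝ) ^ t ≤ 4 ^ t := pow_le_pow_left₀ (by norm_num) (by norm_num) t
    have h4 : (0 : ℝ) < 4 ^ t := by positivity
    by_cases h : x % 2 = 0
    · have e1 : (2 : ℝ) * ((Tz d x : ℤ) : ℝ) = x := by
        have : 2 * Tz d x = x := by unfold Tz; rw [if_pos h]; omega
        exact_mod_cast this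
      have e2 : (x % 2).toNat = 0 := by rw [h]; rfl
      rw [e2, add_zero, pow_succ]
      have e3 : (2 : ℝ) ^ t * 2 * ((Tz d x : ℤ) : ℝ) = 2 ^ t * x := by rw [mul_assoc, e1]
      rw [e3]
      refine ih.trans ?_
      rw [pow_succ]
      nlinarith
    · have h1 : x % 2 = 1 := by omega
      have e1 : (2 : ℝ) * ((Tz d x : ℤ) : ℝ) = 3 * x + d := by
        have : 2 * Tz d x = 3 * x + d := by unfold Tz; rw [if_neg h]; omega
        exact_mod_cast this
      have e2 : (x % 2).toNat = 1 := by rw [h1]; rfl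
      rw [e2]
      have e3 : (2 : ℝ) ^ (t + 1) * ((Tz d x : ℤ) : ℝ) - 3 ^ (od d t y + 1) * y
          = 3 * (2 ^ t * x - 3 ^ od d t y * y) + 2 ^ t * d := by
        rw [pow_succ, mul_assoc, e1]; ring
      rw [e3]
      refine (abs_add_le _ _).trans ?_
      rw [abs_mul, abs_mul, abs_of_pos (by norm_num : (0 : ℝ) < 3), abs_of_pos (by positivity : (0 : ℝ) < 2 ^ t)]
      rw [pow_succ]
      nlinarith

theorem log_ratio {a b : ℝ} (hb : b ≠ 0) (h : |a - b| ≤ |b| / 2) :
    abs (Real.log |a| - Real.log |b|) ≤ 2 * (|a - b| / |b|) := by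
  have hb0 : 0 < |b| := abs_pos.2 hb
  have h1 : abs (|a| - |b|) ≤ |a - b| := abs_abs_sub_abs_le a b
  have h2 := abs_le.1 (h1.trans h)
  have ha0 : 0 < |a| := by linarith [h2.1]
  have h3 := abs_le.1 h1
  set τ := |a - b| / |b| with hτ
  have hτ0 : 0 ≤ τ := by positivity
  have e : Real.log |a| - Real.log |b| = Real.log (|a| / |b|) := (Real.log_div ha0.ne' hb0.ne').symm
  rw [e, abs_le]
  have hr : 0 < |a| / |b| := by positivity
  have up := Real.log_le_sub_one_of_pos hr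
  have lo := Real.one_sub_inv_le_log_of_pos hr
  have hup : |a| / |b| - 1 ≤ τ := by
    rw [hτ, div_sub_one hb0.ne']
    exact div_le_div_of_nonneg_right h3.2 hb0.le
  have hlo : 1 - (|a| / |b|)⁻¹ ≥ -(2 * τ) := by
    rw [inv_div, ge_iff_le, neg_le_sub_iff_le_add, div_le_iff₀ ha0]
    have h5 : |b| - |a| ≤ τ * |b| := by
      rw [hτ, div_mul_cancel₀ _ hb0.ne']
      linarith [h3.1]
    have h6 : |b| ≤ 2 * |a| := by linarith [h2.1]
    nlinarith
  constructor <;> linarith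

/-- the logarithm of an iterate of a large number -/
theorem log_iter {d : ℤ} (hd : d % 2 = 1) (t : ℕ) {ε : ℝ} (hε : 0 < ε) : ∃ Y : ℝ, 1 ≤ Y ∧ ∀ y : ℤ,
    Y ≤ |(y : ℝ)| → |Real.log |(((Tz d)^[t] y : ℤ) : ℝ)|
      - (Real.log |(y : ℝ)| + (od d t y * Real.log 3 - t * Real.log 2))| ≤ ε := by
  set D : ℝ := (|(d : ℝ)| + 1) * 4 ^ t with hD
  have hD0 : 0 < D := by rw [hD]; positivity
  refine ⟨1 + 2 * D + 2 * D / ε, ?_, fun y hy => ?_⟩
  · have : 0 < 2 * D / ε := by positivity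
    linarith
  have h2D : 0 < 2 * D / ε := by positivity
  have hy0 : 0 < |(y : ℝ)| := by linarith
  have hyne : (y : ℝ) ≠ 0 := abs_pos.1 hy0
  have h2t : (0 : ℝ) < 2 ^ t := by positivity
  set o := od d t y with ho
  have h3o : (1 : ℝ) ≤ 3 ^ o := one_le_pow₀ (by norm_num)
  set a : ℝ := (((Tz d)^[t] y : ℤ) : ℝ) with ha
  set b : ℝ := 3 ^ o * y / 2 ^ t with hb
  have hbne : b ≠ 0 := by rw [hb]; positivity
  have hbabs : |b| = 3 ^ o * |(y : ℝ)| / 2 ^ t := by
    rw [hb, abs_div, abs_mul, abs_of_pos h2t, abs_of_pos (by positivity : (0 : ℝ) < 3 ^ o)]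
  have hbge : |(y : ℝ)| / 2 ^ t ≤ |b| := by
    rw [hbabs]
    apply div_le_div_of_nonneg_right _ h2t.le
    exact le_mul_of_one_le_left hy0.le h3o
  have hab : |a - b| ≤ D / 2 ^ t := by
    have h1 := iter_size hd t y
    have e1 : a - b = (2 ^ t * a - 3 ^ o * y) / 2 ^ t := by rw [hb]; field_simp
    rw [e1, abs_div, abs_of_pos h2t]
    apply div_le_div_of_nonneg_right _ h2t.le
    refine h1.trans ?_
    rw [hD]
    apply mul_le_mul_of_nonneg_right _ (by positivity)
    linarith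
  have hab2 : |a - b| ≤ |b| / 2 := by
    refine hab.trans ?_
    have : D / 2 ^ t ≤ |(y : ℝ)| / 2 ^ t / 2 := by
      rw [div_div, div_le_div_iff₀ h2t (by positivity)]
      have h5 : 2 * D ≤ |(y : ℝ)| := by linarith
      nlinarith
    linarith
  have h1 := log_ratio hbne hab2
  have hlogb : Real.log |b| = Real.log |(y : ℝ)| + (o * Real.log 3 - t * Real.log 2) := by
    rw [hbabs, Real.log_div (by positivity) (by positivity), Real.log_mul (by positivity) (by positivity),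
      Real.log_pow, Real.log_pow]
    ring
  rw [hlogb] at h1
  refine h1.trans ?_
  have h6 : |a - b| / |b| ≤ (D / 2 ^ t) / (|(y : ℝ)| / 2 ^ t) := by
    apply div_le_div₀ (by positivity) hab (by positivity) hbge
  have h7 : (D / 2 ^ t) / (|(y : ℝ)| / 2 ^ t) = D / |(y : ℝ)| := by field_simp
  rw [h7] at h6
  have h8 : 2 * (D / |(y : ℝ)|) ≤ ε := by
    have h9 : 2 * D / ε ≤ |(y : ℝ)| := by linarith
    rw [div_le_iff₀ hε] at h9
    rw [← mul_div_assoc, div_le_iff₀ hy0]
    linarith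
  linarith

end Pool.Agent.W5h47.TV
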