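import Pool.Agent.W5h47.TV.J
import Pool.Agent.R485.Trans.Saw

/-! The law of the iterates, part K: oscillating functions of the logarithm; leading digits. -/

set_option autoImplicit false

namespace Pool.Agent.W5h47.TV

open Pool.Agent.H320R2.PD Finset Filter Topology
open Pool.Agent.H499R2.CO (Tz)
open Pool.Agent.R344.SP
open Pool.Agent.W5h47.SL

theorem bin_cos (α : ℝ) : ∀ (t : ℕ) (ψ : ℝ),
    bin t (fun i => Real.cos (ψ + i * α)) = Real.cos (α / 2) ^ t * Real.cos (ψ + t * α / 2)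
  | 0, ψ => by simp [bin_zero]
  | t + 1, ψ => by
    rw [bin_succ, bin_cos α t ψ]
    have e : (fun i : ℕ => Real.cos (ψ + ((i + 1 : ℕ) : ℝ) * α)) = fun i : ℕ => Real.cos ((ψ + α) + i * α) := by
      funext i
      congr 1
      push_cast; ring
    rw [e, bin_cos α t (ψ + α)]
    have e1 : ψ + t * α / 2 = (ψ + ((t + 1 : ℕ) : ℝ) * α / 2) - α / 2 := by push_cast; ring
    have e2 : ψ + α + t * α / 2 = (ψ + ((t + 1 : ℕ) : ℝ) * α / 2) + α / 2 := by push_cast; ring
    have key : ∀ A : ℝ, (Real.cos (α / 2) ^ t * Real.cos (A - α / 2) + Real.cos (α / 2) ^ t * Real.cos (A + α / 2)) / 2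
        = Real.cos (α / 2) ^ (t + 1) * Real.cos A := by
      intro A
      rw [Real.cos_sub, Real.cos_add, pow_succ]
      ring
    rw [e1, e2]
    exact key _

/-- the phase -/
noncomputable def ph (θ φ : ℝ) (S : ℕ) (o : ℕ) : ℝ := φ + θ * (o * Real.log 3 - S * Real.log 2)

/-- the periodic factor -/
noncomputable def PF (d : ℤ) (g : ℤ → ℝ) (θ φ : ℝ) (a u v : ℕ) (y : ℤ) : ℝ :=
  Real.cos (ph θ φ (v + u) (od d (v + u) y)) * FD d g a u ((Tz d)^[v] y)

theorem PF_abs (d : ℤ) {g : ℤ → ℝ} (hg : ∀ x, |g x| ≤ 1) (θ φ : ℝ) (a u v : ℕ) (y : ℤ) :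
    |PF d g θ φ a u v y| ≤ 1 := by
  unfold PF
  rw [abs_mul]
  have h1 := Real.abs_cos_le_one (ph θ φ (v + u) (od d (v + u) y))
  have h2 : |FD d g a u ((Tz d)^[v] y)| ≤ 1 := by
    unfold FD
    split_ifs
    · exact hg _
    · simp
  calc _ ≤ (1 : ℝ) * 1 := mul_le_mul h1 h2 (abs_nonneg _) zero_le_one
    _ = 1 := one_mul 1

theorem PF_per {d : ℤ} (hd : d % 2 = 1) {g : ℤ → ℝ} {a M : ℕ}
    (hh : ∀ x z, g (x + (3 ^ a * M : ℕ) * z) = g x) (θ φ : ℝ) (u v : ℕ) (x z : ℤ) :
    PF d g θ φ a u v (x + (2 ^ v * (2 ^ u * M) : ℕ) * z) = PF d g θ φ a u v x := by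
  unfold PF
  have e1 : x + (2 ^ v * (2 ^ u * M) : ℕ) * z = x + 2 ^ (v + u) * (M * z) := by push_cast; ring
  have e2 : x + (2 ^ v * (2 ^ u * M) : ℕ) * z = x + 2 ^ v * (2 ^ u * (M * z)) := by push_cast; ring
  have h1 : od d (v + u) (x + (2 ^ v * (2 ^ u * M) : ℕ) * z) = od d (v + u) x := by
    rw [e1, od_shift_d hd]
  have h2 : FD d g a u ((Tz d)^[v] (x + (2 ^ v * (2 ^ u * M) : ℕ) * z)) = FD d g a u ((Tz d)^[v] x) := by
    rw [e2, iter_shift_d hd]
    have e3 : (Tz d)^[v] x + 3 ^ od d v x * (2 ^ u * (M * z))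
        = (Tz d)^[v] x + (2 ^ u * M : ℕ) * (3 ^ od d v x * z) := by push_cast; ring
    rw [e3, FD_per hd hh]
  rw [h1, h2]

theorem PF_mean {d : ℤ} (hd : d % 2 = 1) {g : ℤ → ℝ} (hg : ∀ x, |g x| ≤ 1) {a M : ℕ} (hM : 1 ≤ M)
    (hc3 : Nat.Coprime 3 M) (hh : ∀ x z, g (x + (3 ^ a * M : ℕ) * z) = g x) (θ φ : ℝ) (u v : ℕ) :
    |mn (PF d g θ φ a u v) (2 ^ v * (2 ^ u * M))| ≤ |Real.cos (θ * Real.log 3 / 2)| ^ v := by
  set H := 2 ^ u * M with hH
  have hH1 : 1 ≤ H := Nat.mul_pos (Nat.two_pow_pos u) hM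
  have hHc : Nat.Coprime 3 H := cop2' (j := u) hc3
  have hH0 : (0 : ℝ) < H := by exact_mod_cast hH1
  set f : ℕ → ℤ → ℝ := fun i w => Real.cos (ph θ φ (v + u) (i + od d u w)) * FD d g a u w with hf
  have hfper : ∀ i x z, f i (x + H * z) = f i x := by
    intro i x z
    rw [hf]; dsimp only
    have e1 : x + (H : ℕ) * z = x + 2 ^ u * (M * z) := by rw [hH]; push_cast; ring
    have h1 : od d u (x + (H : ℕ) * z) = od d u x := by rw [e1, od_shift_d hd]
    have h2 : FD d g a u (x + (H : ℕ) * z) = FD d g a u x := by rw [hH]; exact FD_per hd hh x z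
    rw [h1, h2]
  have hp := mn_push hd hH1 hHc v f hfper
  have e0 : (fun x => f (od d v x) ((Tz d)^[v] x)) = PF d g θ φ a u v := by
    funext x
    rw [hf]; dsimp only
    unfold PF
    rw [od_add]
  rw [e0] at hp
  rw [hp]
  have h2 : bin v (fun i => mn (f i) H) = (∑ z ∈ range H, bin v (fun i => f i z)) / (H : ℝ) := by
    unfold mn
    have e : (fun i => (∑ z ∈ range H, f i (z : ℤ)) / (H : ℝ))
        = fun i => ((H : ℝ))⁻¹ * ∑ z ∈ range H, f i (z : ℤ) := by
      funext i; rw [div_eq_inv_mul]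
    rw [e, bin_mul, bin_sum (range H) (fun z i => f i (z : ℤ)), div_eq_inv_mul]
  rw [h2, abs_div, abs_of_pos hH0, div_le_iff₀ hH0]
  refine (abs_sum_le_sum_abs _ _).trans ?_
  calc ∑ z ∈ range H, |bin v (fun i => f i z)| ≤ ∑ _z ∈ range H, |Real.cos (θ * Real.log 3 / 2)| ^ v := by
        apply sum_le_sum
        intro z _
        have e3 : (fun i => f i (z : ℤ)) = fun i : ℕ => FD d g a u z
            * Real.cos ((φ + θ * (od d u z * Real.log 3 - (v + u : ℕ) * Real.log 2)) + i * (θ * Real.log 3)) := by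
          funext i
          rw [hf]; dsimp only
          rw [mul_comm]
          congr 2
          unfold ph
          push_cast; ring
        rw [e3, bin_mul, bin_cos, abs_mul, abs_mul, abs_pow]
        have h4 : |FD d g a u z| ≤ 1 := by
          unfold FD
          split_ifs
          · exact hg _
          · simp
        have h5 := Real.abs_cos_le_one (φ + θ * (od d u z * Real.log 3 - (v + u : ℕ) * Real.log 2)
          + v * (θ * Real.log 3) / 2)
        have h6 : 0 ≤ |Real.cos (θ * Real.log 3 / 2)| ^ v := by positivity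
        calc _ ≤ 1 * (|Real.cos (θ * Real.log 3 / 2)| ^ v * 1) := by
              apply mul_le_mul h4 _ (by positivity) zero_le_one
              exact mul_le_mul_of_nonneg_left h5 h6
          _ = _ := by ring
    _ = _ := by rw [sum_const, card_range, nsmul_eq_mul]; ring

theorem slow_cos {s : ℤ} (hs : s = 1 ∨ s = -1) (θ φ : ℝ) (x : ℤ) (hx : 0 < x) (i : ℕ) :
    |Real.cos (θ * Real.log |((s * (x + i) : ℤ) : ℝ)| + φ) - Real.cos (θ * Real.log |((s * x : ℤ) : ℝ)| + φ)|
      ≤ |θ| * i / x := by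
  have hx0 : (0 : ℝ) < x := by exact_mod_cast hx
  have e1 : |((s * (x + i) : ℤ) : ℝ)| = x + i := by
    rcases hs with rfl | rfl <;> push_cast
    · rw [one_mul, abs_of_pos (by positivity)]
    · rw [neg_one_mul, abs_neg, abs_of_pos (by positivity)]
  have e2 : |((s * x : ℤ) : ℝ)| = x := by
    rcases hs with rfl | rfl <;> push_cast
    · rw [one_mul, abs_of_pos hx0]
    · rw [neg_one_mul, abs_neg, abs_of_pos hx0]
  rw [e1, e2]
  refine (Real.abs_cos_sub_cos_le _ _).trans ?_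
  have e3 : θ * Real.log (x + i) + φ - (θ * Real.log x + φ) = θ * Real.log ((x + i) / x) := by
    rw [Real.log_div (by positivity) hx0.ne']; ring
  rw [e3, abs_mul, mul_div_assoc]
  apply mul_le_mul_of_nonneg_left _ (abs_nonneg _)
  have h1 : (1 : ℝ) ≤ (x + i) / x := by
    rw [le_div_iff₀ hx0]
    have : (0 : ℝ) ≤ i := by positivity
    linarith
  rw [abs_of_nonneg (Real.log_nonneg h1)]
  refine (Real.log_le_sub_one_of_pos (by positivity)).trans (le_of_eq ?_)
  field_simp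
  ring

/-- OSCILLATING FUNCTIONS OF THE LOGARITHM, every time -/
theorem osc {d : ℤ} (hd : d % 2 = 1) (hd3 : IsCoprime d 3) {κ : ℝ} (hκ : κ < 2 / Real.log (4 / 3))
    {θ : ℝ} (hcos : |Real.cos (θ * Real.log 3 / 2)| < 1) {ε : ℝ} (hε : 0 < ε) {a M : ℕ} (hM : 1 ≤ M)
    (hc3 : Nat.Coprime 3 M) :
    ∃ K₀ N₀ : ℕ, ∀ N ≥ N₀, ∀ k : ℕ, K₀ ≤ k → (k : ℝ) ≤ κ * Real.log N → ∀ s : ℤ, (s = 1 ∨ s = -1) →
      ∀ (φ : ℝ) (g : ℤ → ℝ), (∀ x, |g x| ≤ 1) → (∀ x z, g (x + (3 ^ a * M : ℕ) * z) = g x) →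
        |St d s N k (fun y => Real.cos (θ * Real.log |(y : ℝ)| + φ) * g y)| ≤ ε * N := by
  classical
  set e : ℝ := ε / 10 with he
  have he0 : 0 < e := by positivity
  obtain ⟨u, hu⟩ : ∃ u : ℕ, dlD d a u ≤ e := by
    obtain ⟨u, hu⟩ := ((dlD_tendsto hd a).eventually (gt_mem_nhds he0)).exists
    exact ⟨u, hu.le⟩
  obtain ⟨v, hv⟩ : ∃ v : ℕ, |Real.cos (θ * Real.log 3 / 2)| ^ v ≤ e := by
    obtain ⟨v, hv⟩ := exists_pow_lt_of_lt_one he0 hcos
    exact ⟨v, hv.le⟩
  set S := v + u with hS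
  set H := 2 ^ v * (2 ^ u * M) with hH
  have hH1 : 1 ≤ H := Nat.mul_pos (Nat.two_pow_pos v) (Nat.mul_pos (Nat.two_pow_pos u) hM)
  have hHc : Nat.Coprime 3 H := cop2' (j := v) (cop2' (j := u) hc3)
  obtain ⟨Y, hY1, hY⟩ := log_iter hd S (ε := e / (|θ| + 1)) (by positivity)
  obtain ⟨N₁, h1⟩ := slow_per hd hd3 hκ he0 hH1 hHc (C := |θ|) (abs_nonneg _)
  obtain ⟨N₂, h2⟩ := few_small hd hd3 hκ he0 Y
  obtain ⟨N₃, h3⟩ := per_law hd hd3 hκ he0 (H := 2 ^ u) Nat.one_le_two_pow (cop2s u)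
  refine ⟨S, max N₁ (max N₂ N₃), fun N hN k hkS hk s hs φ g hg hper => ?_⟩
  have hN1 : N₁ ≤ N := (le_max_left _ _).trans hN
  have hN2 : N₂ ≤ N := ((le_max_left _ _).trans (le_max_right _ _)).trans hN
  have hN3 : N₃ ≤ N := ((le_max_right _ _).trans (le_max_right _ _)).trans hN
  have hN0 : (0 : ℝ) ≤ N := by positivity
  set k' := k - S with hk'
  have hkk : S + k' = k := by omega
  have hk'le : (k' : ℝ) ≤ κ * Real.log N := by
    refine le_trans ?_ hk
    exact_mod_cast Nat.sub_le k S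
  have hvk : ((v + k' : ℕ) : ℝ) ≤ κ * Real.log N := by
    refine le_trans ?_ hk
    exact_mod_cast (by omega : v + k' ≤ k)
  have hθ1 : 0 < |θ| + 1 := by positivity
  -- the functions
  set c1 : ℤ → ℝ := fun y => Real.cos (θ * Real.log |(y : ℝ)| + 0) with hc1
  set c2 : ℤ → ℝ := fun y => Real.cos (θ * Real.log |(y : ℝ)| + -(Real.pi / 2)) with hc2
  set P1 := PF d g θ φ a u v with hP1
  set P2 := PF d g θ (φ + -(Real.pi / 2)) a u v with hP2
  set q1 : ℤ → ℝ := fun y => if ((s * y : ℤ) : ℝ) < Y then 1 else 0 with hq1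
  set q2 : ℤ → ℝ := fun y => if od d u ((Tz d)^[v] y) < a then 1 else 0 with hq2
  have hc11 : ∀ y, |c1 y| ≤ 1 := fun y => Real.abs_cos_le_one _
  have hc21 : ∀ y, |c2 y| ≤ 1 := fun y => Real.abs_cos_le_one _
  have hP11 : ∀ y, |P1 y| ≤ 1 := PF_abs d hg θ φ a u v
  have hP21 : ∀ y, |P2 y| ≤ 1 := PF_abs d hg θ _ a u v
  have hpt : ∀ y : ℤ, |Real.cos (θ * Real.log |(((Tz d)^[S] y : ℤ) : ℝ)| + φ) * g ((Tz d)^[S] y)
      - (c1 y * P1 y - c2 y * P2 y)| ≤ e + 3 * q1 y + q2 y := by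
    intro y
    have hq1n : 0 ≤ q1 y := by rw [hq1]; dsimp only; split_ifs <;> norm_num
    have hq2n : 0 ≤ q2 y := by rw [hq2]; dsimp only; split_ifs <;> norm_num
    have hcg : |Real.cos (θ * Real.log |(((Tz d)^[S] y : ℤ) : ℝ)| + φ) * g ((Tz d)^[S] y)| ≤ 1 := by
      rw [abs_mul]
      calc _ ≤ (1 : ℝ) * 1 := mul_le_mul (Real.abs_cos_le_one _) (hg _) (abs_nonneg _) zero_le_one
        _ = 1 := one_mul 1
    by_cases hy : ((s * y : ℤ) : ℝ) < Y
    · have e1 : q1 y = 1 := by rw [hq1]; dsimp only; rw [if_pos hy]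
      have p1 : |c1 y * P1 y| ≤ 1 := by
        rw [abs_mul]
        calc _ ≤ (1 : ℝ) * 1 := mul_le_mul (hc11 y) (hP11 y) (abs_nonneg _) zero_le_one
          _ = 1 := one_mul 1
      have p2 : |c2 y * P2 y| ≤ 1 := by
        rw [abs_mul]
        calc _ ≤ (1 : ℝ) * 1 := mul_le_mul (hc21 y) (hP21 y) (abs_nonneg _) zero_le_one
          _ = 1 := one_mul 1
      rw [e1]
      have b1 := abs_le.1 hcg
      have b2 := abs_le.1 p1
      have b3 := abs_le.1 p2
      rw [abs_le]
      constructor <;> linarith [b1.1, b1.2, b2.1, b2.2, b3.1, b3.2]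
    · by_cases ho : od d u ((Tz d)^[v] y) < a
      · have e1 : q2 y = 1 := by rw [hq2]; dsimp only; rw [if_pos ho]
        have eP1 : P1 y = 0 := by
          rw [hP1]; unfold PF FD; rw [if_neg (by omega), mul_zero]
        have eP2 : P2 y = 0 := by
          rw [hP2]; unfold PF FD; rw [if_neg (by omega), mul_zero]
        rw [e1, eP1, eP2, mul_zero, mul_zero, sub_self, sub_zero]
        linarith
      · have hyabs : Y ≤ |(y : ℝ)| := by
          refine (not_lt.1 hy).trans ?_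
          rcases hs with rfl | rfl
          · push_cast; rw [one_mul]; exact le_abs_self _
          · push_cast; rw [neg_one_mul]; exact neg_le_abs _
        have hlog := hY y hyabs
        have hit : (Tz d)^[S] y = (Tz d)^[u] ((Tz d)^[v] y) := by
          rw [hS, add_comm v u, Function.iterate_add_apply]
        have hFDg : FD d g a u ((Tz d)^[v] y) = g ((Tz d)^[S] y) := by
          unfold FD; rw [if_pos (by omega), hit]
        have eP : c1 y * P1 y - c2 y * P2 y
            = Real.cos (θ * Real.log |(y : ℝ)| + ph θ φ S (od d S y)) * g ((Tz d)^[S] y) := by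
          rw [hP1, hP2]
          unfold PF
          rw [hFDg, ← hS]
          have e2 : ph θ (φ + -(Real.pi / 2)) S (od d S y) = ph θ φ S (od d S y) - Real.pi / 2 := by
            unfold ph; ring
          rw [e2, hc1, hc2]; dsimp only
          rw [add_zero, ← sub_eq_add_neg, Real.cos_sub_pi_div_two, Real.cos_sub_pi_div_two,
            Real.cos_add]
          ring
        rw [eP, ← sub_mul, abs_mul]
        have h5 : |Real.cos (θ * Real.log |(((Tz d)^[S] y : ℤ) : ℝ)| + φ)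
            - Real.cos (θ * Real.log |(y : ℝ)| + ph θ φ S (od d S y))| ≤ e := by
          refine (Real.abs_cos_sub_cos_le _ _).trans ?_
          have e3 : θ * Real.log |(((Tz d)^[S] y : ℤ) : ℝ)| + φ - (θ * Real.log |(y : ℝ)| + ph θ φ S (od d S y))
              = θ * (Real.log |(((Tz d)^[S] y : ℤ) : ℝ)|
                - (Real.log |(y : ℝ)| + (od d S y * Real.log 3 - S * Real.log 2))) := by
            unfold ph; ring
          rw [e3, abs_mul]
          calc |θ| * _ ≤ |θ| * (e / (|θ| + 1)) := mul_le_mul_of_nonneg_left hlog (abs_nonneg _)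
            _ ≤ (|θ| + 1) * (e / (|θ| + 1)) := by
                apply mul_le_mul_of_nonneg_right _ (by positivity)
                linarith
            _ = e := by field_simp
        calc _ ≤ e * 1 := mul_le_mul h5 (hg _) (abs_nonneg _) he0.le
          _ ≤ e + 3 * q1 y + q2 y := by linarith
  have hshift : St d s N k (fun y => Real.cos (θ * Real.log |(y : ℝ)| + φ) * g y)
      = St d s N k' (fun y => Real.cos (θ * Real.log |(((Tz d)^[S] y : ℤ) : ℝ)| + φ) * g ((Tz d)^[S] y)) := by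
    rw [St_shift d s N k' S (fun y => Real.cos (θ * Real.log |(y : ℝ)| + φ) * g y), hkk]
  have hA : |St d s N k (fun y => Real.cos (θ * Real.log |(y : ℝ)| + φ) * g y)
      - (St d s N k' (fun y => c1 y * P1 y) - St d s N k' (fun y => c2 y * P2 y))|
      ≤ e * N + 3 * St d s N k' q1 + St d s N k' q2 := by
    rw [hshift]
    unfold St
    rw [← sum_sub_distrib, ← sum_sub_distrib]
    refine (abs_sum_le_sum_abs _ _).trans ((sum_le_sum fun n _ => hpt _).trans (le_of_eq ?_))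
    rw [sum_add_distrib, sum_add_distrib, sum_const, Nat.card_Icc, Nat.add_sub_cancel, nsmul_eq_mul, mul_sum]
    ring
  -- the small numbers
  have hB := h2 N hN2 k' hk'le s hs
  -- few odd terms
  have hC : St d s N k' q2 ≤ 2 * e * N := by
    have e1 : St d s N k' q2 = St d s N (v + k') (fun y => if od d u y < a then 1 else 0) := by
      rw [← St_shift d s N k' v (fun y => if od d u y < a then 1 else 0)]
    rw [e1]
    have h5 := h3 N hN3 (v + k') hvk s hs (fun y => if od d u y < a then 1 else 0)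
      (fun x => by split_ifs <;> simp) (fun x z => low_per hd a u x z)
    have h6 : mn (fun y => if od d u y < a then (1 : ℝ) else 0) (2 ^ u) ≤ e := hu
    have h7 := (abs_le.1 h5).2
    have h8 := mul_le_mul_of_nonneg_right h6 hN0
    linarith
  -- the two products
  have hprod : ∀ (φ' : ℝ) (ψ : ℝ), |St d s N k' (fun y => Real.cos (θ * Real.log |(y : ℝ)| + ψ)
      * PF d g θ φ' a u v y)| ≤ 2 * e * N := by
    intro φ' ψ
    have h5 := h1 N hN1 k' hk'le s hs (fun y => Real.cos (θ * Real.log |(y : ℝ)| + ψ)) (PF d g θ φ' a u v)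
      (fun y => Real.abs_cos_le_one _) (PF_abs d hg θ φ' a u v)
      (fun x z => PF_per hd hper θ φ' u v x z) (fun x hx i => slow_cos hs θ ψ x hx i)
    have h6 := PF_mean hd hg hM hc3 hper θ φ' u v
    have h7 := St_le d s N k' (f := fun y => Real.cos (θ * Real.log |(y : ℝ)| + ψ)) (c := 1)
      (fun y => Real.abs_cos_le_one _)
    rw [one_mul] at h7
    have h8 : |mn (PF d g θ φ' a u v) H * St d s N k' (fun y => Real.cos (θ * Real.log |(y : ℝ)| + ψ))|
        ≤ e * N := by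
      rw [abs_mul]
      exact mul_le_mul (h6.trans hv) h7 (abs_nonneg _) he0.le
    have b1 := abs_le.1 h5
    have b2 := abs_le.1 h8
    rw [abs_le]
    constructor <;> linarith [b1.1, b1.2, b2.1, b2.2]
  have hD1 := hprod φ 0
  have hD2 := hprod (φ + -(Real.pi / 2)) (-(Real.pi / 2))
  have b1 := abs_le.1 hA
  have b2 := abs_le.1 hD1
  have b3 := abs_le.1 hD2
  have hee : e = ε / 10 := he
  have hfin : ε * N = 10 * (e * N) := by rw [hee]; ring
  rw [hfin, abs_le]
  constructor <;> linarith [b1.1, b1.2, b2.1, b2.2, b3.1, b3.2]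

end Pool.Agent.W5h47.TV
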