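import Pool.Agent.W5h47.TV.K

/-! The law of the iterates, part L: leading digits and residue classes. -/

set_option autoImplicit false

namespace Pool.Agent.W5h47.TV

open Pool.Agent.H320R2.PD Finset Filter Topology
open Pool.Agent.H499R2.CO (Tz)
open Pool.Agent.R344.SP
open Pool.Agent.W5h47.SL
open Pool.Agent.H469R2.NK (e norm_e e_add)

/-- an inequality of Erdős–Turán type for counting -/
theorem disc {ι : Type} (S : Finset ι) (x : ι → ℝ) (K : ℕ) (hK : 1 ≤ K) {δ w : ℝ} (hδ0 : 0 < δ) (hδ1 : δ ≤ 1)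
    (hKδ : 1 ≤ K * δ ^ 2) (hw : ∀ h : ℕ, 1 ≤ h → h ≤ K → ‖∑ n ∈ S, e (h * x n)‖ ≤ w) {a b : ℝ}
    (ha : 0 ≤ a) (hab : a ≤ b) (hb : b ≤ 1) :
    |((S.filter fun n => a ≤ Int.fract (x n) ∧ Int.fract (x n) < b).card : ℝ) - (b - a) * S.card|
      ≤ 2 * (K * w + 2 * (S.card * δ)) := by
  classical
  have hK0 : (0 : ℝ) < K := by exact_mod_cast hK
  have ht0 : (0 : ℝ) ≤ S.card := Nat.cast_nonneg _
  have hw0 : 0 ≤ w := (norm_nonneg _).trans (hw 1 le_rfl hK)
  have saw : ∀ β : ℝ, |∑ n ∈ S, (Int.fract (x n - β) - 1 / 2)| ≤ K * w + 2 * (S.card * δ) := by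
    intro β
    have h1 := Pool.Agent.R485.Trans.saw_bound S (fun n => x n - β) K hK δ hδ0 hδ1
    refine h1.trans ?_
    have h2 : ∑ h ∈ Icc 1 K, ‖∑ n ∈ S, e (h * (x n - β))‖ / h ≤ K * w := by
      calc ∑ h ∈ Icc 1 K, ‖∑ n ∈ S, e (h * (x n - β))‖ / h
          ≤ ∑ _h ∈ Icc 1 K, w := by
            refine sum_le_sum fun h hh => ?_
            obtain ⟨hh1, hh2⟩ := mem_Icc.1 hh
            have hh0 : (1 : ℝ) ≤ h := by exact_mod_cast hh1
            have e1 : ∑ n ∈ S, e (h * (x n - β)) = e (-(h * β)) * ∑ n ∈ S, e (h * x n) := by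
              rw [mul_sum]
              refine sum_congr rfl fun k _ => ?_
              rw [← e_add]
              congr 1
              ring
            rw [e1, norm_mul, norm_e, one_mul]
            exact (div_le_self (norm_nonneg _) hh0).trans (hw h hh1 hh2)
        _ = K * w := by rw [sum_const, Nat.card_Icc, nsmul_eq_mul, Nat.add_sub_cancel]
    have h3 : (S.card : ℝ) / (K * δ) ≤ S.card * δ := by
      rw [div_le_iff₀ (by positivity)]
      calc (S.card : ℝ) = S.card * 1 := (mul_one _).symm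
        _ ≤ S.card * (K * δ ^ 2) := by gcongr
        _ = S.card * δ * (K * δ) := by ring
    linarith
  rcases hab.lt_or_eq with hlt | heq
  · have e1 : ((S.filter fun n => a ≤ Int.fract (x n) ∧ Int.fract (x n) < b).card : ℝ) - (b - a) * S.card =
        ∑ n ∈ S, (Int.fract (x n - b) - 1 / 2) - ∑ n ∈ S, (Int.fract (x n - a) - 1 / 2) := by
      rw [← sum_sub_distrib]
      have e2 : ∀ n ∈ S, (Int.fract (x n - b) - 1 / 2) - (Int.fract (x n - a) - 1 / 2) =
          (if a ≤ Int.fract (x n) ∧ Int.fract (x n) < b then (1 : ℝ) else 0) - (b - a) := fun n _ =>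
        (Pool.Agent.R485.Trans.indicator_eq _ a b ha hlt hb).symm
      rw [sum_congr rfl e2, sum_sub_distrib, sum_const, nsmul_eq_mul, sum_boole]
      ring
    rw [e1]
    have h1 := saw b
    have h2 := saw a
    refine (abs_sub _ _).trans ?_
    linarith
  · subst heq
    have e1 : (S.filter fun n => a ≤ Int.fract (x n) ∧ Int.fract (x n) < a).card = 0 := by
      rw [card_eq_zero, filter_eq_empty_iff]
      intro k _ h
      linarith [h.1, h.2]
    rw [e1]
    simp only [Nat.cast_zero, sub_self, zero_mul, abs_zero]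
    positivity

theorem cos_lt {x : ℝ} (hx : ∀ n : ℤ, x ≠ n) : |Real.cos (Real.pi * x)| < 1 := by
  rcases lt_or_eq_of_le (Real.abs_cos_le_one (Real.pi * x)) with h | h
  · exact h
  · exfalso
    have h1 : Real.cos (Real.pi * x) ^ 2 = 1 := by rw [← sq_abs, h, one_pow]
    have h2 : Real.sin (Real.pi * x) = 0 := by
      have := Real.sin_sq_add_cos_sq (Real.pi * x)
      rw [h1] at this
      exact pow_eq_zero_iff (two_ne_zero) |>.1 (by linarith)
    rw [Real.sin_eq_zero_iff] at h2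
    obtain ⟨n, hn⟩ := h2
    apply hx n
    have := Real.pi_ne_zero
    rw [mul_comm] at hn
    exact (mul_left_cancel₀ this hn).symm

open scoped Classical in
/-- LEADING DIGITS AND RESIDUE CLASSES, every time -/
theorem digits {d : ℤ} (hd : d % 2 = 1) (hd3 : IsCoprime d 3) {κ : ℝ} (hκ : κ < 2 / Real.log (4 / 3))
    {B : ℝ} (hB : 1 < B) (hirr : Irrational (Real.logb B 3)) {ε : ℝ} (hε : 0 < ε) {Q : ℕ} (hQ : 1 ≤ Q) :
    ∃ K₀ N₀ : ℕ, ∀ N ≥ N₀, ∀ k : ℕ, K₀ ≤ k → (k : ℝ) ≤ κ * Real.log N → ∀ s : ℤ, (s = 1 ∨ s = -1) →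
      ∀ r : ℤ, ∀ a b : ℝ, 0 ≤ a → a ≤ b → b ≤ 1 →
        |((((Icc 1 N).filter (fun n : ℕ => (Tz d)^[k] (s * (n : ℕ)) ≡ r [ZMOD Q])).filter
            (fun n : ℕ => a ≤ Int.fract (Real.logb B |(((Tz d)^[k] (s * (n : ℕ)) : ℤ) : ℝ)|) ∧
              Int.fract (Real.logb B |(((Tz d)^[k] (s * (n : ℕ)) : ℤ) : ℝ)|) < b)).card : ℝ)
          - (b - a) * ((Icc 1 N).filter (fun n : ℕ => (Tz d)^[k] (s * (n : ℕ)) ≡ r [ZMOD Q])).card| ≤ ε * N := by
  obtain ⟨v, M, hM3, hQM⟩ := Nat.exists_eq_pow_mul_and_not_dvd (n := Q) (by omega) 3 (by norm_num)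
  have hM1 : 1 ≤ M := by
    rcases Nat.eq_zero_or_pos M with h | h
    · rw [h, mul_zero] at hQM; omega
    · exact h
  have hc3 : Nat.Coprime 3 M := (Nat.Prime.coprime_iff_not_dvd (by norm_num)).2 hM3
  have hlB : 0 < Real.log B := Real.log_pos hB
  set δ : ℝ := min 1 (ε / 8) with hδ
  have hδ0 : 0 < δ := by rw [hδ]; positivity
  have hδ1 : δ ≤ 1 := min_le_left _ _
  have hδ2 : δ ≤ ε / 8 := min_le_right _ _
  obtain ⟨K, hK⟩ := exists_nat_ge (max 1 (1 / δ ^ 2))
  have hK1 : (1 : ℝ) ≤ K := (le_max_left _ _).trans hK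
  have hK1' : 1 ≤ K := by exact_mod_cast hK1
  have hKδ : 1 ≤ K * δ ^ 2 := by
    have := (le_max_right _ _).trans hK
    rwa [div_le_iff₀ (by positivity)] at this
  set θ : ℕ → ℝ := fun h => 2 * Real.pi * h / Real.log B with hθ
  have hcos : ∀ h : ℕ, 1 ≤ h → |Real.cos (θ h * Real.log 3 / 2)| < 1 := by
    intro h hh
    have e1 : θ h * Real.log 3 / 2 = Real.pi * (h * Real.logb B 3) := by
      rw [hθ]; dsimp only
      unfold Real.logb
      field_simp
    rw [e1]
    apply cos_lt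
    intro n hn
    apply hirr
    refine ⟨(n : ℚ) / h, ?_⟩
    have hh0 : (h : ℝ) ≠ 0 := by
      have : (0 : ℝ) < h := by exact_mod_cast hh
      exact this.ne'
    push_cast
    rw [div_eq_iff hh0, ← hn]
    ring
  have hosc : ∀ h : ℕ, ∃ K₀ N₀ : ℕ, 1 ≤ h → ∀ N ≥ N₀, ∀ k : ℕ, K₀ ≤ k → (k : ℝ) ≤ κ * Real.log N →
      ∀ s : ℤ, (s = 1 ∨ s = -1) → ∀ (φ : ℝ) (g : ℤ → ℝ), (∀ x, |g x| ≤ 1) →
      (∀ x z, g (x + (3 ^ v * M : ℕ) * z) = g x) →
        |St d s N k (fun y => Real.cos (θ h * Real.log |(y : ℝ)| + φ) * g y)| ≤ ε / (8 * K) * N := by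
    intro h
    by_cases hh : 1 ≤ h
    · obtain ⟨K₀, N₀, h1⟩ := osc hd hd3 hκ (hcos h hh) (ε := ε / (8 * K)) (by positivity) (a := v) hM1 hc3
      exact ⟨K₀, N₀, fun _ => h1⟩
    · exact ⟨0, 0, fun h1 => absurd h1 hh⟩
  choose K₀ N₀ hKN using hosc
  refine ⟨∑ h ∈ range (K + 1), K₀ h, ∑ h ∈ range (K + 1), N₀ h, fun N hN k hkK hk s hs r a b ha hab hb => ?_⟩
  set S := (Icc 1 N).filter (fun n : ℕ => (Tz d)^[k] (s * (n : ℕ)) ≡ r [ZMOD Q]) with hS
  set x : ℕ → ℝ := fun n => Real.logb B |(((Tz d)^[k] (s * (n : ℕ)) : ℤ) : ℝ)| with hx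
  set g : ℤ → ℝ := fun y => if y ≡ r [ZMOD Q] then 1 else 0 with hg
  have hg1 : ∀ y, |g y| ≤ 1 := by
    intro y
    rw [hg]; dsimp only
    split_ifs <;> simp
  have hgper : ∀ x z, g (x + (3 ^ v * M : ℕ) * z) = g x := by
    intro x z
    rw [hg]; dsimp only
    rw [← hQM]
    have : (x + Q * z ≡ r [ZMOD Q]) = (x ≡ r [ZMOD Q]) := by
      unfold Int.ModEq
      rw [Int.add_mul_emod_self_left]
    simp only [this]
  have hN0 : (0 : ℝ) ≤ N := by positivity
  have hScard : (S.card : ℝ) ≤ N := by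
    have : S.card ≤ (Icc 1 N).card := card_filter_le _ _
    rw [Nat.card_Icc, Nat.add_sub_cancel] at this
    exact_mod_cast this
  have hw : ∀ h : ℕ, 1 ≤ h → h ≤ K → ‖∑ n ∈ S, e (h * x n)‖ ≤ ε / (4 * K) * N := by
    intro h hh1 hh2
    have hmem : h ∈ range (K + 1) := by rw [mem_range]; omega
    have hKh : K₀ h ≤ k := le_trans (single_le_sum (f := K₀) (fun i _ => Nat.zero_le _) hmem) hkK
    have hNh : N₀ h ≤ N := le_trans (single_le_sum (f := N₀) (fun i _ => Nat.zero_le _) hmem) hN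
    have key : ∀ φ : ℝ, |∑ n ∈ S, Real.cos (2 * Real.pi * (h * x n) + φ)| ≤ ε / (8 * K) * N := by
      intro φ
      have h1 := hKN h hh1 N hNh k hKh hk s hs φ g hg1 hgper
      have e1 : ∑ n ∈ S, Real.cos (2 * Real.pi * (h * x n) + φ)
          = St d s N k (fun y => Real.cos (θ h * Real.log |(y : ℝ)| + φ) * g y) := by
        unfold St
        rw [hS, sum_filter]
        apply sum_congr rfl
        intro n _
        rw [hg]; dsimp only
        have e2 : 2 * Real.pi * (h * x n) = θ h * Real.log |(((Tz d)^[k] (s * (n : ℕ)) : ℤ) : ℝ)| := by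
          rw [hx, hθ]; dsimp only
          unfold Real.logb
          ring
        rw [e2]
        split_ifs
        · rw [mul_one]
        · rw [mul_zero]
      rw [e1]; exact h1
    have h2 := key 0
    have h3 := key (-(Real.pi / 2))
    refine (Complex.norm_le_abs_re_add_abs_im _).trans ?_
    have er : (∑ n ∈ S, e (h * x n)).re = ∑ n ∈ S, Real.cos (2 * Real.pi * (h * x n) + 0) := by
      rw [Complex.re_sum]
      apply sum_congr rfl
      intro n _
      unfold Pool.Agent.H469R2.NK.e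
      rw [Complex.exp_ofReal_mul_I_re, add_zero]
    have ei : (∑ n ∈ S, e (h * x n)).im = ∑ n ∈ S, Real.cos (2 * Real.pi * (h * x n) + -(Real.pi / 2)) := by
      rw [Complex.im_sum]
      apply sum_congr rfl
      intro n _
      unfold Pool.Agent.H469R2.NK.e
      rw [Complex.exp_ofReal_mul_I_im, ← sub_eq_add_neg, Real.cos_sub_pi_div_two]
    rw [er, ei]
    refine (add_le_add h2 h3).trans (le_of_eq ?_)
    have hK0 : (0 : ℝ) < K := by linarith
    field_simp
    ring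
  have hfin := disc S x K hK1' hδ0 hδ1 hKδ hw ha hab hb
  refine hfin.trans ?_
  have hK0 : (0 : ℝ) < K := by linarith
  have e1 : (K : ℝ) * (ε / (4 * K) * N) = ε / 4 * N := by field_simp
  have e2 : (S.card : ℝ) * δ ≤ N * (ε / 8) := mul_le_mul hScard hδ2 hδ0.le hN0
  rw [e1]
  linarith

end Pool.Agent.W5h47.TV
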